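import Pool.Agent.Helper17.Dyn.Sym3

/-! Module S3: local symmetries are affine (conclusion). -/

open Complex Metric Set Filter Topology InnerProductSpace

namespace Pool.Agent.Helper17.Dyn

open Pool.Agent.Helper65 Pool.Agent.Helper56.Harm

lemma affine_of_deriv_const {δ : ℂ → ℂ} {x a : ℂ} (hδ : AnalyticAt ℂ δ x)
    (h : ∀ᶠ z in 𝓝 x, deriv δ z = a) : ∃ b, ∀ᶠ z in 𝓝 x, δ z = a * z + b := by
  obtain ⟨r, hr, hball⟩ := Metric.eventually_nhds_iff_ball.mp (h.and hδ.eventually_analyticAt)
  have hd : DifferentiableOn ℂ (fun z => δ z - a * z) (ball x r) := by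
    intro z hz
    have := (hball z hz).2.differentiableAt
    exact (this.sub (by fun_prop)).differentiableWithinAt
  have hd0 : (ball x r).EqOn (deriv (fun z => δ z - a * z)) 0 := by
    intro z hz
    have h1 := (hball z hz).2.differentiableAt.hasDerivAt
    have h2 : HasDerivAt (fun z => a * z) a z := by simpa using (hasDerivAt_id z).const_mul a
    have h3 : HasDerivAt (fun z => δ z - a * z) (deriv δ z - a) z := h1.sub h2
    rw [h3.deriv, (hball z hz).1]
    simp
  obtain ⟨b, hb⟩ := isOpen_ball.exists_is_const_of_deriv_eq_zero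
    (convex_ball x r).isPreconnected hd hd0
  refine ⟨b, ?_⟩
  filter_upwards [isOpen_ball.mem_nhds (mem_ball_self hr)] with z hz
  have := hb z hz
  rw [← this]; ring

lemma not_harm_translate {g : ℂ → ℝ} {c : ℂ} (hc : c ∈ Tr g) (h : ¬ HarmonicAt g 0) :
    ¬ HarmonicAt g c := by
  intro hh
  apply h
  have h1 : HarmonicAt (fun z => g (z + c)) 0 := harm_translate (by simpa using hh)
  have h2 := hc 0 (mem_univ _)
  refine harm_congr (harm_sub h1 h2) (Eventually.of_forall fun z => ?_)
  simp

/-- S3: a local symmetry (with scaling) is affine -/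
theorem affine_of_symm {g : ℂ → ℝ} {lam : ℂ} {w : ℝ} (h : SymG g lam w) {v : ℂ} (hv : v ≠ 0)
    (hvT : ∀ s : ℝ, (s : ℂ) * v ∈ Tr g) {x : ℂ} (hx : ∃ s : ℝ, x = s * v) {δ : ℂ → ℂ}
    (hδ : AnalyticAt ℂ δ x) (hδ' : deriv δ x ≠ 0) {t : ℝ} (ht : t ≠ 0)
    (hδg : HarmonicAt (fun z => g (δ z) - t * g z) x) :
    ∃ a b : ℂ, ∀ᶠ z in 𝓝 x, δ z = a * z + b := by
  have hs : Sy g δ t x := ⟨hδ, hδ', ht, hδg⟩
  have hxT : x ∈ Tr g := by obtain ⟨s, rfl⟩ := hx; exact hvT s
  have hnh : ¬ HarmonicAt g x := not_harm_translate hxT h.nh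
  have hnorm := norm_deriv_eq h.cont hs hnh
  suffices hsuff : ∀ᶠ z in 𝓝 x, deriv δ z = deriv δ x by
    obtain ⟨b, hb⟩ := affine_of_deriv_const hδ hsuff
    exact ⟨_, b, hb⟩
  by_cases hall : ∀ c : ℂ, c ∈ Tr g
  · -- all translations
    have hd : ∀ᶠ z in 𝓝 x, DifferentiableAt ℂ (deriv δ) z := by
      filter_upwards [hδ.deriv.eventually_analyticAt] with z hz using hz.differentiableAt
    have hmax : IsLocalMax (norm ∘ deriv δ) x := by
      filter_upwards [hnorm] with y hy
      exact (hy (hall _) (hall _)).le
    exact Complex.eventually_eq_of_isLocalMax_norm hd hmax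
  · push Not at hall
    obtain ⟨c0, hc0⟩ := hall
    -- directions are unique
    have hK : ∀ v' : ℂ, (∀ s : ℝ, (s : ℂ) * v' ∈ Tr g) → (v' / v).im = 0 := by
      intro v' hv'
      by_contra him
      apply hc0
      set q := v' / v with hq
      have hv'q : v' = q * v := by rw [hq]; field_simp
      set b := (c0 / v).im / q.im with hb
      set a := (c0 / v).re - b * q.re with ha
      have e : c0 / v = (a : ℂ) + (b : ℂ) * q := by
        apply Complex.ext
        · simp [ha]
        · simp [hb]; field_simp
      have e2 : c0 = (a : ℂ) * v + (b : ℂ) * v' := by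
        have : c0 = (c0 / v) * v := by field_simp
        rw [this, e, hv'q]; ring
      rw [e2]
      exact tr_add (hvT a) (hv' b)
    -- the derivative is real along the line
    have hreal : ∀ᶠ y in 𝓝 x, (∃ s : ℝ, y = s * v) → (deriv δ y).im = 0 := by
      filter_upwards [hs.eventually] with y hy hys
      obtain ⟨s, rfl⟩ := hys
      have hyT : (s : ℂ) * v ∈ Tr g := hvT s
      have h1 : Sy g (fun z => z + (s : ℂ) * v) 1 0 := Sy.translate hyT 0
      have h2 : Sy g δ t ((fun z => z + (s : ℂ) * v) 0) := by simpa using hy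
      have h3 := h1.comp h2
      have hd : deriv (fun z => δ (z + (s : ℂ) * v)) 0 = deriv δ ((s : ℂ) * v) := by
        rw [deriv_comp_add_const]; simp
      have h4 : ∀ r : ℝ, (r : ℂ) * (v / deriv δ ((s : ℂ) * v)) ∈ Tr g := by
        intro r
        have := tr_of_deriv h (v := (r : ℂ) * v) (fun s' => by
          have := hvT (s' * r)
          push_cast at this
          rwa [mul_assoc] at this) h3
        rw [hd] at this
        rwa [mul_div_assoc] at this
      have h5 := hK _ h4
      have h6 : v / deriv δ ((s : ℂ) * v) / v = (deriv δ ((s : ℂ) * v))⁻¹ := by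
        field_simp
      rw [h6, Complex.inv_im, div_eq_zero_iff] at h5
      rcases h5 with h5 | h5
      · linarith
      · exfalso
        exact hy.d (Complex.normSq_eq_zero.mp h5)
    -- work on a ball
    have hclose : ∀ᶠ y in 𝓝 x, ‖deriv δ y - deriv δ x‖ < ‖deriv δ x‖ := by
      have hc : ContinuousAt (fun y => ‖deriv δ y - deriv δ x‖) x :=
        (hδ.deriv.continuousAt.sub continuousAt_const).norm
      have : (fun y => ‖deriv δ y - deriv δ x‖) x < ‖deriv δ x‖ := by
        simpa using hδ'
      exact hc.eventually_lt continuousAt_const this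
    obtain ⟨r, hr, hball⟩ := Metric.eventually_nhds_iff_ball.mp
      (hs.eventually.and (hnorm.and (hreal.and hclose)))
    set r0 := r / ‖v‖ with hr0
    have hvpos : 0 < ‖v‖ := norm_pos_iff.mpr hv
    have hr0pos : 0 < r0 := by positivity
    have hin : ∀ s ∈ Ioo (-r0) r0, x + (s : ℂ) * v ∈ ball x r := by
      intro s hs'
      rw [mem_ball, dist_eq_norm]
      have : x + (s : ℂ) * v - x = (s : ℂ) * v := by ring
      rw [this, norm_mul, Complex.norm_real, Real.norm_eq_abs]
      have h1 : |s| < r0 := abs_lt.mpr hs'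
      calc |s| * ‖v‖ < r0 * ‖v‖ := mul_lt_mul_of_pos_right h1 hvpos
        _ = r := by rw [hr0]; field_simp
    have hline : ∀ s : ℝ, ∃ s' : ℝ, x + (s : ℂ) * v = s' * v := by
      intro s
      obtain ⟨s0, rfl⟩ := hx
      exact ⟨s0 + s, by push_cast; ring⟩
    -- the displacement is in the real line
    have hdis : ∀ s ∈ Ioo (-r0) r0, ((δ (x + (s : ℂ) * v) - δ x) / v).im = 0 := by
      have hder : ∀ s ∈ Ioo (-r0) r0,
          HasDerivAt (fun s : ℝ => (δ (x + (s : ℂ) * v) / v).im) 0 s := by
        intro s hs'
        have h1 := (hball _ (hin s hs')).1.an.differentiableAt.hasDerivAt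
        have h2 : HasDerivAt (fun z : ℂ => x + z * v) v (s : ℂ) := by
          have := ((hasDerivAt_id (s : ℂ)).mul_const v).const_add x
          simpa using this
        have h3 : HasDerivAt (fun z : ℂ => δ (x + z * v) / v)
            (deriv δ (x + (s : ℂ) * v) * v / v) (s : ℂ) := (h1.comp (s : ℂ) h2).div_const v
        have h4 := h3.comp_ofReal
        have h5 := Complex.imCLM.hasFDerivAt.comp_hasDerivAt s h4
        have h6 : Complex.imCLM (deriv δ (x + (s : ℂ) * v) * v / v) = 0 := by
          rw [mul_div_assoc, div_self hv, mul_one]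
          exact (hball _ (hin s hs')).2.2.1 (hline s)
        rw [h6] at h5
        exact h5
      have hd : DifferentiableOn ℝ (fun s : ℝ => (δ (x + (s : ℂ) * v) / v).im) (Ioo (-r0) r0) :=
        fun s hs' => (hder s hs').differentiableAt.differentiableWithinAt
      obtain ⟨a, ha⟩ := isOpen_Ioo.exists_is_const_of_deriv_eq_zero
        isPreconnected_Ioo hd (fun s hs' => (hder s hs').deriv)
      intro s hs'
      have h1 := ha s hs'
      have h2 := ha 0 ⟨by linarith, hr0pos⟩
      simp only [Complex.ofReal_zero, zero_mul, add_zero] at h2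
      rw [sub_div, Complex.sub_im, h1, h2, sub_self]
    have hconst : ∀ s ∈ Ioo (-r0) r0, deriv δ (x + (s : ℂ) * v) = deriv δ x := by
      intro s hs'
      obtain ⟨hsy, hn, hre, hcl⟩ := hball _ (hin s hs')
      have him := hre (hline s)
      have him0 : (deriv δ x).im = 0 := (hball x (mem_ball_self hr)).2.2.1 hx
      have hT1 : δ (x + (s : ℂ) * v) - δ x ∈ Tr g := by
        have h1 := hdis s hs'
        have h2 : δ (x + (s : ℂ) * v) - δ x =
            ((((δ (x + (s : ℂ) * v) - δ x) / v).re : ℝ) : ℂ) * v := by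
          have h3 : (δ (x + (s : ℂ) * v) - δ x) / v =
              ((((δ (x + (s : ℂ) * v) - δ x) / v).re : ℝ) : ℂ) := by
            apply Complex.ext
            · simp
            · rw [h1]; simp
          rw [← h3]; field_simp
        rw [h2]
        exact hvT _
      have hT2 : x + (s : ℂ) * v - x ∈ Tr g := by
        have : x + (s : ℂ) * v - x = (s : ℂ) * v := by ring
        rw [this]; exact hvT s
      have hnn := hn hT1 hT2
      -- both real with the same absolute value
      have e1 : deriv δ (x + (s : ℂ) * v) = (((deriv δ (x + (s : ℂ) * v)).re : ℝ) : ℂ) :=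
        Complex.ext (by simp) (by simp [him])
      have e2 : deriv δ x = (((deriv δ x).re : ℝ) : ℂ) :=
        Complex.ext (by simp) (by simp [him0])
      rw [e1, e2, Complex.norm_real, Complex.norm_real, Real.norm_eq_abs, Real.norm_eq_abs,
        abs_eq_abs] at hnn
      rcases hnn with hnn | hnn
      · rw [e1, e2, hnn]
      · exfalso
        rw [e1, e2, hnn, Complex.norm_real] at hcl
        have : (((-(deriv δ x).re : ℝ) : ℂ) - (((deriv δ x).re : ℝ) : ℂ)) =
            (((-2 * (deriv δ x).re : ℝ)) : ℂ) := by push_cast; ring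
        rw [this, Complex.norm_real, Real.norm_eq_abs, Real.norm_eq_abs, abs_mul] at hcl
        have h2 : |(-2 : ℝ)| = 2 := by norm_num
        rw [h2] at hcl
        have := abs_nonneg (deriv δ x).re
        linarith
    -- identity theorem
    have hfreq : ∃ᶠ y in 𝓝[≠] x, deriv δ y = (fun _ => deriv δ x) y := by
      have hlim : Tendsto (fun s : ℝ => x + (s : ℂ) * v) (𝓝[≠] 0) (𝓝[≠] x) := by
        rw [tendsto_nhdsWithin_iff]
        constructor
        · have hc : Continuous fun s : ℝ => x + (s : ℂ) * v := by fun_prop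
          have := hc.tendsto 0
          simp only [Complex.ofReal_zero, zero_mul, add_zero] at this
          exact this.mono_left nhdsWithin_le_nhds
        · filter_upwards [self_mem_nhdsWithin] with s hs'
          intro heq
          have : (s : ℂ) * v = 0 := by
            have h1 : x + (s : ℂ) * v = x := heq
            simpa using h1
          rcases mul_eq_zero.mp this with h1 | h1
          · exact hs' (by exact_mod_cast h1)
          · exact hv h1
      refine hlim.frequently (Eventually.frequently ?_)
      have : ∀ᶠ s : ℝ in 𝓝[≠] 0, s ∈ Ioo (-r0) r0 :=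
        nhdsWithin_le_nhds (Ioo_mem_nhds (by linarith) hr0pos)
      filter_upwards [this] with s hs'
      exact hconst s hs'
    exact (hδ.deriv.frequently_eq_iff_eventually_eq analyticAt_const).mp hfreq

end Pool.Agent.Helper17.Dyn
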