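import Mathlib
import Pool.Agent.Helper65.Base
import Pool.Agent.Helper65.Wd
import Pool.Agent.Helper65.Green
import Pool.Agent.Helper60.RF.SpecDef
import Pool.Agent.Helper17.Dyn.Sym4

/-! Module C (classification) of MP_9c370f: curves in `ℂ²`. -/

open Complex Metric Set Filter Topology InnerProductSpace

namespace Pool.Agent.Helper17.Dyn

open Pool.Agent.Helper65 Pool.Agent.Helper56.Harm

lemma countable_zeros {f : ℂ → ℂ} (hf : Differentiable ℂ f) (hne : ∃ z, f z ≠ 0) :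
    {z | f z = 0}.Countable := by
  obtain ⟨x, hx⟩ := hne
  have h : AnalyticOnNhd ℂ f univ := fun z _ => hf.analyticAt z
  have h1 := h.preimage_zero_mem_codiscrete hx
  have e : {z | f z = 0}ᶜ = f ⁻¹' {0}ᶜ := by ext z; simp
  rw [← e] at h1
  have h2 := (HereditarilyLindelofSpace.isLindelof _).countable_of_isDiscrete
    (isDiscrete_of_codiscreteWithin (U := univ) h1)
  rwa [inter_univ] at h2

/-- If an entire function vanishes near a point, it vanishes. -/
lemma entire_eq_zero {f : ℂ → ℂ} (hf : Differentiable ℂ f) {x : ℂ} (h : ∀ᶠ z in 𝓝 x, f z = 0) :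
    ∀ z, f z = 0 := by
  have h' : AnalyticOnNhd ℂ f univ := fun z _ => hf.analyticAt z
  have := h'.eqOn_zero_of_preconnected_of_eventuallyEq_zero isPreconnected_univ (mem_univ x) h
  exact fun z => this (mem_univ z)

/-- the identity needed for local inverses -/
lemma wd_identity (a b c η : C2) :
    wd a c * wd b η - wd b c * wd a η = wd a b * wd c η := by
  simp only [wd]; ring

lemma exists_wd_ne {v : C2} (hv : v ≠ 0) : ∃ η : C2, wd v η ≠ 0 := by
  rcases fst_or_snd hv with h | h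
  · exact ⟨(0, 1), by simpa [wd] using h⟩
  · exact ⟨(1, 0), by simpa [wd] using h⟩

lemma hasDerivAt_wd {f g : ℂ → C2} {f' g' : C2} {x : ℂ} (hf : HasDerivAt f f' x)
    (hg : HasDerivAt g g' x) : HasDerivAt (fun z => wd (f z) (g z)) (wd f' (g x) + wd (f x) g') x := by
  have h1 : HasDerivAt (fun z => (f z).1) f'.1 x :=
    (ContinuousLinearMap.fst ℂ ℂ ℂ).hasFDerivAt.comp_hasDerivAt x hf
  have h2 : HasDerivAt (fun z => (f z).2) f'.2 x :=
    (ContinuousLinearMap.snd ℂ ℂ ℂ).hasFDerivAt.comp_hasDerivAt x hf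
  have h3 : HasDerivAt (fun z => (g z).1) g'.1 x :=
    (ContinuousLinearMap.fst ℂ ℂ ℂ).hasFDerivAt.comp_hasDerivAt x hg
  have h4 : HasDerivAt (fun z => (g z).2) g'.2 x :=
    (ContinuousLinearMap.snd ℂ ℂ ℂ).hasFDerivAt.comp_hasDerivAt x hg
  have := (h1.mul h4).sub (h2.mul h3)
  refine (HasDerivAt.congr_deriv this ?_)
  simp only [wd]; ring

/-- Local lifting of one curve to another: if `[φ x] = [ψ z1]` with both immersed, then
`[ψ (δ z)] = [φ z]` near `x` for a local biholomorphism `δ`, `δ x = z1`. -/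
lemma exists_delta {φ ψ : ℂ → C2} {x z1 : ℂ} (hφ : AnalyticAt ℂ φ x) (hψ : AnalyticAt ℂ ψ z1)
    (hφ0 : φ x ≠ 0) (hψ0 : ψ z1 ≠ 0) (hpar : wd (φ x) (ψ z1) = 0)
    (hφi : wd (φ x) (deriv φ x) ≠ 0) (hψi : wd (ψ z1) (deriv ψ z1) ≠ 0) :
    ∃ δ : ℂ → ℂ, AnalyticAt ℂ δ x ∧ δ x = z1 ∧ deriv δ x ≠ 0 ∧
      ∀ᶠ z in 𝓝 x, wd (ψ (δ z)) (φ z) = 0 := by
  obtain ⟨η, hη⟩ := exists_wd_ne hψ0
  obtain ⟨t, ht, e⟩ := (par_iff' hφ0 hψ0).1 hpar
  have hηφ : wd (φ x) η ≠ 0 := by
    rw [e, wd_smul_left]; exact mul_ne_zero ht hη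
  -- the charts
  set Lψ : ℂ → ℂ := fun z => wd (ψ z) (ψ z1) / wd (ψ z) η with hLψ
  set Lφ : ℂ → ℂ := fun z => wd (φ z) (ψ z1) / wd (φ z) η with hLφ
  have aψ : AnalyticAt ℂ Lψ z1 :=
    (analyticAt_wd hψ analyticAt_const).div (analyticAt_wd hψ analyticAt_const) hη
  have aφ : AnalyticAt ℂ Lφ x :=
    (analyticAt_wd hφ analyticAt_const).div (analyticAt_wd hφ analyticAt_const) hηφ
  have vψ : Lψ z1 = 0 := by simp [hLψ, wd_self]
  have vφ : Lφ x = 0 := by simp [hLφ, hpar]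
  have dψ : deriv Lψ z1 ≠ 0 := by
    have h1 := hasDerivAt_wd hψ.differentiableAt.hasDerivAt (hasDerivAt_const z1 (ψ z1))
    have h2 := hasDerivAt_wd hψ.differentiableAt.hasDerivAt (hasDerivAt_const z1 η)
    have h3 := h1.div h2 hη
    have h4 : deriv Lψ z1 = _ := h3.deriv
    rw [h4]
    simp only [wd_self, zero_mul, sub_zero, wd_zero_right, add_zero]
    have : wd (deriv ψ z1) (ψ z1) ≠ 0 := by
      rw [wd_swap]; exact neg_ne_zero.mpr hψi
    exact div_ne_zero (mul_ne_zero this hη) (pow_ne_zero _ hη)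
  have dφ : deriv Lφ x ≠ 0 := by
    have h1 := hasDerivAt_wd hφ.differentiableAt.hasDerivAt (hasDerivAt_const x (ψ z1))
    have h2 := hasDerivAt_wd hφ.differentiableAt.hasDerivAt (hasDerivAt_const x η)
    have h3 := h1.div h2 hηφ
    have h4 : deriv Lφ x = _ := h3.deriv
    rw [h4]
    simp only [hpar, zero_mul, sub_zero, wd_zero_right, add_zero]
    have : wd (deriv φ x) (ψ z1) ≠ 0 := by
      rw [wd_swap, neg_ne_zero]
      intro h0
      apply hφi
      rw [e, wd_smul_left, h0, mul_zero]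
    exact div_ne_zero (mul_ne_zero this hηφ) (pow_ne_zero _ hηφ)
  obtain ⟨r, ρ, γ, hr, -, hρ, hd, hd', hγd, hγm, hγr, hinj⟩ :=
    exists_local_inv aψ dψ one_pos
  rw [vψ] at hγd hγm hγr
  have hγ0 : γ 0 = z1 := by
    apply hinj (hγm (mem_ball_self hρ)) (mem_ball_self hr)
    rw [hγr 0 (mem_ball_self hρ), vψ]
  have aγ : AnalyticAt ℂ γ 0 := (hγd.analyticAt (isOpen_ball.mem_nhds (mem_ball_self hρ)))
  have aγ' : AnalyticAt ℂ γ (Lφ x) := by rw [vφ]; exact aγ
  have hδ : AnalyticAt ℂ (fun z => γ (Lφ z)) x := aγ'.comp aφ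
  have hev : ∀ᶠ z in 𝓝 x, Lφ z ∈ ball (0 : ℂ) ρ := by
    have h1 : ∀ᶠ y in 𝓝 (Lφ x), y ∈ ball (0 : ℂ) ρ := by
      rw [vφ]; exact ball_mem_nhds 0 hρ
    exact aφ.continuousAt.eventually h1
  have hδx : γ (Lφ x) = z1 := by rw [vφ, hγ0]
  have hLL : ∀ᶠ z in 𝓝 x, Lψ (γ (Lφ z)) = Lφ z := by
    filter_upwards [hev] with z hz
    exact hγr _ hz
  refine ⟨fun z => γ (Lφ z), hδ, hδx, ?_, ?_⟩
  · -- derivative
    intro h0
    have h1 : HasDerivAt (fun z => γ (Lφ z)) 0 x := by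
      rw [← h0]; exact hδ.differentiableAt.hasDerivAt
    have h2 : HasDerivAt Lψ (deriv Lψ z1) ((fun z => γ (Lφ z)) x) := by
      show HasDerivAt Lψ (deriv Lψ z1) (γ (Lφ x))
      rw [hδx]; exact aψ.differentiableAt.hasDerivAt
    have h3 := HasDerivAt.comp x h2 h1
    have h4 : HasDerivAt Lφ (deriv Lψ z1 * 0) x := h3.congr_of_eventuallyEq (by
      filter_upwards [hLL] with z hz
      exact hz.symm)
    apply dφ
    rw [h4.deriv, mul_zero]
  · have h1 : ∀ᶠ z in 𝓝 x, wd (ψ (γ (Lφ z))) η ≠ 0 := by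
      have hc : ContinuousAt (fun z => wd (ψ (γ (Lφ z))) η) x := by
        have : AnalyticAt ℂ (fun z => ψ (γ (Lφ z))) x := by
          have hψ' : AnalyticAt ℂ ψ ((fun z => γ (Lφ z)) x) := by
            show AnalyticAt ℂ ψ (γ (Lφ x))
            rw [hδx]; exact hψ
          exact AnalyticAt.comp (g := ψ) (f := fun z => γ (Lφ z)) hψ' hδ
        exact (analyticAt_wd this analyticAt_const).continuousAt
      apply hc.eventually_ne
      show wd (ψ (γ (Lφ x))) η ≠ 0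
      rw [hδx]; exact hη
    have h2 : ∀ᶠ z in 𝓝 x, wd (φ z) η ≠ 0 :=
      (analyticAt_wd hφ analyticAt_const).continuousAt.eventually_ne hηφ
    filter_upwards [h1, h2, hLL] with z hz1 hz2 hz3
    simp only [hLψ, hLφ] at hz3
    rw [div_eq_div_iff hz1 hz2] at hz3
    have h5 := wd_identity (ψ (γ (Lφ z))) (φ z) (ψ z1) η
    simp only [hLφ] at h5
    rw [hz3, sub_self] at h5
    rcases mul_eq_zero.1 h5.symm with h | h
    · exact h
    · exact absurd h hη

end Pool.Agent.Helper17.Dyn
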