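import Mathlib
import Pool.Agent.Helper17.Dyn.Cls0

/-! Module C (classification) of MP_9c370f: the affine symmetries of the linearisation. -/

open Complex Metric Set Filter Topology InnerProductSpace

namespace Pool.Agent.Helper17.Dyn

open Pool.Agent.Helper65 Pool.Agent.Helper56.Harm

/-- an entire curve in `ℂ² ∖ 0`, not contained in a line -/
structure Curve (h : ℂ → C2) : Prop where
  diff : Differentiable ℂ h
  nz : ∀ z, h z ≠ 0
  nc : ∀ ξ : C2, ξ ≠ 0 → ∃ z, wd (h z) ξ ≠ 0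

lemma Curve.of_imm {h : ℂ → C2} (hd : Differentiable ℂ h) (hn : ∀ z, h z ≠ 0) {x : ℂ}
    (hx : wd (h x) (deriv h x) ≠ 0) : Curve h := by
  refine ⟨hd, hn, fun ξ hξ => ?_⟩
  by_contra hc
  push Not at hc
  apply hx
  obtain ⟨t, ht, e⟩ := (par_iff' (hn x) hξ).1 (hc x)
  have h1 := hasDerivAt_wd (hd x).hasDerivAt (hasDerivAt_const x ξ)
  have h2 : HasDerivAt (fun z => wd (h z) ξ) 0 x := by
    have : (fun z => wd (h z) ξ) = fun _ => (0 : ℂ) := funext hc
    rw [this]; exact hasDerivAt_const x 0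
  have h3 := h1.unique h2
  simp only [wd_zero_right, add_zero] at h3
  rw [e, wd_smul_left, wd_swap, h3]; simp

lemma Curve.exists_imm {h : ℂ → C2} (C : Curve h) : ∃ x, wd (h x) (deriv h x) ≠ 0 := by
  by_contra hc
  push Not at hc
  obtain ⟨η, hη⟩ := exists_wd_ne (C.nz 0)
  set ξ := h 0 with hξ
  have hcont : ∀ᶠ z in 𝓝 (0 : ℂ), wd (h z) η ≠ 0 :=
    (analyticAt_wd (C.diff.analyticAt 0) analyticAt_const).continuousAt.eventually_ne hη
  obtain ⟨r, hr, hball⟩ := Metric.eventually_nhds_iff_ball.mp hcont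
  have hder : ∀ z ∈ ball (0 : ℂ) r, HasDerivAt (fun z => wd (h z) ξ / wd (h z) η) 0 z := by
    intro z hz
    have h1 := hasDerivAt_wd (C.diff z).hasDerivAt (hasDerivAt_const z ξ)
    have h2 := hasDerivAt_wd (C.diff z).hasDerivAt (hasDerivAt_const z η)
    refine (h1.div h2 (hball z hz)).congr_deriv ?_
    simp only [wd_zero_right, add_zero]
    have h3 := wd_identity (deriv h z) (h z) ξ η
    have h4 : wd (deriv h z) (h z) = 0 := by rw [wd_swap, hc z, neg_zero]
    rw [h4, zero_mul] at h3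
    have : wd (deriv h z) ξ * wd (h z) η - wd (h z) ξ * wd (deriv h z) η = 0 := h3
    rw [this, zero_div]
  have hconst : ∀ z ∈ ball (0 : ℂ) r, wd (h z) ξ / wd (h z) η = wd (h 0) ξ / wd (h 0) η := by
    intro z hz
    exact isOpen_ball.is_const_of_deriv_eq_zero (convex_ball 0 r).isPreconnected
      (fun y hy => (hder y hy).differentiableAt.differentiableWithinAt)
      (fun y hy => (hder y hy).deriv) hz (mem_ball_self hr)
  have hz0 : ∀ᶠ z in 𝓝 (0 : ℂ), wd (h z) ξ = 0 := by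
    filter_upwards [ball_mem_nhds (0 : ℂ) hr] with z hz
    have h1 := hconst z hz
    rw [hξ, wd_self, zero_div, div_eq_zero_iff] at h1
    rcases h1 with h1 | h1
    · exact h1
    · exact absurd h1 (hball z hz)
  obtain ⟨z, hz⟩ := C.nc ξ (C.nz 0)
  exact hz (entire_eq_zero (differentiable_wd C.diff (differentiable_const ξ)) hz0 z)

lemma Curve.countable_par {h : ℂ → C2} (C : Curve h) {ξ : C2} (hξ : ξ ≠ 0) :
    {z | wd (h z) ξ = 0}.Countable :=
  countable_zeros (differentiable_wd C.diff (differentiable_const ξ)) (C.nc ξ hξ)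

lemma Curve.countable_crit {h : ℂ → C2} (C : Curve h) :
    {z | wd (h z) (deriv h z) = 0}.Countable :=
  countable_zeros (differentiable_wd C.diff C.diff.deriv) C.exists_imm

lemma Curve.lift {h : ℂ → C2} (C : Curve h) {b : ℕ} {B : C2 → C2} (hB : IsLift b B) :
    Curve (fun z => B (h z)) := by
  refine ⟨hB.diff.comp C.diff, fun z => hB.nz _ (C.nz z), fun ξ hξ => ?_⟩
  obtain ⟨κ, η, hκ, hη, hfac⟩ := hB.fac ξ hξ
  have hη0 : ∀ i, η i ≠ 0 := fun i h0 => by have := hη i; rw [h0, norm_zero] at this; norm_num at this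
  have hc : (⋃ i, {z | wd (h z) (η i) = 0}).Countable :=
    countable_iUnion fun i => C.countable_par (hη0 i)
  have huniv : ¬ (univ : Set ℂ).Countable := not_countable_complex
  have : ∃ z, z ∉ ⋃ i, {z | wd (h z) (η i) = 0} := by
    by_contra hcon
    push Not at hcon
    exact huniv (hc.mono fun z _ => hcon z)
  obtain ⟨z, hz⟩ := this
  simp only [mem_iUnion, mem_ofPred_eq, not_exists] at hz
  refine ⟨z, ?_⟩
  rw [hfac]
  exact mul_ne_zero hκ (Finset.prod_ne_zero_iff.mpr fun i _ => hz i)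

/-- generic points of a real line avoid the bad values -/
lemma exists_generic {φ ψ : ℂ → C2} (Cφ : Curve φ) (Cψ : Curve ψ) {v : ℂ} (hv : v ≠ 0)
    {E : Set ℂ} (hE : E.Countable) :
    ∃ s : ℝ, (s : ℂ) * v ∉ E ∧ wd (φ (s * v)) (deriv φ (s * v)) ≠ 0 ∧
      ∀ z1, wd (φ (s * v)) (ψ z1) = 0 → wd (ψ z1) (deriv ψ z1) ≠ 0 := by
  have hbad : (E ∪ {x | wd (φ x) (deriv φ x) = 0} ∪
      ⋃ z1 ∈ {z | wd (ψ z) (deriv ψ z) = 0}, {x | wd (φ x) (ψ z1) = 0}).Countable := by
    refine (hE.union Cφ.countable_crit).union ?_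
    exact Cψ.countable_crit.biUnion fun z1 _ => Cφ.countable_par (Cψ.nz z1)
  set bad := E ∪ {x | wd (φ x) (deriv φ x) = 0} ∪
      ⋃ z1 ∈ {z | wd (ψ z) (deriv ψ z) = 0}, {x | wd (φ x) (ψ z1) = 0} with hbad_def
  have hinj : Function.Injective (fun s : ℝ => (s : ℂ) * v) := by
    intro s t hst
    have := mul_right_cancel₀ hv hst
    exact_mod_cast this
  have hc := hbad.preimage hinj
  have : ∃ s : ℝ, (s : ℂ) * v ∉ bad := by
    by_contra hcon
    push Not at hcon
    exact (not_countable_univ (α := ℝ)) (hc.mono fun s _ => hcon s)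
  obtain ⟨s, hs⟩ := this
  simp only [hbad_def, mem_union, mem_ofPred_eq, mem_iUnion, not_or, not_exists] at hs
  refine ⟨s, hs.1.1, hs.1.2, fun z1 hz1 h0 => hs.2 z1 h0 hz1⟩

variable {G : C2 → ℝ} {F : C2 → C2} {w : ℕ} {h : ℂ → C2} {lam : ℂ}

lemma lin_curve (D : LinData G F w h lam) : Curve h := Curve.of_imm D.diff D.nz D.imm

lemma ginv_id (G : C2 → ℝ) : GInv G 1 (fun v => v) := ⟨0, fun v _ => by simp⟩

/-- Step 0 -/
lemma lin_symG (D : LinData G F w h lam) : SymG (fun z => G (h z)) lam (w : ℝ) := by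
  refine ⟨?_, D.nh, D.hl, ?_, ?_⟩
  · exact D.green.cont.comp_continuous D.diff.continuous fun z => by simpa using D.nz z
  · have := D.hw
    exact_mod_cast (by omega : 1 < w)
  · intro z _
    obtain ⟨k, hk⟩ := D.ginv
    have h1 : HarmonicAt (fun z => G (F (h z)) - G (h (lam * z))) z := by
      apply green_par D.green (x := z) (φ := fun z => F (h z)) (ψ := fun z => h (lam * z))
      · exact (D.lift.diff.comp D.diff).analyticAt z
      · exact (D.diff.comp (by fun_prop : Differentiable ℂ fun z => lam * z)).analyticAt z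
      · exact D.lift.nz _ (D.nz z)
      · exact D.nz _
      · exact Eventually.of_forall D.fe
    have h2 := harm_sub (harmonicAt_const (x := z) k) h1
    refine harm_congr h2 (Eventually.of_forall fun x => ?_)
    simp only [hk _ (D.nz x)]
    ring

/-- `[h (a z + b)] = [B (h z)]` for all `z`. -/
def Rel (h : ℂ → C2) (B : C2 → C2) (a b : ℂ) : Prop :=
  a ≠ 0 ∧ ∀ z, wd (h (a * z + b)) (B (h z)) = 0

/-- affine symmetries -/
def Gam (h : ℂ → C2) (a b : ℂ) : Prop := Rel h (fun v => v) a b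

lemma rel_of_eventually (C : Curve h) {b : ℕ} {B : C2 → C2} (hB : IsLift b B) {δ : ℂ → ℂ}
    {x a c : ℂ} (ha : a ≠ 0) (h1 : ∀ᶠ z in 𝓝 x, wd (h (δ z)) (B (h z)) = 0)
    (h2 : ∀ᶠ z in 𝓝 x, δ z = a * z + c) : Rel h B a c := by
  refine ⟨ha, ?_⟩
  apply entire_eq_zero (x := x)
  · exact differentiable_wd (C.diff.comp (by fun_prop : Differentiable ℂ fun z => a * z + c))
      (hB.diff.comp C.diff)
  · filter_upwards [h1, h2] with z hz1 hz2
    rw [hz2] at hz1; exact hz1

/-- the extension lemma -/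
lemma extend (D : LinData G F w h lam) {v : ℂ} (hv : v ≠ 0)
    (hvT : ∀ s : ℝ, (s : ℂ) * v ∈ Tr (fun z => G (h z))) {b : ℕ} (hb : 1 ≤ b) {B : C2 → C2}
    (hB : IsLift b B) (hGB : GInv G b B) {x z1 : ℂ} (hx : ∃ s : ℝ, x = s * v)
    (h1 : wd (B (h x)) (deriv (fun z => B (h z)) x) ≠ 0) (h2 : wd (h z1) (deriv h z1) ≠ 0)
    (hpar : wd (B (h x)) (h z1) = 0) :
    ∃ α β, Rel h B α β ∧ α * x + β = z1 := by
  have C := lin_curve D
  have CB := C.lift hB
  obtain ⟨δ, hδ, hδx, hδ', hδp⟩ := exists_delta (φ := fun z => B (h z)) (ψ := h) (x := x) (z1 := z1)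
    (CB.diff.analyticAt x) (C.diff.analyticAt z1) (CB.nz x) (C.nz z1) hpar h1 h2
  obtain ⟨k, hk⟩ := hGB
  have hharm : HarmonicAt (fun z => G (h (δ z)) - (b : ℝ) * G (h z)) x := by
    have a1 : HarmonicAt (fun z => G (h (δ z)) - G (B (h z))) x := by
      apply green_par D.green (x := x) (φ := fun z => h (δ z)) (ψ := fun z => B (h z))
      · exact AnalyticAt.comp (g := h) (f := δ) (C.diff.analyticAt (δ x)) hδ
      · exact CB.diff.analyticAt x
      · exact C.nz _
      · exact CB.nz _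
      · exact hδp
    have a2 := harm_add a1 (harmonicAt_const (x := x) k)
    refine harm_congr a2 (Eventually.of_forall fun z => ?_)
    simp only [hk _ (C.nz z)]
    ring
  have hb0 : (b : ℝ) ≠ 0 := by exact_mod_cast (by omega : b ≠ 0)
  obtain ⟨α, β, haff⟩ := affine_of_symm (lin_symG D) hv hvT hx hδ hδ' hb0 hharm
  have hα : α ≠ 0 := by
    intro h0
    apply hδ'
    have h3 : HasDerivAt δ 0 x := by
      have : HasDerivAt (fun z => α * z + β) 0 x := by
        rw [h0]; simpa using hasDerivAt_const x β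
      exact this.congr_of_eventuallyEq haff
    exact h3.deriv
  refine ⟨α, β, rel_of_eventually C hB hα hδp haff, ?_⟩
  rw [← haff.self_of_nhds, hδx]

lemma not_harm_on_line (D : LinData G F w h lam) {v : ℂ}
    (hvT : ∀ s : ℝ, (s : ℂ) * v ∈ Tr (fun z => G (h z))) (s : ℝ) :
    ¬ HarmonicAt (fun z => G (h z)) (s * v) := not_harm_translate (hvT s) D.nh

/-- existence of the affine lift of `B` -/
lemma exists_rel (D : LinData G F w h lam) {v : ℂ} (hv : v ≠ 0)
    (hvT : ∀ s : ℝ, (s : ℂ) * v ∈ Tr (fun z => G (h z))) {b : ℕ} (hb : 1 ≤ b) {B : C2 → C2}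
    (hB : IsLift b B) (hGB : GInv G b B) : ∃ α β, Rel h B α β := by
  have C := lin_curve D
  obtain ⟨s, -, hs1, hs2⟩ := exists_generic (C.lift hB) C hv countable_empty
  have hnh : ¬ HarmonicOnNhd (fun z => G (h z)) (ball 0 1) := fun hh =>
    D.nh (hh 0 (mem_ball_self one_pos))
  obtain ⟨n0, hn0⟩ := D.mix 0 1 one_pos hnh (B (h (s * v)))
    (Or.inr ⟨b, B, s * v, hb, hB, hGB, not_harm_on_line D hvT s, rfl⟩)
  obtain ⟨z, -, hz⟩ := hn0 n0 le_rfl
  have hz' := wd_eq_zero_comm.1 hz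
  obtain ⟨α, β, hrel, -⟩ := extend D hv hvT hb hB hGB ⟨s, rfl⟩ hs1 (hs2 _ hz') hz'
  exact ⟨α, β, hrel⟩

/-- the return map gives an affine symmetry moving 0 -/
lemma exists_ret (D : LinData G F w h lam) {v : ℂ} (hv : v ≠ 0)
    (hvT : ∀ s : ℝ, (s : ℂ) * v ∈ Tr (fun z => G (h z))) : ∃ a b, Gam h a b ∧ b ≠ 0 := by
  have C := lin_curve D
  obtain ⟨δ, hδ, hδ0, hδ', hδp⟩ := D.ret
  have hharm : HarmonicAt (fun z => G (h (δ z)) - (1 : ℝ) * G (h z)) 0 := by
    have a1 : HarmonicAt (fun z => G (h (δ z)) - G (h z)) 0 := by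
      apply green_par D.green (x := 0) (φ := fun z => h (δ z)) (ψ := fun z => h z)
      · exact AnalyticAt.comp (g := h) (f := δ) (C.diff.analyticAt (δ 0)) hδ
      · exact C.diff.analyticAt 0
      · exact C.nz _
      · exact C.nz _
      · exact hδp
    simpa using a1
  obtain ⟨α, β, haff⟩ := affine_of_symm (lin_symG D) hv hvT ⟨0, by simp⟩ hδ hδ' one_ne_zero hharm
  have hα : α ≠ 0 := by
    intro h0
    apply hδ'
    have h3 : HasDerivAt δ 0 0 := by
      have : HasDerivAt (fun z => α * z + β) 0 0 := by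
        rw [h0]; simpa using hasDerivAt_const 0 β
      exact this.congr_of_eventuallyEq haff
    exact h3.deriv
  refine ⟨α, β, rel_of_eventually C isLift_id hα hδp haff, ?_⟩
  have := haff.self_of_nhds
  simp only [mul_zero, zero_add] at this
  rw [← this]; exact hδ0

/-! ### the group of affine symmetries -/

lemma Gam.comp (C : Curve h) {a1 b1 a2 b2 : ℂ} (h1 : Gam h a1 b1) (h2 : Gam h a2 b2) :
    Gam h (a1 * a2) (a1 * b2 + b1) := by
  refine ⟨mul_ne_zero h1.1 h2.1, fun z => ?_⟩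
  have e1 := h1.2 (a2 * z + b2)
  have e2 := h2.2 z
  have e3 := par_trans (C.nz _) e1 e2
  have : a1 * a2 * z + (a1 * b2 + b1) = a1 * (a2 * z + b2) + b1 := by ring
  rw [this]; exact e3

lemma Gam.inv {a b : ℂ} (h1 : Gam h a b) : Gam h a⁻¹ (-(a⁻¹ * b)) := by
  refine ⟨inv_ne_zero h1.1, fun z => ?_⟩
  have e1 := h1.2 (a⁻¹ * z + -(a⁻¹ * b))
  have ha := h1.1
  have : a * (a⁻¹ * z + -(a⁻¹ * b)) + b = z := by field_simp; ring
  rw [this] at e1
  exact wd_eq_zero_comm.1 e1

lemma gam_one (h : ℂ → C2) : Gam h 1 0 := ⟨one_ne_zero, fun z => by simp [wd_self]⟩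

lemma lift_par {b : ℕ} {B : C2 → C2} (hB : IsLift b B) {u v : C2} (hv : v ≠ 0)
    (huv : wd u v = 0) : wd (B u) (B v) = 0 := by
  obtain ⟨t, rfl⟩ := (par_iff hv).1 huv
  rw [hB.hom, wd_smul_left, wd_self, mul_zero]

lemma Gam.scale (D : LinData G F w h lam) {a b : ℂ} (h1 : Gam h a b) : Gam h a (lam * b) := by
  have hl : lam ≠ 0 := by
    intro h0; have := D.hl; rw [h0, norm_zero] at this; linarith
  refine ⟨h1.1, fun z => ?_⟩
  have e0 := h1.2 (lam⁻¹ * z)
  have e1 := lift_par D.lift (D.nz _) e0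
  have e2 := D.fe (a * (lam⁻¹ * z) + b)
  have e3 := D.fe (lam⁻¹ * z)
  have e4 : lam * (lam⁻¹ * z) = z := by field_simp
  have e5 : lam * (a * (lam⁻¹ * z) + b) = a * z + lam * b := by field_simp
  rw [e4] at e3
  rw [e5] at e2
  have e6 := par_trans (D.lift.nz _ (D.nz _)) (wd_eq_zero_comm.1 e2) e1
  exact par_trans (D.lift.nz _ (D.nz _)) e6 e3

lemma Gam.norm_le (C : Curve h) {a b : ℂ} (h1 : Gam h a b) : 1 ≤ ‖a‖ := by
  by_contra hlt
  push Not at hlt
  have ha1 : (1 : ℂ) - a ≠ 0 := by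
    intro h0
    have : a = 1 := by linear_combination -h0
    rw [this, norm_one] at hlt; exact lt_irrefl _ hlt
  -- the fixed point
  set p := b / (1 - a) with hp
  have hfix : a * p + b = p := by rw [hp]; field_simp; ring
  -- iterates
  have hit : ∀ (n : ℕ) (z : ℂ), wd (h (p + a ^ n * (z - p))) (h z) = 0 := by
    intro n
    induction n with
    | zero => intro z; simp [wd_self]
    | succ n ih =>
      intro z
      have e1 := h1.2 (p + a ^ n * (z - p))
      have e2 : a * (p + a ^ n * (z - p)) + b = p + a ^ (n + 1) * (z - p) := by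
        rw [pow_succ]; linear_combination hfix
      rw [e2] at e1
      exact par_trans (C.nz _) e1 (ih z)
  obtain ⟨z, hz⟩ := C.nc (h p) (C.nz p)
  apply hz
  have hlim : Tendsto (fun n : ℕ => wd (h (p + a ^ n * (z - p))) (h z)) atTop (𝓝 (wd (h p) (h z))) := by
    have h1 : Tendsto (fun n : ℕ => a ^ n) atTop (𝓝 0) := tendsto_pow_atTop_nhds_zero_of_norm_lt_one hlt
    have h2 : Tendsto (fun n : ℕ => p + a ^ n * (z - p)) atTop (𝓝 p) := by
      have := (h1.mul_const (z - p)).const_add p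
      simpa using this
    have h3 : Tendsto (fun n : ℕ => h (p + a ^ n * (z - p))) atTop (𝓝 (h p)) :=
      (C.diff.continuous.tendsto p).comp h2
    have h4 : Continuous fun u : C2 => wd u (h z) := by unfold wd; fun_prop
    exact (h4.tendsto (h p)).comp h3
  have hlim0 : Tendsto (fun n : ℕ => wd (h (p + a ^ n * (z - p))) (h z)) atTop (𝓝 0) := by
    have : (fun n : ℕ => wd (h (p + a ^ n * (z - p))) (h z)) = fun _ => (0 : ℂ) :=
      funext fun n => hit n z
    rw [this]; exact tendsto_const_nhds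
  exact wd_eq_zero_comm.1 (tendsto_nhds_unique hlim hlim0)

lemma Gam.norm_eq (C : Curve h) {a b : ℂ} (h1 : Gam h a b) : ‖a‖ = 1 := by
  apply le_antisymm _ (h1.norm_le C)
  have := h1.inv.norm_le C
  rw [norm_inv] at this
  have h0 : 0 < ‖a‖ := norm_pos_iff.mpr h1.1
  exact (one_le_inv₀ h0).1 this

/-- the translation subgroup -/
def Tg (h : ℂ → C2) (C : Curve h) : AddSubgroup ℂ where
  carrier := {b | Gam h 1 b}
  zero_mem' := gam_one h
  add_mem' := by
    intro a b ha hb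
    have := Gam.comp C ha hb
    simpa [add_comm] using this
  neg_mem' := by
    intro a ha
    have := Gam.inv ha
    simpa using this

lemma mem_Tg {C : Curve h} {b : ℂ} : b ∈ Tg h C ↔ Gam h 1 b := Iff.rfl

lemma Rel.mul_mem {C : Curve h} {b : ℕ} {B : C2 → C2} (hB : IsLift b B) {α β : ℂ}
    (hr : Rel h B α β) {ω : ℂ} (hω : ω ∈ Tg h C) : α * ω ∈ Tg h C := by
  refine ⟨one_ne_zero, fun z => ?_⟩
  have hα := hr.1
  have e1 := hr.2 (α⁻¹ * (z - β) + ω)
  have e2 := hr.2 (α⁻¹ * (z - β))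
  have e3 := (mem_Tg.1 hω).2 (α⁻¹ * (z - β))
  have e4 := lift_par hB (C.nz _) e3
  rw [one_mul] at e4
  have e5 : α * (α⁻¹ * (z - β) + ω) + β = 1 * z + α * ω := by field_simp; ring
  have e6 : α * (α⁻¹ * (z - β)) + β = z := by field_simp; ring
  rw [e5] at e1
  rw [e6] at e2
  have e7 := par_trans (hB.nz _ (C.nz _)) e1 e4
  exact par_trans (hB.nz _ (C.nz _)) e7 (wd_eq_zero_comm.1 e2)

/-- small translations are trivial -/
lemma Tg_discrete (C : Curve h) : ∃ ε > 0, ∀ b ∈ Tg h C, ‖b‖ < ε → b = 0 := by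
  by_contra hcon
  push Not at hcon
  obtain ⟨x, hx⟩ := C.exists_imm
  apply hx
  choose b hb1 hb2 hb3 using fun n : ℕ => hcon (1 / ((n : ℝ) + 1)) (by positivity)
  have hlim : Tendsto b atTop (𝓝[≠] 0) := by
    rw [tendsto_nhdsWithin_iff]
    refine ⟨?_, Eventually.of_forall hb3⟩
    rw [tendsto_zero_iff_norm_tendsto_zero]
    exact squeeze_zero (fun n => norm_nonneg _) (fun n => (hb2 n).le)
      tendsto_one_div_add_atTop_nhds_zero_nat
  have hd := (C.diff x).hasDerivAt
  rw [hasDerivAt_iff_tendsto_slope_zero] at hd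
  have h1 := hd.comp hlim
  have h2 : Continuous fun u : C2 => wd (h x) u := by unfold wd; fun_prop
  have h3 := (h2.tendsto (deriv h x)).comp h1
  have h4 : ((fun u : C2 => wd (h x) u) ∘ (fun t => t⁻¹ • (h (x + t) - h x)) ∘ b) = fun _ => (0:ℂ) := by
    funext n
    simp only [Function.comp_apply]
    rw [wd_smul_right, wd_sub_right, wd_self, sub_zero]
    have e := (mem_Tg.1 (hb1 n)).2 x
    rw [one_mul] at e
    rw [wd_eq_zero_comm.1 e, mul_zero]
  rw [h4] at h3
  exact tendsto_nhds_unique h3 tendsto_const_nhds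

end Pool.Agent.Helper17.Dyn
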