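import Mathlib
import Pool.Agent.Helper17.Dyn.Cls1

/-! Module C (classification) of MP_9c370f: the Lattès case and the strip case. -/

open Complex Metric Set Filter Topology InnerProductSpace

namespace Pool.Agent.Helper17.Dyn

open Pool.Agent.Helper65 Pool.Agent.Helper56.Harm

variable {G : C2 → ℝ} {F : C2 → C2} {w : ℕ} {h : ℂ → C2} {lam : ℂ}

lemma Tg_discreteTopology (C : Curve h) : DiscreteTopology (Tg h C) := by
  obtain ⟨ε, hε, hb⟩ := Tg_discrete C
  apply discreteTopology_of_isOpen_singleton_zero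
  rw [Metric.isOpen_iff]
  rintro x hx
  rw [mem_singleton_iff] at hx
  subst hx
  refine ⟨ε, hε, fun y hy => ?_⟩
  rw [mem_ball, dist_zero_right] at hy
  have := hb y.1 y.2 hy
  exact mem_singleton_iff.mpr (Subtype.ext this)

lemma nhdsNE_of_codiscrete {P : ℂ → Prop} (hP : ∀ᶠ z in codiscrete ℂ, P z) (x : ℂ) :
    ∀ᶠ z in 𝓝[≠] x, P z := by
  have h1 := mem_codiscrete.1 hP x
  rw [disjoint_principal_right, compl_compl] at h1
  exact h1

lemma eval_eq (A : RatFunc ℂ) (x : ℂ) :
    RatFunc.eval (RingHom.id ℂ) x A = A.num.eval x / A.denom.eval x := by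
  rw [RatFunc.eval, Polynomial.eval₂_id, Polynomial.eval₂_id]

theorem lattes_of_span (D : LinData G F w h lam) {v : ℂ} (hv : v ≠ 0)
    (hvT : ∀ s : ℝ, (s : ℂ) * v ∈ Tr (fun z => G (h z)))
    (hspan : Submodule.span ℝ (Tg h (lin_curve D) : Set ℂ) = ⊤)
    {A : RatFunc ℂ} (hA : 2 ≤ deg A) (hGA : GInv G (deg A) (RLift A)) : IsLattes A := by
  have C := lin_curve D
  have hB := isLift_RLift (A := A) (by omega)
  obtain ⟨α, β, hr⟩ := exists_rel D hv hvT (by omega : 1 ≤ deg A) hB hGA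
  have hd1 : Differentiable ℂ (fun z => (h z).1) := fun z => (analyticAt_fst (C.diff.analyticAt z)).differentiableAt
  have hd2 : Differentiable ℂ (fun z => (h z).2) := fun z => (analyticAt_snd (C.diff.analyticAt z)).differentiableAt
  have hne2 : ∃ z, (h z).2 ≠ 0 := by
    obtain ⟨z, hz⟩ := C.nc (1, 0) (by simp)
    refine ⟨z, fun h0 => hz ?_⟩
    simp [wd, h0]
  have hcod : ∀ᶠ z in codiscrete ℂ, (h z).2 ≠ 0 := by
    obtain ⟨x, hx⟩ := hne2
    have h' : AnalyticOnNhd ℂ (fun z => (h z).2) univ := fun z _ => hd2.analyticAt z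
    have := h'.preimage_zero_mem_codiscrete hx
    filter_upwards [this] with z hz
    simpa using hz
  refine ⟨Tg h (lin_curve D), fun z => (h z).1 / (h z).2, α, β, Tg_discreteTopology _, hspan,
    fun ω hω => hr.mul_mem hB hω, ?_, ?_, ?_, ?_⟩
  · intro z _
    exact (hd1.analyticAt z).meromorphicAt.div (hd2.analyticAt z).meromorphicAt
  · rintro ⟨c, hc⟩
    have h1 : ∀ᶠ z in codiscrete ℂ, wd (h z) (c, 1) = 0 := by
      filter_upwards [hc, hcod] with z hz hz2
      simp only [wd, mul_one]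
      rw [← hz]; field_simp; ring
    -- identity theorem
    obtain ⟨z, hz⟩ := C.nc (c, 1) (pt_ne_zero c)
    have h2 : ∀ᶠ z in codiscrete ℂ, wd (h z) (c, 1) ≠ 0 := by
      have h' : AnalyticOnNhd ℂ (fun z => wd (h z) (c, 1)) univ := fun z _ =>
        (differentiable_wd C.diff (differentiable_const _)).analyticAt z
      have := h'.preimage_zero_mem_codiscrete hz
      filter_upwards [this] with z hz
      simpa using hz
    obtain ⟨z, hz1, hz2⟩ := (nhdsNE_of_codiscrete (h1.and h2) 0).exists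
    exact hz2 hz1
  · intro ω hω
    refine Eventually.of_forall fun z => ?_
    have h1 := (mem_Tg.1 hω).2 z
    rw [one_mul] at h1
    obtain ⟨t, ht, e⟩ := (par_iff' (C.nz _) (C.nz _)).1 h1
    simp only [e, Prod.smul_fst, Prod.smul_snd, smul_eq_mul]
    exact mul_div_mul_left _ _ ht
  · filter_upwards [hcod] with z hz
    rw [eval_eq]
    have h1 := hr.2 z
    rw [RLift_of_snd_ne hB hz, wd_smul_right, RLift_pt] at h1
    have h2 := (mul_eq_zero.1 h1).resolve_left (pow_ne_zero _ hz)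
    simp only [wd] at h2
    have hnz := C.nz (α * z + β)
    set x := (h z).1 / (h z).2
    set u := h (α * z + β)
    by_cases hden : A.denom.eval x = 0
    · rw [hden, div_zero]
      rw [hden, mul_zero, zero_sub, neg_eq_zero] at h2
      have hnum : A.num.eval x ≠ 0 := by
        have h3 := hB.nz (x, 1) (pt_ne_zero x)
        rw [RLift_pt, hden] at h3
        intro h0; apply h3; rw [h0]; rfl
      rw [(mul_eq_zero.1 h2).resolve_right hnum, div_zero]
    · have hu2 : u.2 ≠ 0 := by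
        intro h0
        rw [h0, zero_mul, sub_zero] at h2
        have h3 := (mul_eq_zero.1 h2).resolve_right hden
        exact hnz (Prod.ext h3 h0)
      field_simp
      linear_combination -h2

/-- a nontrivial translation -/
lemma exists_Tg_ne (D : LinData G F w h lam) {v : ℂ} (hv : v ≠ 0)
    (hvT : ∀ s : ℝ, (s : ℂ) * v ∈ Tr (fun z => G (h z))) : ∃ ω ∈ Tg h (lin_curve D), ω ≠ 0 := by
  have C := lin_curve D
  obtain ⟨a, b, hab, hb⟩ := exists_ret D hv hvT
  by_cases ha : a = 1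
  · subst ha
    exact ⟨b, hab, hb⟩
  · have h1 := hab.scale D
    have h2 := Gam.comp C hab h1
    have h3 := Gam.comp C h1 hab
    have h4 := Gam.comp C h2 h3.inv
    have ha0 := hab.1
    have e1 : a * a * (a * a)⁻¹ = 1 := by field_simp
    have e2 : a * a * -((a * a)⁻¹ * (a * b + lam * b)) + (a * (lam * b) + b) =
        (1 - a) * (1 - lam) * b := by field_simp; ring
    rw [e1, e2] at h4
    refine ⟨(1 - a) * (1 - lam) * b, h4, ?_⟩
    have hl : (1 : ℂ) - lam ≠ 0 := by
      intro h0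
      have : lam = 1 := by linear_combination -h0
      have h5 := D.hl
      rw [this, norm_one] at h5; exact lt_irrefl _ h5
    have ha' : (1 : ℂ) - a ≠ 0 := by
      intro h0; apply ha; linear_combination -h0
    exact mul_ne_zero (mul_ne_zero ha' hl) hb

lemma span_of_indep {T : Set ℂ} {ω t : ℂ} (hω : ω ∈ T) (ht : t ∈ T) (hω0 : ω ≠ 0)
    (h : (t / ω).im ≠ 0) : Submodule.span ℝ T = ⊤ := by
  rw [eq_top_iff]
  intro z _
  have e : z = ((z / ω).re - (z / ω).im * (t / ω).re / (t / ω).im) • ω +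
      ((z / ω).im / (t / ω).im) • t := by
    have h1 : z / ω = (((z / ω).re - (z / ω).im * (t / ω).re / (t / ω).im : ℝ) : ℂ) +
        (((z / ω).im / (t / ω).im : ℝ) : ℂ) * (t / ω) := by
      apply Complex.ext
      · simp only [add_re, ofReal_re, mul_re, ofReal_im, zero_mul, sub_zero]
        field_simp; ring
      · simp only [add_im, ofReal_im, mul_im, ofReal_re, zero_mul, add_zero, zero_add]
        field_simp
    rw [real_smul, real_smul]
    have h2 := (div_eq_iff hω0).1 h1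
    generalize (((z / ω).re - (z / ω).im * (t / ω).re / (t / ω).im : ℝ) : ℂ) = A at h2 ⊢
    generalize (((z / ω).im / (t / ω).im : ℝ) : ℂ) = B at h2 ⊢
    rw [h2]; field_simp
  rw [e]
  exact Submodule.add_mem _ (Submodule.smul_mem _ _ (Submodule.subset_span hω))
    (Submodule.smul_mem _ _ (Submodule.subset_span ht))

/-- generator of the translation group -/
lemma exists_gen (C : Curve h) (hne : ∃ ω ∈ Tg h C, ω ≠ 0)
    (hspan : Submodule.span ℝ (Tg h C : Set ℂ) ≠ ⊤) :
    ∃ ω : ℂ, ω ≠ 0 ∧ ∀ b, b ∈ Tg h C ↔ ∃ n : ℤ, b = n * ω := by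
  obtain ⟨ω0, hω0, hne0⟩ := hne
  have hreal : ∀ t ∈ Tg h C, ((t / ω0).im = 0) := by
    intro t ht
    by_contra h0
    exact hspan (span_of_indep hω0 ht hne0 h0)
  -- the real subgroup
  let S : AddSubgroup ℝ :=
    { carrier := {s : ℝ | (s : ℂ) * ω0 ∈ Tg h C}
      zero_mem' := by simp
      add_mem' := by
        intro a b ha hb
        have := (Tg h C).add_mem ha hb
        simp only [mem_ofPred_eq] at *
        push_cast
        rw [add_mul]; exact this
      neg_mem' := by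
        intro a ha
        have := (Tg h C).neg_mem ha
        simp only [mem_ofPred_eq] at *
        push_cast
        rw [neg_mul]; exact this }
  have hS : ∀ s : ℝ, s ∈ S ↔ (s : ℂ) * ω0 ∈ Tg h C := fun s => Iff.rfl
  obtain ⟨ε, hε, hdisc⟩ := Tg_discrete C
  have hω0n : 0 < ‖ω0‖ := norm_pos_iff.mpr hne0
  rcases AddSubgroup.dense_or_cyclic S with hd | ⟨a, ha⟩
  · exfalso
    have hpos : (0:ℝ) < ε / ‖ω0‖ := by positivity
    obtain ⟨s, hs, hsS⟩ := hd.exists_mem_open isOpen_Ioo (nonempty_Ioo.mpr hpos)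
    have h1 := (hS s).1 hs
    have h2 := hdisc _ h1 (by
      rw [norm_mul, norm_real, Real.norm_eq_abs, abs_of_pos hsS.1]
      exact (lt_div_iff₀ hω0n).1 hsS.2)
    have h3 := (mul_eq_zero.1 h2).resolve_right hne0
    have h4 : s = 0 := by exact_mod_cast h3
    exact hsS.1.ne' h4
  · have ha0 : a ≠ 0 := by
      rintro rfl
      have h1 : (1 : ℝ) ∈ S := (hS 1).2 (by simpa using hω0)
      rw [ha, AddSubgroup.mem_closure_singleton] at h1
      obtain ⟨n, hn⟩ := h1
      simp at hn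
    refine ⟨a * ω0, mul_ne_zero (by exact_mod_cast ha0) hne0, fun b => ⟨fun hb => ?_, ?_⟩⟩
    · have hb' : b = (((b / ω0).re : ℝ) : ℂ) * ω0 := by
        have h1 : b / ω0 = (((b / ω0).re : ℝ) : ℂ) := by
          apply Complex.ext
          · simp
          · simpa using hreal b hb
        rw [← h1]; field_simp
      have h2 : (b / ω0).re ∈ S := (hS _).2 (by rw [← hb']; exact hb)
      rw [ha, AddSubgroup.mem_closure_singleton] at h2
      obtain ⟨n, hn⟩ := h2
      refine ⟨n, ?_⟩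
      rw [hb', ← hn]
      simp only [zsmul_eq_mul]
      push_cast; ring
    · rintro ⟨n, rfl⟩
      have h1 : (n • a) ∈ S := by
        rw [ha]; exact AddSubgroup.mem_closure_singleton.2 ⟨n, rfl⟩
      have h2 := (hS _).1 h1
      simp only [zsmul_eq_mul] at h2
      push_cast at h2
      rw [← mul_assoc]; exact h2

/-- The data of the strip case. -/
structure StripData (G : C2 → ℝ) (h : ℂ → C2) : Prop where
  green : IsGreen G
  curve : Curve h
  tr : ∀ s : ℝ, (s : ℂ) ∈ Tr (fun z => G (h z))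
  nh : ¬ HarmonicAt (fun z => G (h z)) 0
  off : ∀ z : ℂ, z.im ≠ 0 → HarmonicAt (fun z => G (h z)) z
  per : ∀ b, Gam h 1 b ↔ ∃ n : ℤ, b = n
  pm : ∀ a b, Gam h a b → a = 1 ∨ a = -1
  gen : ∀ E : Set ℂ, E.Countable → ∃ s : ℝ, (s : ℂ) ∉ E ∧ ∀ z1, wd (h s) (h z1) = 0 →
    wd (h z1) (deriv h z1) ≠ 0 ∧ ∃ a b, Gam h a b ∧ a * s + b = z1

lemma rel_rescale {ω : ℂ} (hω : ω ≠ 0) {B : C2 → C2} {a b : ℂ} (hr : Rel h B a b) :
    Rel (fun z => h (ω * z)) B a (ω⁻¹ * b) := by
  refine ⟨hr.1, fun z => ?_⟩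
  have h1 := hr.2 (ω * z)
  have e : ω * (a * z + ω⁻¹ * b) = a * (ω * z) + b := by field_simp
  show wd (h (ω * (a * z + ω⁻¹ * b))) (B (h (ω * z))) = 0
  rw [e]; exact h1

lemma rel_rescale' {ω : ℂ} (hω : ω ≠ 0) {B : C2 → C2} {a b : ℂ}
    (hr : Rel (fun z => h (ω * z)) B a b) : Rel h B a (ω * b) := by
  refine ⟨hr.1, fun z => ?_⟩
  have h1 := hr.2 (ω⁻¹ * z)
  have e1 : ω * (a * (ω⁻¹ * z) + b) = a * z + ω * b := by field_simp
  have e2 : ω * (ω⁻¹ * z) = z := by field_simp
  simp only [e1, e2] at h1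
  exact h1

lemma harm_rescale {g : ℂ → ℝ} {ω : ℂ} (hω : ω ≠ 0) {z : ℂ} :
    HarmonicAt (fun z => g (ω * z)) z ↔ HarmonicAt g (ω * z) := by
  constructor
  · intro hh
    have h1 : HarmonicAt (fun x => (fun z => g (ω * z)) (ω⁻¹ * x)) (ω * z) := by
      apply harm_scale (u := fun z => g (ω * z))
      have : ω⁻¹ * (ω * z) = z := by field_simp
      rw [this]; exact hh
    refine harm_congr h1 (Eventually.of_forall fun x => ?_)
    have : ω * (ω⁻¹ * x) = x := by field_simp
    simp only [this]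
  · intro hh; exact harm_scale hh

theorem exists_strip_data (D : LinData G F w h lam) {v : ℂ} (hv : v ≠ 0)
    (hvT : ∀ s : ℝ, (s : ℂ) * v ∈ Tr (fun z => G (h z)))
    (hspan : Submodule.span ℝ (Tg h (lin_curve D) : Set ℂ) ≠ ⊤) :
    ∃ ω : ℂ, ω ≠ 0 ∧ StripData G (fun z => h (ω * z)) := by
  have C := lin_curve D
  have hl1 := D.hl
  obtain ⟨ω, hω, hgen⟩ := exists_gen (lin_curve D) (exists_Tg_ne D hv hvT) hspan
  have hωT : ω ∈ Tg h (lin_curve D) := (hgen ω).2 ⟨1, by simp⟩
  -- lam is an integer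
  obtain ⟨L, hL⟩ : ∃ L : ℤ, lam = L := by
    obtain ⟨n, hn⟩ := (hgen _).1 (Gam.scale D (mem_Tg.1 hωT) : lam * ω ∈ Tg h (lin_curve D))
    exact ⟨n, mul_right_cancel₀ hω hn⟩
  -- the linear parts are ± 1
  have hpm : ∀ a b, Gam h a b → a = 1 ∨ a = -1 := by
    intro a b hab
    obtain ⟨n, hn⟩ := (hgen _).1 (Rel.mul_mem isLift_id hab hωT)
    have han : a = n := mul_right_cancel₀ hω hn
    have h1 := hab.norm_eq C
    rw [han, Complex.norm_intCast] at h1
    have h2 : |(n : ℝ)| = 1 := h1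
    rcases (abs_eq (by norm_num : (0:ℝ) ≤ 1)).1 h2 with h3 | h3
    · left; rw [han]; exact_mod_cast h3
    · right; rw [han]; exact_mod_cast h3
  have hb : ∀ a b, Gam h a b → (b / ω).im = 0 := by
    intro a b hab
    rcases hpm a b hab with rfl | rfl
    · obtain ⟨n, hn⟩ := (hgen _).1 (mem_Tg.2 hab)
      rw [hn]
      have : (n : ℂ) * ω / ω = ((n : ℝ) : ℂ) := by field_simp; simp
      rw [this, ofReal_im]
    · have h1 := Gam.comp C hab (hab.scale D)
      have e1 : (-1 : ℂ) * -1 = 1 := by norm_num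
      rw [e1] at h1
      obtain ⟨n, hn⟩ := (hgen _).1 (mem_Tg.2 h1)
      have hL1 : (L : ℂ) ≠ 1 := by
        intro h0
        rw [hL, h0, norm_one] at hl1; exact lt_irrefl _ hl1
      have hL2 : (1 : ℂ) - L ≠ 0 := fun h0 => hL1 (by linear_combination -h0)
      have h2 : b / ω = ((n / (1 - L) : ℝ) : ℂ) := by
        push_cast
        rw [div_eq_div_iff hω hL2]
        rw [hL] at hn
        linear_combination hn
      rw [h2, ofReal_im]
  -- generic points of the line
  have hgenpt : ∀ E : Set ℂ, E.Countable → ∃ s : ℝ, (s : ℂ) * v ∉ E ∧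
      ∀ z1, wd (h (s * v)) (h z1) = 0 →
        wd (h z1) (deriv h z1) ≠ 0 ∧ ∃ a b, Gam h a b ∧ a * (s * v) + b = z1 := by
    intro E hE
    obtain ⟨s, hs0, hs1, hs2⟩ := exists_generic C C hv hE
    refine ⟨s, hs0, fun z1 hz1 => ⟨hs2 z1 hz1, ?_⟩⟩
    exact extend D hv hvT le_rfl isLift_id (ginv_id G) ⟨s, rfl⟩ hs1 (hs2 z1 hz1) hz1
  -- harmonic off the line
  have hoff : ∀ p : ℂ, (p / ω).im ≠ 0 → HarmonicAt (fun z => G (h z)) p := by
    intro p hp
    by_contra hnh
    obtain ⟨s, -, hs⟩ := hgenpt ∅ countable_empty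
    set d := |(p / ω).im| with hd
    have hd0 : 0 < d := abs_pos.mpr hp
    have hω0 : 0 < ‖ω‖ := norm_pos_iff.mpr hω
    have hr : 0 < d / 2 * ‖ω‖ := by positivity
    have hball : ∀ z ∈ ball p (d / 2 * ‖ω‖), d / 2 ≤ |(z / ω).im| := by
      intro z hz
      rw [mem_ball, dist_eq_norm] at hz
      have h1 : |((z - p) / ω).im| ≤ ‖(z - p) / ω‖ := abs_im_le_norm _
      have h2 : ‖(z - p) / ω‖ < d / 2 := by
        rw [norm_div, div_lt_iff₀ hω0]; exact hz
      have h3 : (p / ω).im = (z / ω).im - ((z - p) / ω).im := by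
        rw [sub_div, sub_im]; ring
      have h4 : d ≤ |(z / ω).im| + |((z - p) / ω).im| := by
        rw [hd, h3]; exact abs_sub _ _
      linarith
    obtain ⟨n0, hn0⟩ := D.mix p _ hr (fun hh => hnh (hh p (mem_ball_self hr))) (h (s * v))
      (Or.inl ⟨s * v, not_harm_on_line D hvT s, rfl⟩)
    -- choose n large
    obtain ⟨n, hn1, hn2⟩ : ∃ n, n0 ≤ n ∧ |(s * v / ω).im| < ‖lam‖ ^ n * (d / 2) := by
      have h1 := (tendsto_pow_atTop_atTop_of_one_lt hl1).atTop_mul_const
        (by positivity : 0 < d / 2)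
      obtain ⟨n, hn⟩ := ((h1.eventually_gt_atTop (|(s * v / ω).im|)).and
        (eventually_ge_atTop n0)).exists
      exact ⟨n, hn.2, hn.1⟩
    obtain ⟨z, hz, hpar⟩ := hn0 n hn1
    obtain ⟨-, a, b, hab, he⟩ := hs _ (wd_eq_zero_comm.1 hpar)
    have h1 : (lam ^ n * z / ω).im = (a * (s * v) / ω).im := by
      rw [← he, add_div, add_im, hb a b hab, add_zero]
    have h2 : |(a * (s * v) / ω).im| = |(s * v / ω).im| := by
      rcases hpm a b hab with rfl | rfl
      · rw [one_mul]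
      · have : -1 * (s * v) / ω = -(s * v / ω) := by ring
        rw [this, neg_im, abs_neg]
    have h3 : |(lam ^ n * z / ω).im| = ‖lam‖ ^ n * |(z / ω).im| := by
      have e1 : lam ^ n * z / ω = (((L : ℝ) ^ n : ℝ) : ℂ) * (z / ω) := by
        rw [hL]; push_cast; ring
      rw [e1, im_ofReal_mul, abs_mul, abs_pow, hL, Complex.norm_intCast]
    have h4 := hball z hz
    rw [h1, h2] at h3
    have h5 : 0 < ‖lam‖ ^ n := by positivity
    have h6 : ‖lam‖ ^ n * (d / 2) ≤ ‖lam‖ ^ n * |(z / ω).im| := by gcongr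
    rw [← h3] at h6
    exact absurd h6 (not_le.mpr hn2)
  -- v is parallel to ω
  have hvω : (v / ω).im = 0 := by
    by_contra h0
    have h1 := not_harm_on_line D hvT 1
    rw [ofReal_one, one_mul] at h1
    exact h1 (hoff v h0)
  obtain ⟨r, hr⟩ : ∃ r : ℝ, v = r * ω := by
    refine ⟨(v / ω).re, ?_⟩
    have h1 : v / ω = (((v / ω).re : ℝ) : ℂ) := by
      apply Complex.ext
      · simp
      · simpa using hvω
    rw [← h1]; field_simp
  have hr0 : r ≠ 0 := by
    rintro rfl
    apply hv; rw [hr]; simp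
  have hr0' : (r : ℂ) ≠ 0 := by exact_mod_cast hr0
  refine ⟨ω, hω, D.green, ?_, ?_, ?_, ?_, ?_, ?_, ?_⟩
  · refine ⟨C.diff.comp (by fun_prop : Differentiable ℂ fun z => ω * z), fun z => C.nz _,
      fun ξ hξ => ?_⟩
    obtain ⟨z, hz⟩ := C.nc ξ hξ
    refine ⟨ω⁻¹ * z, ?_⟩
    have : ω * (ω⁻¹ * z) = z := by field_simp
    simp only [this]; exact hz
  · intro s z _
    have h1 := hvT (s / r) (ω * z) (mem_univ _)
    have e : ((s / r : ℝ) : ℂ) * v = ω * s := by
      rw [hr]; push_cast; field_simp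
    rw [e] at h1
    have h2 := harm_scale h1
    refine harm_congr h2 (Eventually.of_forall fun x => ?_)
    simp only [mul_add]
  · rw [harm_rescale (g := fun z => G (h z)) hω, mul_zero]
    exact D.nh
  · intro z hz
    rw [harm_rescale (g := fun z => G (h z)) hω]
    apply hoff
    have : ω * z / ω = z := by field_simp
    rw [this]; exact hz
  · intro b
    constructor
    · intro hb1
      obtain ⟨n, hn⟩ := (hgen _).1 (mem_Tg.2 (rel_rescale' hω hb1))
      refine ⟨n, ?_⟩
      rw [mul_comm] at hn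
      exact mul_right_cancel₀ hω hn
    · rintro ⟨n, rfl⟩
      have h1 := mem_Tg.1 ((hgen _).2 ⟨n, rfl⟩)
      have h2 := rel_rescale hω h1
      have e : ω⁻¹ * (n * ω) = (n : ℂ) := by field_simp
      rw [e] at h2
      exact h2
  · intro a b hab
    exact hpm a _ (rel_rescale' hω hab)
  · intro E hE
    have hEc : ((fun x => ω⁻¹ * x) ⁻¹' E).Countable := by
      apply hE.preimage
      intro x y hxy
      exact mul_left_cancel₀ (inv_ne_zero hω) hxy
    obtain ⟨s, hs0, hs⟩ := hgenpt _ hEc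
    have e1 : ω * (((s * r : ℝ)) : ℂ) = s * v := by rw [hr]; push_cast; ring
    refine ⟨s * r, ?_, ?_⟩
    · intro hmem
      apply hs0
      show ω⁻¹ * (s * v) ∈ E
      rw [← e1]
      have : ω⁻¹ * (ω * (((s * r : ℝ)) : ℂ)) = ((s * r : ℝ) : ℂ) := by field_simp
      rw [this]; exact hmem
    · intro z1 hz1
      simp only [e1] at hz1
      obtain ⟨h1, a, b, hab, he⟩ := hs _ hz1
      constructor
      · have hd : deriv (fun z => h (ω * z)) z1 = ω • deriv h (ω * z1) := by
          have h2 := (C.diff (ω * z1)).hasDerivAt.scomp z1 ((hasDerivAt_id z1).const_mul ω)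
          simp only [mul_one] at h2
          exact h2.deriv
        rw [hd]
        show wd (h (ω * z1)) (ω • deriv h (ω * z1)) ≠ 0
        rw [wd_smul_right]
        exact mul_ne_zero hω h1
      · refine ⟨a, ω⁻¹ * b, rel_rescale hω hab, ?_⟩
        have h3 : ω * (a * ((s * r : ℝ) : ℂ) + ω⁻¹ * b) = ω * z1 := by
          rw [← he, ← e1]; field_simp
        exact mul_left_cancel₀ hω h3

end Pool.Agent.Helper17.Dyn
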