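import Mathlib
import Pool.Agent.Helper17.Dyn.Cls2
import Pool.Agent.Helper56.Harm.Strip

/-! Module C (classification) of MP_9c370f: analytic lemmas for the strip case. -/

open Complex Metric Set Filter Topology InnerProductSpace

namespace Pool.Agent.Helper17.Dyn

open Pool.Agent.Helper65 Pool.Agent.Helper56.Harm

/-- entire functions of polynomial growth are polynomials -/
lemma entire_poly {f : ℂ → ℂ} (hf : Differentiable ℂ f) {C : ℝ} {N : ℕ}
    (hb : ∀ q : ℂ, 1 ≤ ‖q‖ → ‖f q‖ ≤ C * ‖q‖ ^ N) : ∃ P : Polynomial ℂ, ∀ q, f q = P.eval q := by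
  have hz : ∀ n, N < n → iteratedDeriv n f 0 = 0 := by
    intro n hn
    have h1 : ∀ R : ℝ, 1 ≤ R → ‖iteratedDeriv n f 0‖ ≤ (n.factorial * |C|) * (1 / R) := by
      intro R hR
      have hR0 : 0 < R := by linarith
      have h2 := norm_iteratedDeriv_le_of_forall_mem_sphere_norm_le (f := f) (c := 0)
        (C := |C| * R ^ N) n hR0 hf.diffContOnCl (by
          intro z hz
          have hzn : ‖z‖ = R := by simpa using hz
          have := hb z (by rw [hzn]; exact hR)
          rw [hzn] at this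
          exact this.trans (mul_le_mul_of_nonneg_right (le_abs_self C) (by positivity)))
      refine h2.trans ?_
      have h3 : R ^ N / R ^ n ≤ 1 / R := by
        rw [div_le_div_iff₀ (by positivity) hR0, one_mul, ← pow_succ]
        exact pow_le_pow_right₀ hR (by omega)
      calc (n.factorial : ℝ) * (|C| * R ^ N) / R ^ n = (n.factorial * |C|) * (R ^ N / R ^ n) := by ring
        _ ≤ _ := by gcongr
    have h2 : Tendsto (fun R : ℝ => ((n.factorial : ℝ) * |C|) * (1 / R)) atTop (𝓝 0) := by
      have := (tendsto_inv_atTop_zero (𝕜 := ℝ)).const_mul ((n.factorial : ℝ) * |C|)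
      simpa using this
    have h3 : ‖iteratedDeriv n f 0‖ ≤ 0 :=
      ge_of_tendsto h2 ((eventually_ge_atTop 1).mono fun R hR => h1 R hR)
    exact norm_le_zero_iff.1 h3
  refine ⟨∑ n ∈ Finset.range (N + 1), Polynomial.C ((n.factorial : ℂ)⁻¹ * iteratedDeriv n f 0) *
    Polynomial.X ^ n, fun q => ?_⟩
  rw [← taylorSeries_eq_of_entire' 0 q hf, tsum_eq_sum (s := Finset.range (N + 1))]
  · rw [Polynomial.eval_finsetSum]
    apply Finset.sum_congr rfl
    intro n _
    simp
  · intro n hn
    rw [hz n (by simpa using hn)]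
    simp

/-- 1-periodic entire functions of exponential growth -/
lemma periodic_poly {f : ℂ → ℂ} (hf : Differentiable ℂ f) (hp : ∀ z, f (z + 1) = f z) {C K : ℝ}
    (hb : ∀ z, ‖f z‖ ≤ C * Real.exp (K * |z.im|)) {m : ℕ} (hm : K ≤ 2 * Real.pi * m) :
    ∃ P : Polynomial ℂ, ∀ z, exp (2 * Real.pi * I * z) ^ m * f z =
      P.eval (exp (2 * Real.pi * I * z)) := by
  have hC : 0 ≤ C := by
    have := (norm_nonneg _).trans (hb 0)
    simpa using this
  set f1 : ℂ → ℂ := fun z => exp (2 * Real.pi * I * z) ^ m * f z with hf1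
  have hd1 : Differentiable ℂ f1 := by
    have : Differentiable ℂ fun z : ℂ => exp (2 * Real.pi * I * z) ^ m := by fun_prop
    exact this.mul hf
  have hp1 : Function.Periodic f1 ((1 : ℝ) : ℂ) := by
    intro z
    simp only [hf1, ofReal_one]
    rw [hp, mul_add, mul_one, exp_add, exp_two_pi_mul_I, mul_one]
  have hnorm : ∀ z : ℂ, ‖exp (2 * Real.pi * I * z)‖ = Real.exp (-(2 * Real.pi * z.im)) := by
    intro z
    rw [norm_exp]
    congr 1
    simp
  have hb1 : ∀ z, ‖f1 z‖ ≤ C * Real.exp (2 * Real.pi * m * |z.im| - 2 * Real.pi * m * z.im) := by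
    intro z
    simp only [hf1, norm_mul, norm_pow, hnorm]
    calc Real.exp (-(2 * Real.pi * z.im)) ^ m * ‖f z‖
        ≤ Real.exp (-(2 * Real.pi * z.im)) ^ m * (C * Real.exp (2 * Real.pi * m * |z.im|)) := by
          gcongr
          exact (hb z).trans (by gcongr)
      _ = _ := by
          rw [← Real.exp_nat_mul, mul_left_comm, ← Real.exp_add]
          congr 2; ring
  have hq : ∀ z : ℂ, Function.Periodic.qParam 1 z = exp (2 * Real.pi * I * z) := by
    intro z; simp [Function.Periodic.qParam]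
  set P0 := Function.Periodic.cuspFunction 1 f1 with hP0
  have heq : ∀ z, P0 (exp (2 * Real.pi * I * z)) = f1 z := by
    intro z
    rw [← hq]
    exact Function.Periodic.eq_cuspFunction one_ne_zero hp1 z
  have hsurj : ∀ q : ℂ, q ≠ 0 → ∃ z, exp (2 * Real.pi * I * z) = q := by
    intro q hq0
    refine ⟨Complex.log q / (2 * Real.pi * I), ?_⟩
    have : (2 * (Real.pi : ℂ) * I) ≠ 0 := two_pi_I_ne_zero
    rw [mul_div_cancel₀ _ this, exp_log hq0]
  have hdiff : Differentiable ℂ P0 := by
    intro q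
    by_cases hq0 : q = 0
    · rw [hq0]
      apply Function.Periodic.differentiableAt_cuspFunction_zero one_pos hp1
        (Eventually.of_forall fun z => hd1 z)
      apply Asymptotics.IsBigO.of_bound C
      have : ∀ᶠ z : ℂ in comap im atTop, 0 ≤ z.im :=
        tendsto_comap.eventually (eventually_ge_atTop (0:ℝ))
      filter_upwards [this] with z hz
      have h1 := hb1 z
      rw [abs_of_nonneg hz, sub_self, Real.exp_zero] at h1
      simpa using h1
    · obtain ⟨z, rfl⟩ := hsurj q hq0
      rw [← hq]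
      exact Function.Periodic.differentiableAt_cuspFunction one_ne_zero hp1 (hd1 z)
  obtain ⟨P, hP⟩ := entire_poly (f := P0) hdiff (C := C) (N := 2 * m) (by
    intro q hq1
    have hq0 : q ≠ 0 := by rintro rfl; rw [norm_zero] at hq1; linarith
    obtain ⟨z, rfl⟩ := hsurj q hq0
    rw [heq]
    rw [hnorm] at hq1 ⊢
    have hz : z.im ≤ 0 := by
      have := Real.one_le_exp_iff.1 hq1
      have h2 : 0 < 2 * Real.pi := by positivity
      nlinarith
    refine (hb1 z).trans (le_of_eq ?_)
    rw [abs_of_nonpos hz, ← Real.exp_nat_mul]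
    congr 2
    push_cast; ring)
  exact ⟨P, fun z => by rw [← hP, heq]⟩

/-- If `k (Im z)` is harmonic on a disc then `k` is affine on its shadow. -/
lemma affine_of_harm {k : ℝ → ℝ} {y0 r : ℝ} (hr : 0 < r)
    (hh : HarmonicOnNhd (fun z : ℂ => k z.im) (ball (y0 * I) r)) :
    ∃ p q : ℝ, ∀ y, |y - y0| < r → k y = p * y + q := by
  obtain ⟨F, hF, hFre⟩ := hh.exists_analyticOnNhd_ball_re_eq
  have hopen : IsOpen (ball ((y0 : ℂ) * I) r) := isOpen_ball
  -- Re F' = 0
  have h1 : ∀ z ∈ ball ((y0 : ℂ) * I) r, (deriv F z).re = 0 := by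
    intro z hz
    have hd := (hF z hz).differentiableAt.hasDerivAt
    have h2 : HasDerivAt (fun t : ℝ => F (z + t)) (deriv F z) 0 := by
      have h3 : HasDerivAt (fun t : ℂ => F (z + t)) (deriv F z) ((0 : ℝ) : ℂ) := by
        have : HasDerivAt F (deriv F z) (z + ((0 : ℝ) : ℂ)) := by simpa using hd
        exact HasDerivAt.comp_const_add _ _ this
      exact h3.comp_ofReal
    have h3 : HasDerivAt (fun t : ℝ => (F (z + t)).re) (deriv F z).re 0 :=
      (reCLM.hasFDerivAt.comp_hasDerivAt (0 : ℝ) h2)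
    have h4 : (fun t : ℝ => (F (z + t)).re) =ᶠ[𝓝 0] fun _ => k z.im := by
      have h5 : ∀ᶠ t : ℝ in 𝓝 0, z + t ∈ ball ((y0 : ℂ) * I) r := by
        have hc : ContinuousAt (fun t : ℝ => z + (t : ℂ)) 0 := by fun_prop
        exact hc.eventually (hopen.mem_nhds (by simpa using hz))
      filter_upwards [h5] with t ht
      have := hFre ht
      simp only at this
      rw [this]; simp
    exact (h3.congr_of_eventuallyEq h4.symm).unique (hasDerivAt_const _ _)
  -- F'' = 0
  have h2 : ∀ z ∈ ball ((y0 : ℂ) * I) r, deriv (deriv F) z = 0 := by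
    intro z hz
    have hd := (hF z hz).deriv.differentiableAt.hasDerivAt
    have hx : HasDerivAt (fun t : ℝ => (deriv F (z + t)).re) (deriv (deriv F) z).re 0 := by
      have h3 : HasDerivAt (fun t : ℂ => deriv F (z + t)) (deriv (deriv F) z) ((0 : ℝ) : ℂ) := by
        have : HasDerivAt (deriv F) (deriv (deriv F) z) (z + ((0 : ℝ) : ℂ)) := by simpa using hd
        exact HasDerivAt.comp_const_add _ _ this
      exact (reCLM.hasFDerivAt.comp_hasDerivAt (0 : ℝ) h3.comp_ofReal)
    have hy : HasDerivAt (fun t : ℝ => (deriv F (z + t * I)).re) (deriv (deriv F) z * I).re 0 := by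
      have h3 : HasDerivAt (fun t : ℂ => deriv F (z + t * I)) (deriv (deriv F) z * I)
          ((0 : ℝ) : ℂ) := by
        have h4 : HasDerivAt (fun t : ℂ => z + t * I) I ((0 : ℝ) : ℂ) := by
          simpa using ((hasDerivAt_id ((0 : ℝ) : ℂ)).mul_const I).const_add z
        have h5 : HasDerivAt (deriv F) (deriv (deriv F) z) (z + ((0 : ℝ) : ℂ) * I) := by
          simpa using hd
        exact HasDerivAt.comp (h₂ := deriv F) (h := fun t : ℂ => z + t * I) ((0 : ℝ) : ℂ) h5 h4
      exact (reCLM.hasFDerivAt.comp_hasDerivAt (0 : ℝ) h3.comp_ofReal)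
    have hx0 : (fun t : ℝ => (deriv F (z + t)).re) =ᶠ[𝓝 0] fun _ => (0 : ℝ) := by
      have hc : ContinuousAt (fun t : ℝ => z + (t : ℂ)) 0 := by fun_prop
      have h5 : ∀ᶠ t : ℝ in 𝓝 0, z + t ∈ ball ((y0 : ℂ) * I) r :=
        hc.eventually (hopen.mem_nhds (by simpa using hz))
      filter_upwards [h5] with t ht using h1 _ ht
    have hy0 : (fun t : ℝ => (deriv F (z + t * I)).re) =ᶠ[𝓝 0] fun _ => (0 : ℝ) := by
      have hc : ContinuousAt (fun t : ℝ => z + (t : ℂ) * I) 0 := by fun_prop
      have h5 : ∀ᶠ t : ℝ in 𝓝 0, z + t * I ∈ ball ((y0 : ℂ) * I) r :=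
        hc.eventually (hopen.mem_nhds (by simpa using hz))
      filter_upwards [h5] with t ht using h1 _ ht
    have e1 := (hx.congr_of_eventuallyEq hx0.symm).unique (hasDerivAt_const _ _)
    have e2 := (hy.congr_of_eventuallyEq hy0.symm).unique (hasDerivAt_const _ _)
    apply Complex.ext
    · simpa using e1
    · simpa using e2
  set z0 : ℂ := (y0 : ℂ) * I with hz0
  have hz0m : z0 ∈ ball z0 r := mem_ball_self hr
  have hconv : IsPreconnected (ball z0 r) := (convex_ball z0 r).isPreconnected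
  have h3 : ∀ z ∈ ball z0 r, deriv F z = deriv F z0 := fun z hz =>
    hopen.is_const_of_deriv_eq_zero hconv
      (fun y hy => (hF y hy).deriv.differentiableAt.differentiableWithinAt)
      (fun y hy => h2 y hy) hz hz0m
  have h4 : ∀ z ∈ ball z0 r, F z - deriv F z0 * z = F z0 - deriv F z0 * z0 := fun z hz =>
    hopen.is_const_of_deriv_eq_zero (f := fun z => F z - deriv F z0 * z) hconv
      (fun y hy => ((hF y hy).differentiableAt.sub (by fun_prop)).differentiableWithinAt)
      (fun y hy => by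
        have a1 : HasDerivAt (fun z => F z - deriv F z0 * z) (deriv F y - deriv F z0 * 1) y :=
          (hF y hy).differentiableAt.hasDerivAt.sub ((hasDerivAt_id y).const_mul _)
        rw [a1.deriv, h3 y hy]; simp) hz hz0m
  refine ⟨-(deriv F z0).im, (F z0 - deriv F z0 * z0).re, fun y hy => ?_⟩
  have hmem : (y : ℂ) * I ∈ ball z0 r := by
    rw [mem_ball, dist_eq_norm, hz0, ← sub_mul, norm_mul, norm_I, mul_one, ← ofReal_sub, norm_real,
      Real.norm_eq_abs]
    exact hy
  have h5 := hFre hmem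
  simp only at h5
  have h6 := h4 _ hmem
  have h7 : (((y : ℂ) * I).im) = y := by simp
  rw [h7] at h5
  rw [← h5]
  have h8 : F (y * I) = (F z0 - deriv F z0 * z0) + deriv F z0 * (y * I) := by rw [← h6]; ring
  rw [h8]
  simp only [add_re, mul_re, ofReal_re, I_re, mul_zero, ofReal_im, I_im, mul_one, sub_self,
    mul_im, zero_sub, add_zero]
  ring

/-- affine on the half lines -/
lemma affine_right {k : ℝ → ℝ} (hh : ∀ z : ℂ, 0 < z.im → HarmonicAt (fun z : ℂ => k z.im) z) :
    ∃ p q : ℝ, ∀ y, 0 < y → k y = p * y + q := by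
  have hball : ∀ R : ℝ, 0 < R → HarmonicOnNhd (fun z : ℂ => k z.im) (ball ((R : ℂ) * I) R) := by
    intro R hR z hz
    apply hh
    rw [mem_ball, dist_eq_norm] at hz
    have h1 := (abs_im_le_norm (z - R * I)).trans_lt hz
    have h2 : (z - R * I).im = z.im - R := by simp
    rw [h2, abs_lt] at h1
    linarith [h1.1]
  choose! p q hpq using fun R (hR : 0 < R) => affine_of_harm hR (hball R hR)
  refine ⟨p 1, q 1, fun y hy => ?_⟩
  set R := max 1 y with hRdef
  have hR1 : 1 ≤ R := le_max_left _ _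
  have hRy : y ≤ R := le_max_right _ _
  have hR : 0 < R := by linarith
  have e1 := hpq 1 one_pos 1 (by norm_num)
  have e2 := hpq 1 one_pos (1/2) (by norm_num [abs_lt])
  have e3 := hpq R hR 1 (by rw [abs_lt]; constructor <;> linarith)
  have e4 := hpq R hR (1/2) (by rw [abs_lt]; constructor <;> linarith)
  have e5 := hpq R hR y (by rw [abs_lt]; constructor <;> linarith)
  have e6 : p R = p 1 := by linarith
  have e7 : q R = q 1 := by linarith
  rw [e5, e6, e7]

lemma affine_left {k : ℝ → ℝ} (hh : ∀ z : ℂ, z.im < 0 → HarmonicAt (fun z : ℂ => k z.im) z) :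
    ∃ p q : ℝ, ∀ y, y < 0 → k y = p * y + q := by
  obtain ⟨p, q, hpq⟩ := affine_right (k := fun y => k (-y)) (by
    intro z hz
    have h1 : HarmonicAt (fun z : ℂ => k z.im) (-1 * z) := hh _ (by simpa using hz)
    have h2 := harm_scale h1
    refine harm_congr h2 (Eventually.of_forall fun x => ?_)
    simp)
  refine ⟨-p, q, fun y hy => ?_⟩
  have := hpq (-y) (by linarith)
  simp only [neg_neg] at this
  rw [this]; ring

lemma harm_im (a : ℝ) (z : ℂ) : HarmonicAt (fun z : ℂ => a * z.im) z := by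
  have h1 : AnalyticAt ℂ (fun z : ℂ => (-(a : ℂ) * I) * z) z := by fun_prop
  have := h1.harmonicAt_re
  refine harm_congr this (Eventually.of_forall fun x => ?_)
  simp

variable {G : C2 → ℝ} {h : ℂ → C2}

/-- `g = k0 |Im z| + Re ψ` -/
lemma strip_form (S : StripData G h) : ∃ (k0 : ℝ) (ψ : ℂ → ℂ), Differentiable ℂ ψ ∧
    ∀ z, G (h z) = k0 * |z.im| + (ψ z).re := by
  have hcont : Continuous (fun z => G (h z)) :=
    S.green.cont.comp_continuous S.curve.diff.continuous fun z => by simpa using S.curve.nz z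
  obtain ⟨k, hk, hharm⟩ := exists_strip hcont S.tr
  have hoff : ∀ z : ℂ, z.im ≠ 0 → HarmonicAt (fun z : ℂ => k z.im) z := by
    intro z hz
    refine harm_congr (harm_sub (S.off z hz) (hharm z (mem_univ _))) (Eventually.of_forall fun x => ?_)
    simp
  obtain ⟨p1, q1, h1⟩ := affine_right fun z hz => hoff z hz.ne'
  obtain ⟨p2, q2, h2⟩ := affine_left fun z hz => hoff z hz.ne
  have hq1 : k 0 = q1 := by
    have l1 : Tendsto k (𝓝[>] 0) (𝓝 (k 0)) := (hk.tendsto 0).mono_left nhdsWithin_le_nhds
    have l2 : Tendsto k (𝓝[>] 0) (𝓝 (p1 * 0 + q1)) := by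
      have hc : Continuous fun y : ℝ => p1 * y + q1 := by fun_prop
      refine ((hc.tendsto 0).mono_left nhdsWithin_le_nhds).congr' ?_
      filter_upwards [self_mem_nhdsWithin] with y hy
      exact (h1 y hy).symm
    have := tendsto_nhds_unique l1 l2
    simpa using this
  have hq2 : k 0 = q2 := by
    have l1 : Tendsto k (𝓝[<] 0) (𝓝 (k 0)) := (hk.tendsto 0).mono_left nhdsWithin_le_nhds
    have l2 : Tendsto k (𝓝[<] 0) (𝓝 (p2 * 0 + q2)) := by
      have hc : Continuous fun y : ℝ => p2 * y + q2 := by fun_prop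
      refine ((hc.tendsto 0).mono_left nhdsWithin_le_nhds).congr' ?_
      filter_upwards [self_mem_nhdsWithin] with y hy
      exact (h2 y hy).symm
    have := tendsto_nhds_unique l1 l2
    simpa using this
  have hform : ∀ y, k y = (p1 - p2) / 2 * |y| + ((p1 + p2) / 2 * y + k 0) := by
    intro y
    rcases lt_trichotomy y 0 with hy | hy | hy
    · rw [abs_of_neg hy, h2 y hy, ← hq2]; ring
    · rw [hy]; simp
    · rw [abs_of_pos hy, h1 y hy, ← hq1]; ring
  have hH : HarmonicOnNhd (fun z => G (h z) - (p1 - p2) / 2 * |z.im|) univ := by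
    intro z _
    have a1 := harm_add (hharm z (mem_univ _)) (harm_add (harm_im ((p1 + p2) / 2) z)
      (harmonicAt_const (x := z) (k 0)))
    refine harm_congr a1 (Eventually.of_forall fun x => ?_)
    simp only [hform x.im]; ring
  obtain ⟨ψ, hψ, e⟩ := hH.exists_analyticOnNhd_univ_re_eq
  refine ⟨(p1 - p2) / 2, ψ, fun z => (hψ z (mem_univ _)).differentiableAt, fun z => ?_⟩
  have h3 : (ψ z).re = G (h z) - (p1 - p2) / 2 * |z.im| := congrFun e z
  rw [h3]; ring

end Pool.Agent.Helper17.Dyn
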