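import Mathlib
import Pool.Agent.Helper17.Dyn.Cls3
import Pool.Agent.Helper60.RF.ClassAlg

/-! Module C (classification) of MP_9c370f: the exponential case. -/

open Complex Metric Set Filter Topology InnerProductSpace

namespace Pool.Agent.Helper17.Dyn

open Pool.Agent.Helper65 Pool.Agent.Helper56.Harm

variable {G : C2 → ℝ} {h : ℂ → C2}

/-- the exponential -/
noncomputable def Ex (z : ℂ) : ℂ := exp (2 * Real.pi * I * z)

lemma Ex_ne (z : ℂ) : Ex z ≠ 0 := exp_ne_zero _

lemma Ex_add (z w : ℂ) : Ex (z + w) = Ex z * Ex w := by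
  unfold Ex; rw [mul_add, exp_add]

lemma Ex_neg (z : ℂ) : Ex (-z) = (Ex z)⁻¹ := by
  unfold Ex; rw [mul_neg, exp_neg]

lemma Ex_int (n : ℤ) : Ex n = 1 := by
  unfold Ex
  rw [exp_eq_one_iff]
  exact ⟨n, by ring⟩

lemma Ex_int_mul (n : ℤ) (z : ℂ) : Ex (n * z) = Ex z ^ n := by
  unfold Ex
  rw [← exp_int_mul]; congr 1; ring

lemma Ex_surj {q : ℂ} (hq : q ≠ 0) : ∃ z, Ex z = q := by
  refine ⟨Complex.log q / (2 * Real.pi * I), ?_⟩
  have : (2 * (Real.pi : ℂ) * I) ≠ 0 := two_pi_I_ne_zero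
  rw [Ex, mul_div_cancel₀ _ this, exp_log hq]

lemma Ex_hasDeriv (z : ℂ) : HasDerivAt Ex (Ex z * (2 * Real.pi * I)) z := by
  have h1 : HasDerivAt (fun z : ℂ => 2 * Real.pi * I * z) (2 * Real.pi * I) z := by
    simpa using (hasDerivAt_id z).const_mul (2 * Real.pi * I)
  exact h1.cexp

/-- The exponential form: `[h z] = [F0 (e^{2 π i z})]`. -/
lemma strip_poly (S : StripData G h) :
    ∃ F0 : RatFunc ℂ, 1 ≤ deg F0 ∧ ∀ z, wd (RLift F0 (Ex z, 1)) (h z) = 0 := by
  have C := S.curve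
  obtain ⟨k0, ψ, hψ, hform⟩ := strip_form S
  obtain ⟨B, hB0, hB⟩ := S.green.bound
  set M : ℂ → C2 := fun z => exp (-ψ z) • h z with hM
  have hMd : Differentiable ℂ M := by
    have : Differentiable ℂ fun z => exp (-ψ z) := (hψ.neg).cexp
    exact this.smul C.diff
  have hMnz : ∀ z, M z ≠ 0 := fun z => smul_ne_zero (exp_ne_zero _) (C.nz z)
  have hGM : ∀ z, G (M z) = k0 * |z.im| := by
    intro z
    simp only [hM]
    rw [S.green.hom _ _ (exp_ne_zero _) (C.nz z), hform, norm_exp, Real.log_exp, neg_re]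
    ring
  have hMb : ∀ z, ‖M z‖ ≤ Real.exp B * Real.exp (|k0| * |z.im|) := by
    intro z
    have h1 := hB (M z) (hMnz z)
    rw [hGM, abs_le] at h1
    have h2 : Real.log ‖M z‖ ≤ B + |k0| * |z.im| := by
      have : k0 * |z.im| ≤ |k0| * |z.im| := mul_le_mul_of_nonneg_right (le_abs_self _) (abs_nonneg _)
      linarith [h1.1]
    rw [← Real.exp_add]
    exact (Real.log_le_iff_le_exp (norm_pos_iff.mpr (hMnz z))).1 h2
  -- the multiplier
  have hper : ∀ z, wd (h (z + 1)) (h z) = 0 := by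
    intro z
    have := ((S.per 1).2 ⟨1, by simp⟩).2 z
    rwa [one_mul] at this
  obtain ⟨m, hmd, hm0, hm⟩ := exists_ratio_entire (φ := fun z => M (z + 1)) (ψ := M)
    (hMd.comp (by fun_prop : Differentiable ℂ fun z : ℂ => z + 1)) hMd (fun z => hMnz _) hMnz
    (fun z => by
      simp only [hM]
      rw [wd_smul_left, wd_smul_right, hper]; simp)
  have hm1 : ∀ z, ‖m z‖ = 1 := by
    intro z
    have h1 := S.green.hom (m z) (M z) (hm0 z) (hMnz z)
    rw [← hm z, hGM, hGM, add_im, one_im, add_zero] at h1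
    have h2 : Real.log ‖m z‖ = 0 := by linarith
    have h3 := norm_pos_iff.mpr (hm0 z)
    exact Real.eq_one_of_pos_of_log_eq_zero h3 h2
  have hmc : ∀ z, m z = m 0 := by
    intro z
    apply hmd.apply_eq_apply_of_bounded
    rw [isBounded_iff_forall_norm_le]
    exact ⟨1, by rintro _ ⟨z, rfl⟩; exact (hm1 z).le⟩
  set τ := Complex.log (m 0) with hτ
  have hτe : exp τ = m 0 := exp_log (hm0 0)
  have hτre : τ.re = 0 := by rw [hτ, log_re, hm1, Real.log_one]
  set N : ℂ → C2 := fun z => exp (-(τ * z)) • M z with hN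
  have hNd : Differentiable ℂ N := by
    have : Differentiable ℂ fun z => exp (-(τ * z)) := by fun_prop
    exact this.smul hMd
  have hNper : ∀ z, N (z + 1) = N z := by
    intro z
    have h1 : M (z + 1) = m 0 • M z := by rw [← hmc z]; exact hm z
    simp only [hN]
    rw [h1, smul_smul]
    congr 1
    rw [← hτe, ← exp_add]
    congr 1; ring
  have hNb : ∀ z, ‖N z‖ ≤ Real.exp B * Real.exp ((|k0| + |τ.im|) * |z.im|) := by
    intro z
    simp only [hN, norm_smul, norm_exp]
    have h1 : (-(τ * z)).re ≤ |τ.im| * |z.im| := by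
      rw [neg_re, mul_re, hτre, zero_mul, zero_sub, neg_neg, ← abs_mul]
      exact le_abs_self _
    calc Real.exp (-(τ * z)).re * ‖M z‖
        ≤ Real.exp (|τ.im| * |z.im|) * (Real.exp B * Real.exp (|k0| * |z.im|)) := by
          gcongr
          exact hMb z
      _ = _ := by rw [add_mul, Real.exp_add]; ring
  obtain ⟨n, hn⟩ := exists_nat_ge ((|k0| + |τ.im|) / (2 * Real.pi))
  have hn' : (|k0| + |τ.im|) ≤ 2 * Real.pi * n := by
    have : 0 < 2 * Real.pi := by positivity
    rw [div_le_iff₀ this] at hn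
    linarith
  obtain ⟨P1, hP1⟩ := periodic_poly (f := fun z => (N z).1)
    (fun z => (analyticAt_fst (hNd.analyticAt z)).differentiableAt) (fun z => by rw [hNper])
    (fun z => (norm_fst_le _).trans (hNb z)) hn'
  obtain ⟨P2, hP2⟩ := periodic_poly (f := fun z => (N z).2)
    (fun z => (analyticAt_snd (hNd.analyticAt z)).differentiableAt) (fun z => by rw [hNper])
    (fun z => (norm_snd_le _).trans (hNb z)) hn'
  have hPair : ∀ z, ∃ c : ℂ, c ≠ 0 ∧ ((P1.eval (Ex z), P2.eval (Ex z)) : C2) = c • h z := by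
    intro z
    refine ⟨Ex z ^ n * (exp (-(τ * z)) * exp (-ψ z)), ?_, ?_⟩
    · exact mul_ne_zero (pow_ne_zero _ (Ex_ne z)) (mul_ne_zero (exp_ne_zero _) (exp_ne_zero _))
    · have h1 := hP1 z
      have h2 := hP2 z
      apply Prod.ext
      · show P1.eval (Ex z) = _
        rw [Ex, ← h1]
        simp only [hN, hM, Prod.smul_fst, smul_eq_mul]
        ring
      · show P2.eval (Ex z) = _
        rw [Ex, ← h2]
        simp only [hN, hM, Prod.smul_snd, smul_eq_mul]
        ring
  have hP2ne : P2 ≠ 0 := by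
    rintro rfl
    obtain ⟨z, hz⟩ := C.nc (1, 0) (by simp)
    obtain ⟨c, hc, e⟩ := hPair z
    have h1 := congrArg Prod.snd e
    simp only [Polynomial.eval_zero, Prod.smul_snd, smul_eq_mul] at h1
    have h2 := (mul_eq_zero.1 h1.symm).resolve_left hc
    apply hz
    simp [wd, h2]
  set F0 : RatFunc ℂ := algebraMap _ _ P1 / algebraMap _ _ P2 with hF0
  have hF : ∀ z, wd (RLift F0 (Ex z, 1)) (h z) = 0 := by
    intro z
    obtain ⟨c, hc, e⟩ := hPair z
    have h1 : F0.num * P2 = P1 * F0.denom := by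
      apply RatFunc.algebraMap_injective ℂ
      rw [map_mul, map_mul, ← div_eq_div_iff (RatFunc.algebraMap_ne_zero F0.denom_ne_zero)
        (RatFunc.algebraMap_ne_zero hP2ne), RatFunc.num_div_denom]
    have h2 := congrArg (Polynomial.eval (Ex z)) h1
    rw [Polynomial.eval_mul, Polynomial.eval_mul] at h2
    have h3 : wd (RLift F0 (Ex z, 1)) (P1.eval (Ex z), P2.eval (Ex z)) = 0 := by
      rw [RLift_pt]
      simp only [wd]
      linear_combination h2
    rw [e, wd_smul_right] at h3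
    exact (mul_eq_zero.1 h3).resolve_left hc
  refine ⟨F0, deg_pos ?_, hF⟩
  rintro ⟨c, hc⟩
  obtain ⟨z, hz⟩ := C.nc (c, 1) (pt_ne_zero c)
  apply hz
  have h1 := hF z
  rw [hc, RLift_pt] at h1
  simp only [RatFunc.num_C, RatFunc.denom_C, Polynomial.eval_C, Polynomial.eval_one] at h1
  exact wd_eq_zero_comm.1 h1

lemma val_pow (q : ℂ) (n : ℕ) : Val q (RatFunc.X ^ n) (q ^ n) := by
  induction n with
  | zero => simpa using Val.const q 1
  | succ n ih => rw [pow_succ, pow_succ]; exact ih.mul (Val.X q)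

lemma val_mon {q : ℂ} (hq : q ≠ 0) (c : ℂ) (n : ℤ) :
    Val q (RatFunc.C c * RatFunc.X ^ n) (c * q ^ n) := by
  refine (Val.const q c).mul ?_
  obtain ⟨m, rfl | rfl⟩ := n.eq_nat_or_neg
  · simpa using val_pow q m
  · have h1 := (Val.const q 1).div (val_pow q m) (pow_ne_zero m hq)
    simpa using h1

lemma ne_zero_of_val {A : RatFunc ℂ} {q a : ℂ} (hv : Val q A a) :
    ∃ t : ℂ, t ≠ 0 ∧ RLift A (q, 1) = t • ((a, 1) : C2) := by
  refine ⟨A.denom.eval q, hv.reg, ?_⟩
  rw [RLift_pt_reg hv.reg, hv.ev_eq]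

/-- equality of compositions from pointwise parallelism -/
lemma comp_eq_comp {A B A' B' : RatFunc ℂ} (hA : 1 ≤ deg A) (hB : 1 ≤ deg B) (hA' : 1 ≤ deg A')
    (hB' : 1 ≤ deg B') {U : Set ℂ} (hU : U.Infinite)
    (hpar : ∀ q ∈ U, wd (RLift A (RLift B (q, 1))) (RLift A' (RLift B' (q, 1))) = 0) :
    comp A B = comp A' B' := by
  obtain ⟨c, hc, e⟩ := RLift_comp hA hB
  obtain ⟨c', hc', e'⟩ := RLift_comp hA' hB'
  apply eq_of_RLift_par hU
  intro q hq
  have h1 := hpar q hq
  rw [e, e', wd_smul_left, wd_smul_right] at h1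
  exact (mul_eq_zero.1 ((mul_eq_zero.1 h1).resolve_left hc)).resolve_left hc'

lemma infinite_ne_zero : ({0}ᶜ : Set ℂ).Infinite := (Set.finite_singleton 0).infinite_compl

/-- the degree of `F0` -/
lemma strip_deg (S : StripData G h) {F0 : RatFunc ℂ} (h1 : 1 ≤ deg F0)
    (hF : ∀ z, wd (RLift F0 (Ex z, 1)) (h z) = 0) :
    deg F0 = 1 ∨ (deg F0 = 2 ∧ ∃ κ : ℂ, κ ≠ 0 ∧ comp F0 (RatFunc.C κ / RatFunc.X) = F0) := by
  have C := S.curve
  have hL := isLift_RLift h1
  have hnz : ∀ q : ℂ, RLift F0 (q, 1) ≠ 0 := fun q => hL.nz _ (pt_ne_zero q)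
  -- generic point
  have hEc : ({x | wd (h x) (RLift F0 (0, 1)) = 0} ∪ {x | wd (h x) (RLift F0 (1, 0)) = 0}).Countable :=
    (C.countable_par (hnz 0)).union (C.countable_par (hL.nz _ (by simp)))
  obtain ⟨s, hsE, hs⟩ := S.gen _ hEc
  simp only [mem_union, mem_ofPred_eq, not_or] at hsE
  set ξ := h s with hξ
  set P : Polynomial ℂ := Polynomial.C ξ.2 * F0.num - Polynomial.C ξ.1 * F0.denom with hP
  have hPe : ∀ q, P.eval q = wd (RLift F0 (q, 1)) ξ := by
    intro q
    rw [RLift_pt]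
    simp only [hP, wd, Polynomial.eval_sub, Polynomial.eval_mul, Polynomial.eval_C]
    ring
  have hPdeg : P.natDegree ≤ deg F0 := by
    apply (Polynomial.natDegree_sub_le _ _).trans
    apply max_le
    · exact (Polynomial.natDegree_C_mul_le _ _).trans (natDegree_num_le F0)
    · exact (Polynomial.natDegree_C_mul_le _ _).trans (natDegree_denom_le F0)
  have hPc : P.coeff (deg F0) ≠ 0 := by
    have h2 := wd_RLift F0 (1, 0) ξ
    rw [homP_of_snd_eq (by rfl)] at h2
    simp only [one_pow, mul_one] at h2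
    rw [← hP] at h2
    rw [← h2]
    exact fun h0 => hsE.2 (wd_eq_zero_comm.1 h0)
  have hPnat : P.natDegree = deg F0 := le_antisymm hPdeg (Polynomial.le_natDegree_of_ne_zero hPc)
  have hP0 : P ≠ 0 := by rintro h0; rw [h0] at hPc; simp at hPc
  -- roots
  have hroot : ∀ q, P.IsRoot q → ∃ z1, Ex z1 = q ∧ wd (h z1) (deriv h z1) ≠ 0 ∧
      wd (h z1) ξ = 0 ∧ ∃ a b, Gam h a b ∧ a * s + b = z1 := by
    intro q hq
    have hq1 : wd (RLift F0 (q, 1)) ξ = 0 := by rw [← hPe]; exact hq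
    have hq0 : q ≠ 0 := by
      rintro rfl
      exact hsE.1 (wd_eq_zero_comm.1 hq1)
    obtain ⟨z1, rfl⟩ := Ex_surj hq0
    have h2 : wd (h z1) ξ = 0 := par_trans (hnz _) (wd_eq_zero_comm.1 (hF z1)) hq1
    obtain ⟨h3, h4⟩ := hs z1 (wd_eq_zero_comm.1 h2)
    exact ⟨z1, rfl, h3, h2, h4⟩
  have hsimple : ∀ q, P.IsRoot q → ¬ P.derivative.IsRoot q := by
    intro q hq hq'
    obtain ⟨z1, rfl, himm, hpar, -⟩ := hroot q hq
    apply himm
    -- ratio
    have a1 : AnalyticAt ℂ (fun z => RLift F0 (Ex z, 1)) z1 := by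
      have : Differentiable ℂ (fun z => RLift F0 (Ex z, 1)) := by
        apply hL.diff.comp
        have : Differentiable ℂ Ex := fun z => (Ex_hasDeriv z).differentiableAt
        exact this.prodMk (differentiable_const _)
      exact this.analyticAt z1
    obtain ⟨m, hm, hm0, hme⟩ := exists_ratio a1 (C.diff.analyticAt z1) (hnz _) (C.nz _)
      (Eventually.of_forall hF)
    have d1 : HasDerivAt (fun z => P.eval (Ex z)) (P.derivative.eval (Ex z1) * (Ex z1 * (2 * Real.pi * I))) z1 :=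
      HasDerivAt.comp (h₂ := fun q => P.eval q) z1 (P.hasDerivAt (Ex z1)) (Ex_hasDeriv z1)
    have d2 : HasDerivAt (fun z => m z * wd (h z) ξ)
        (deriv m z1 * wd (h z1) ξ + m z1 * (wd (deriv h z1) ξ + wd (h z1) 0)) z1 :=
      hm.differentiableAt.hasDerivAt.mul
        (hasDerivAt_wd (C.diff z1).hasDerivAt (hasDerivAt_const z1 ξ))
    have hee : (fun z => P.eval (Ex z)) =ᶠ[𝓝 z1] fun z => m z * wd (h z) ξ := by
      filter_upwards [hme] with z hz
      rw [hPe, hz, wd_smul_left]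
    have h2 := (d2.congr_of_eventuallyEq hee).unique d1
    have h3 : P.derivative.eval (Ex z1) = 0 := hq'
    rw [h3, zero_mul, hpar, mul_zero, zero_add, wd_zero_right, add_zero] at h2
    have h4 := (mul_eq_zero.1 h2).resolve_left hm0
    exact par_trans (C.nz s) hpar (wd_eq_zero_comm.1 h4)
  have hnodup : P.roots.Nodup := by
    rw [Multiset.nodup_iff_count_le_one]
    intro q
    rw [Polynomial.count_roots]
    by_contra hlt
    push Not at hlt
    have := (Polynomial.one_lt_rootMultiplicity_iff_isRoot hP0).1 hlt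
    exact hsimple q this.1 this.2
  have hcard : P.roots.card = deg F0 := by
    rw [← hPnat]
    exact (Polynomial.splits_iff_card_roots.1 (IsAlgClosed.splits P))
  have hcard' : P.roots.toFinset.card = deg F0 := by
    rw [← hcard]; exact Multiset.toFinset_card_of_nodup hnodup
  -- the case distinction
  by_cases hsym : ∃ b, Gam h (-1) b
  · obtain ⟨b0, hb0⟩ := hsym
    have hsub : P.roots.toFinset ⊆ {Ex s, Ex b0 / Ex s} := by
      intro q hq
      rw [Multiset.mem_toFinset, Polynomial.mem_roots hP0] at hq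
      obtain ⟨z1, rfl, -, -, a, b, hab, he⟩ := hroot q hq
      rw [Finset.mem_insert, Finset.mem_singleton]
      rcases S.pm a b hab with rfl | rfl
      · left
        obtain ⟨n, rfl⟩ := (S.per b).1 hab
        rw [← he, one_mul, Ex_add, Ex_int, mul_one]
      · right
        have h2 := Gam.comp C hab hb0.inv
        have e1 : (-1 : ℂ) * (-1)⁻¹ = 1 := by norm_num
        have e2 : -1 * -((-1 : ℂ)⁻¹ * b0) + b = b - b0 := by ring
        rw [e1, e2] at h2
        obtain ⟨n, hn⟩ := (S.per _).1 h2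
        have e3 : b = b0 + n := by rw [← hn]; ring
        rw [← he, e3]
        have e4 : (-1 : ℂ) * s + (b0 + n) = -s + (b0 + n) := by ring
        rw [e4, Ex_add, Ex_add, Ex_int, Ex_neg, mul_one]
        field_simp
    have hle : deg F0 ≤ 2 := by
      rw [← hcard']
      exact (Finset.card_le_card hsub).trans Finset.card_le_two
    rcases (by omega : deg F0 = 1 ∨ deg F0 = 2) with h2 | h2
    · exact Or.inl h2
    · right
      refine ⟨h2, Ex b0, Ex_ne _, ?_⟩
      have hdk : deg (RatFunc.C (Ex b0) / RatFunc.X) = 1 := by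
        have e1 : RatFunc.C (Ex b0) / RatFunc.X = mon (Ex b0) (-1) := by
          rw [mon, zpow_neg, zpow_one, div_eq_mul_inv]
        rw [e1, deg_mon (Ex_ne _)]; rfl
      have key : comp F0 (RatFunc.C (Ex b0) / RatFunc.X) = comp F0 RatFunc.X := by
        apply comp_eq_comp h1 (by rw [hdk]) h1 (by rw [deg_X]) infinite_ne_zero
        intro q hq
        have hq0 : q ≠ 0 := by simpa using hq
        obtain ⟨z, rfl⟩ := Ex_surj hq0
        obtain ⟨t1, ht1, e1⟩ := ne_zero_of_val ((Val.const (Ex z) (Ex b0)).div (Val.X (Ex z)) hq0)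
        obtain ⟨t2, ht2, e2⟩ := ne_zero_of_val (Val.X (Ex z))
        rw [e1, e2, hL.hom, hL.hom, wd_smul_left, wd_smul_right]
        have h3 := hF (-1 * z + b0)
        have h4 := hb0.2 z
        have h5 := hF z
        have e3 : Ex (-1 * z + b0) = Ex b0 / Ex z := by
          rw [Ex_add, neg_one_mul, Ex_neg]; field_simp
        rw [e3] at h3
        have h6 := par_trans (C.nz _) h3 h4
        have h7 := par_trans (C.nz _) h6 (wd_eq_zero_comm.1 h5)
        rw [h7]; simp
      rw [key, comp_X]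
  · left
    have hsub : P.roots.toFinset ⊆ {Ex s} := by
      intro q hq
      rw [Multiset.mem_toFinset, Polynomial.mem_roots hP0] at hq
      obtain ⟨z1, rfl, -, -, a, b, hab, he⟩ := hroot q hq
      rw [Finset.mem_singleton]
      rcases S.pm a b hab with rfl | rfl
      · obtain ⟨n, rfl⟩ := (S.per b).1 hab
        rw [← he, one_mul, Ex_add, Ex_int, mul_one]
      · exact absurd ⟨b, hab⟩ hsym
    have hle : deg F0 ≤ 1 := by
      rw [← hcard']
      exact (Finset.card_le_card hsub).trans (by simp)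
    omega

/-- the semiconjugacy -/
lemma strip_semiconj (S : StripData G h) {F0 : RatFunc ℂ} (h1 : 1 ≤ deg F0)
    (hF : ∀ z, wd (RLift F0 (Ex z, 1)) (h z) = 0) {A : RatFunc ℂ} (hA : 2 ≤ deg A) {α β : ℂ}
    (hr : Rel h (RLift A) α β) :
    ∃ (c : ℂ) (n : ℤ), c ≠ 0 ∧ comp A F0 = comp F0 (RatFunc.C c * RatFunc.X ^ n) := by
  have C := S.curve
  have hLA := isLift_RLift (A := A) (by omega)
  have hLF := isLift_RLift h1
  -- alpha is an integer
  have hT := hr.mul_mem (C := C) hLA (ω := 1) ((S.per 1).2 ⟨1, by simp⟩)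
  obtain ⟨n, hn⟩ := (S.per _).1 (mem_Tg.1 hT)
  rw [mul_one] at hn
  have hn0 : n ≠ 0 := by
    rintro rfl
    apply hr.1; rw [hn]; simp
  refine ⟨Ex β, n, Ex_ne _, ?_⟩
  have hdm : deg (RatFunc.C (Ex β) * RatFunc.X ^ n) = n.natAbs := deg_mon (Ex_ne _) n
  apply comp_eq_comp (by omega) h1 h1 (by rw [hdm]; omega) infinite_ne_zero
  intro q hq
  have hq0 : q ≠ 0 := by simpa using hq
  obtain ⟨z, rfl⟩ := Ex_surj hq0
  obtain ⟨t1, ht1, e1⟩ := ne_zero_of_val (val_mon hq0 (Ex β) n)
  rw [e1, hLF.hom, wd_smul_right]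
  have h2 := hF (α * z + β)
  have h3 := hr.2 z
  have h4 := lift_par hLA (C.nz z) (hF z)
  have e2 : Ex (α * z + β) = Ex β * Ex z ^ n := by
    rw [Ex_add, hn, Ex_int_mul, mul_comm]
  rw [e2] at h2
  have h5 := par_trans (hLA.nz _ (C.nz z)) h4 (wd_eq_zero_comm.1 h3)
  have h6 := par_trans (C.nz _) h5 (wd_eq_zero_comm.1 h2)
  rw [h6, mul_zero]

/-- **Module C**: classification. -/
theorem special_of_tr {G : C2 → ℝ} {F : C2 → C2} {w : ℕ} {h : ℂ → C2} {lam : ℂ}
    (D : LinData G F w h lam) {c : ℂ} (hc : c ∈ Tr (fun z => G (h z))) (hc0 : c ≠ 0)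
    {A : RatFunc ℂ} (hA : 2 ≤ deg A) (hGA : GInv G (deg A) (RLift A)) : Special A := by
  obtain ⟨v, hv, hvT⟩ := exists_dir (lin_symG D) hc hc0
  by_cases hspan : Submodule.span ℝ (Tg h (lin_curve D) : Set ℂ) = ⊤
  · exact Or.inl (lattes_of_span D hv hvT hspan hA hGA)
  · obtain ⟨α, β, hr⟩ := exists_rel D hv hvT (by omega : 1 ≤ deg A)
      (isLift_RLift (A := A) (by omega)) hGA
    obtain ⟨ω, hω, S⟩ := exists_strip_data D hv hvT hspan
    obtain ⟨F0, h1, hF⟩ := strip_poly S
    obtain ⟨c', n, hc', hcomp⟩ := strip_semiconj S h1 hF hA (rel_rescale hω hr)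
    exact special_of_semiconj hA (strip_deg S h1 hF) hc' hcomp

end Pool.Agent.Helper17.Dyn
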