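import Mathlib
import Pool.Agent.Helper17.Dyn.Cls4

/-! Module X of MP_9c370f: exceptional lines. -/

open Complex Metric Set Filter Topology InnerProductSpace

namespace Pool.Agent.Helper17.Dyn

open Pool.Agent.Helper65 Pool.Agent.Helper56.Harm

/-- the line `ξ` is totally ramified with preimage the line `η` -/
def Fib (f : C2 → C2) (ξ η : C2) : Prop :=
  ξ ≠ 0 ∧ η ≠ 0 ∧ ∀ v, v ≠ 0 → (wd (f v) ξ = 0 ↔ wd v η = 0)

lemma exists_avoid {d : ℕ} (η : Fin d → C2) (hη : ∀ i, η i ≠ 0) :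
    ∃ v : C2, v ≠ 0 ∧ ∀ i, wd v (η i) ≠ 0 := by
  have hfin : (⋃ i, {z : ℂ | wd (z, 1) (η i) = 0}).Finite := by
    apply Set.finite_iUnion
    intro i
    apply Set.Subsingleton.finite
    intro z hz w hw
    simp only [wd, mem_ofPred_eq, one_mul] at hz hw
    by_cases h2 : (η i).2 = 0
    · exfalso
      rw [h2, mul_zero, zero_sub, neg_eq_zero] at hz
      exact hη i (Prod.ext hz h2)
    · have : (z - w) * (η i).2 = 0 := by linear_combination hz - hw
      exact sub_eq_zero.1 ((mul_eq_zero.1 this).resolve_right h2)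
  obtain ⟨z, hz⟩ := hfin.infinite_compl.nonempty
  simp only [mem_compl_iff, mem_iUnion, mem_ofPred_eq, not_exists] at hz
  exact ⟨(z, 1), pt_ne_zero z, hz⟩

/-- (1) -/
lemma fib_of_not_ntr {d : ℕ} (hd : 1 ≤ d) {f : C2 → C2} (hf : IsLift d f)
    (h : ¬ NTR d f univ) : ∃ ξ η, Fib f ξ η := by
  unfold NTR at h
  push Not at h
  obtain ⟨ξ, -, hξ, κ, η, hκ⟩ := h
  obtain ⟨κ0, η0, hκ0, hη0, hfac⟩ := hf.fac ξ hξ
  obtain ⟨v, hv, hvi⟩ := exists_avoid η0 (fun i h0 => by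
    have := hη0 i; rw [h0, norm_zero] at this; norm_num at this)
  have hne : κ * (wd v η) ^ d ≠ 0 := by
    rw [← hκ, hfac]
    exact mul_ne_zero hκ0 (Finset.prod_ne_zero_iff.mpr fun i _ => hvi i)
  have hκne : κ ≠ 0 := left_ne_zero_of_mul hne
  have hwd : wd v η ≠ 0 := by
    intro h0
    apply right_ne_zero_of_mul hne
    rw [h0, zero_pow (by omega)]
  have hη : η ≠ 0 := by rintro rfl; simp at hwd
  refine ⟨ξ, η, hξ, hη, fun u _ => ?_⟩
  rw [hκ]
  constructor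
  · intro h0
    exact pow_eq_zero_iff (by omega) |>.1 ((mul_eq_zero.1 h0).resolve_left hκne)
  · intro h0; rw [h0, zero_pow (by omega), mul_zero]

/-- (1') -/
lemma Fib.fac {d : ℕ} {f : C2 → C2} (hf : IsLift d f) {ξ η : C2} (h : Fib f ξ η) :
    ∃ κ : ℂ, κ ≠ 0 ∧ ∀ v, wd (f v) ξ = κ * (wd v η) ^ d := by
  obtain ⟨hξ, hη, hiff⟩ := h
  obtain ⟨κ0, η0, hκ0, hη0, hfac⟩ := hf.fac ξ hξ
  have hne : ∀ i, η0 i ≠ 0 := fun i h0 => by
    have := hη0 i; rw [h0, norm_zero] at this; norm_num at this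
  have hpar : ∀ i, ∃ t : ℂ, t ≠ 0 ∧ η0 i = t • η := by
    intro i
    apply (par_iff' (hne i) hη).1
    apply (hiff _ (hne i)).1
    rw [hfac, Finset.prod_eq_zero (Finset.mem_univ i) (wd_self _), mul_zero]
  choose t ht0 ht using hpar
  refine ⟨κ0 * ∏ i, t i, mul_ne_zero hκ0 (Finset.prod_ne_zero_iff.mpr fun i _ => ht0 i), fun v => ?_⟩
  rw [hfac, mul_assoc]
  congr 1
  rw [Finset.prod_congr rfl fun i _ => by rw [ht i, wd_smul_right], Finset.prod_mul_distrib,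
    Finset.prod_const, Finset.card_univ, Fintype.card_fin]

lemma Fib.value {f : C2 → C2} {ξ η : C2} (h : Fib f ξ η) : wd (f η) ξ = 0 :=
  (h.2.2 η h.2.1).2 (wd_self η)

lemma exists_preline {d : ℕ} (hd : 1 ≤ d) {f : C2 → C2} (hf : IsLift d f) {v : C2} (hv : v ≠ 0) :
    ∃ u : C2, u ≠ 0 ∧ wd (f u) v = 0 := by
  obtain ⟨κ0, η0, hκ0, hη0, hfac⟩ := hf.fac v hv
  have hne : ∀ i, η0 i ≠ 0 := fun i h0 => by
    have := hη0 i; rw [h0, norm_zero] at this; norm_num at this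
  refine ⟨η0 ⟨0, by omega⟩, hne _, ?_⟩
  rw [hfac, Finset.prod_eq_zero (Finset.mem_univ (⟨0, by omega⟩ : Fin d)) (wd_self _), mul_zero]

/-- (2) -/
lemma Fib.of_comp {a b : ℕ} (hb : 1 ≤ b) {f g : C2 → C2} (hf : IsLift a f) (hg : IsLift b g)
    {ξ η : C2} (h : Fib (fun v => f (g v)) ξ η) : Fib f ξ (g η) ∧ Fib g (g η) η := by
  obtain ⟨hξ, hη, hiff⟩ := h
  have hgη : g η ≠ 0 := hg.nz _ hη
  have hval : wd (f (g η)) ξ = 0 := (hiff η hη).2 (wd_self η)
  constructor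
  · refine ⟨hξ, hgη, fun v hv => ⟨fun h0 => ?_, fun h0 => ?_⟩⟩
    · obtain ⟨u, hu, huv⟩ := exists_preline hb hg hv
      have h1 : wd (f (g u)) (f v) = 0 := lift_par hf hv huv
      have h2 : wd (f (g u)) ξ = 0 := par_trans (hf.nz _ hv) h1 h0
      have h3 := (hiff u hu).1 h2
      have h4 := lift_par hg hη h3
      exact par_trans (hg.nz _ hu) (wd_eq_zero_comm.1 huv) h4
    · exact par_trans (hf.nz _ hgη) (lift_par hf hgη h0) hval
  · refine ⟨hgη, hη, fun v hv => ⟨fun h0 => ?_, fun h0 => lift_par hg hη h0⟩⟩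
    apply (hiff v hv).1
    exact par_trans (hf.nz _ hgη) (lift_par hf hgη h0) hval

lemma Fib.comp {b : ℕ} {f g : C2 → C2} (hg : IsLift b g)
    {ξ η ζ : C2} (h1 : Fib f ξ η) (h2 : Fib g η ζ) : Fib (fun v => f (g v)) ξ ζ :=
  ⟨h1.1, h2.2.1, fun v hv => (h1.2.2 _ (hg.nz v hv)).trans (h2.2.2 v hv)⟩

lemma Fib.congr_left {f : C2 → C2} {ξ ξ' η : C2} (h : Fib f ξ η) (h' : ξ' ≠ 0) (hpar : wd ξ ξ' = 0) : Fib f ξ' η := by
  refine ⟨h', h.2.1, fun v hv => ?_⟩
  rw [← h.2.2 v hv]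
  exact ⟨fun h0 => par_trans h' h0 (wd_eq_zero_comm.1 hpar), fun h0 => par_trans h.1 h0 hpar⟩

lemma Fib.congr_right {f : C2 → C2} {ξ η η' : C2} (h : Fib f ξ η)
    (h' : η' ≠ 0) (hpar : wd η η' = 0) : Fib f ξ η' := by
  refine ⟨h.1, h', fun v hv => ?_⟩
  rw [h.2.2 v hv]
  exact ⟨fun h0 => par_trans h.2.1 h0 hpar, fun h0 => par_trans h' h0 (wd_eq_zero_comm.1 hpar)⟩

/-- a root of unity different from 1 -/
lemma exists_root {d : ℕ} (hd : 2 ≤ d) : ∃ ω : ℂ, ω ^ d = 1 ∧ ω ≠ 1 := by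
  have h := Complex.isPrimitiveRoot_exp d (by omega)
  exact ⟨_, h.pow_eq_one, h.ne_one (by omega)⟩

/-- (3) -/
lemma fib_three {d : ℕ} (hd : 2 ≤ d) {f : C2 → C2} (hf : IsLift d f) {ξ1 ξ2 ξ3 η1 η2 η3 : C2}
    (h1 : Fib f ξ1 η1) (h2 : Fib f ξ2 η2) (h3 : Fib f ξ3 η3) :
    wd ξ1 ξ2 = 0 ∨ wd ξ1 ξ3 = 0 ∨ wd ξ2 ξ3 = 0 := by
  by_contra hcon
  push Not at hcon
  obtain ⟨h12, h13, h23⟩ := hcon
  obtain ⟨κ1, hκ1, f1⟩ := h1.fac hf
  obtain ⟨κ2, hκ2, f2⟩ := h2.fac hf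
  obtain ⟨κ3, hκ3, f3⟩ := h3.fac hf
  -- the η's are not parallel
  have hηne : ∀ {ξ η ξ' η' : C2}, Fib f ξ η → Fib f ξ' η' → wd ξ ξ' ≠ 0 → wd η η' ≠ 0 := by
    intro ξ η ξ' η' ha hb hne h0
    apply hne
    have e1 : wd (f η) ξ' = 0 := (hb.2.2 η ha.2.1).2 h0
    exact par_trans (hf.nz _ ha.2.1) (wd_eq_zero_comm.1 ha.value) e1
  have g12 := hηne h1 h2 h12
  have g13 := hηne h1 h3 h13
  have g23 := hηne h2 h3 h23
  -- coordinates
  set D := wd η1 η2 with hD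
  -- wd v η3 * D = wd η1 η3 * (wd v η2) - ... : Plücker
  have hpl : ∀ v, wd v η3 * D = wd v η2 * wd η1 η3 - wd v η1 * wd η2 η3 := by
    intro v; simp only [hD, wd]; ring
  have hpl' : ∀ v, wd (f v) ξ3 * wd ξ1 ξ2 = wd (f v) ξ2 * wd ξ1 ξ3 - wd (f v) ξ1 * wd ξ2 ξ3 := by
    intro v; simp only [wd]; ring
  have hsurj : ∀ x y : ℂ, ∃ v : C2, wd v η1 = x ∧ wd v η2 = y := by
    intro x y
    refine ⟨(D⁻¹ * y) • η1 - (D⁻¹ * x) • η2, ?_, ?_⟩
    · rw [wd_sub_left, wd_smul_left, wd_smul_left, wd_self, mul_zero, zero_sub, wd_swap η2 η1,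
        mul_neg, neg_neg, ← hD]
      field_simp
    · rw [wd_sub_left, wd_smul_left, wd_smul_left, wd_self, mul_zero, sub_zero, ← hD]
      field_simp
  obtain ⟨ω, hω, hω1⟩ := exists_root hd
  -- first point : wd v η3 = 0
  obtain ⟨v, hvx, hvy⟩ := hsurj (wd η1 η3) (wd η2 η3)
  obtain ⟨v', hvx', hvy'⟩ := hsurj (ω * wd η1 η3) (wd η2 η3)
  have e0 : wd v η3 = 0 := by
    have := hpl v
    rw [hvx, hvy] at this
    have h0 : wd v η3 * D = 0 := by rw [this]; ring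
    exact (mul_eq_zero.1 h0).resolve_right g12
  have e0' : wd v' η3 ≠ 0 := by
    intro h0
    have := hpl v'
    rw [hvx', hvy', h0, zero_mul] at this
    have h4 : (1 - ω) * (wd η1 η3 * wd η2 η3) = 0 := by linear_combination -this
    rcases mul_eq_zero.1 h4 with h5 | h5
    · exact hω1 (by linear_combination -h5)
    · exact mul_ne_zero g13 g23 h5
  have a1 := hpl' v
  have a2 := hpl' v'
  rw [f3, f2, f1, e0, zero_pow (by omega), hvx, hvy] at a1
  rw [f3, f2, f1, hvx', hvy', mul_pow, hω, one_mul] at a2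
  rw [← a1] at a2
  have : κ3 * wd v' η3 ^ d * wd ξ1 ξ2 ≠ 0 :=
    mul_ne_zero (mul_ne_zero hκ3 (pow_ne_zero _ e0')) h12
  apply this
  rw [a2]; ring

lemma fib_comp_iff {A B : RatFunc ℂ} (hA : 1 ≤ deg A) (hB : 1 ≤ deg B) {ξ η : C2} :
    Fib (RLift (comp A B)) ξ η ↔ Fib (fun v => RLift A (RLift B v)) ξ η := by
  obtain ⟨c, hc, h⟩ := RLift_comp hA hB
  unfold Fib
  refine and_congr_right fun _ => and_congr_right fun _ => forall_congr' fun v =>
    forall_congr' fun _ => ?_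
  show _ ↔ (wd (RLift A (RLift B v)) ξ = 0 ↔ wd v η = 0)
  rw [h, wd_smul_left, mul_eq_zero]
  simp [hc]

/-- (4) -/
lemma fib_cycle {d : ℕ} (hd : 2 ≤ d) {f : C2 → C2} (hf : IsLift d f) {ξ η : C2}
    (h : Fib (fun v => f (f (f v))) ξ η) :
    (∃ y, Fib f y y) ∨ ∃ y y', wd y y' ≠ 0 ∧ Fib f y y' ∧ Fib f y' y := by
  have hff : IsLift (d * d) (fun v => f (f v)) := isLift_comp hf hf
  have hdd : 1 ≤ d * d := Nat.mul_pos (by omega) (by omega)
  obtain ⟨h1, h2⟩ := Fib.of_comp (f := f) (g := fun v => f (f v)) hdd hf hff h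
  obtain ⟨h3, h4⟩ := Fib.of_comp (f := f) (g := f) (by omega) hf hf h2
  -- chain: Fib f ξ a, Fib f a b, Fib f b η
  set a := f (f η) with ha
  set b := f η with hb
  rcases fib_three hd hf h1 h3 h4 with h5 | h5 | h5
  · exact Or.inl ⟨a, h1.congr_left h3.1 h5⟩
  · -- ξ ∥ b
    have h6 : Fib f b a := h1.congr_left h4.1 h5
    by_cases h7 : wd b a = 0
    · exact Or.inl ⟨a, h6.congr_left h3.1 h7⟩
    · exact Or.inr ⟨b, a, h7, h6, h3⟩
  · exact Or.inl ⟨a, h3.congr_right h3.1 (wd_eq_zero_comm.1 h5)⟩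

/-- equality of rational functions from values -/
lemma eq_of_val {A B : RatFunc ℂ} {U : Set ℂ} (hU : U.Infinite)
    (h : ∀ z ∈ U, ∃ a, Val z A a ∧ Val z B a) : A = B := by
  apply eq_of_RLift_par hU
  intro z hz
  obtain ⟨a, h1, h2⟩ := h z hz
  obtain ⟨t1, -, e1⟩ := ne_zero_of_val h1
  obtain ⟨t2, -, e2⟩ := ne_zero_of_val h2
  rw [e1, e2, wd_smul_left, wd_smul_right, wd_self, mul_zero, mul_zero]

lemma val_lin (a b z : ℂ) :
    Val z (RatFunc.C a * RatFunc.X + RatFunc.C b) (a * z + b) :=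
  ((Val.const z a).mul (Val.X z)).add (Val.const z b)

/-- the Möbius coordinate `[wd v e' : wd v e]` -/
lemma val_mobius {e e' : C2} {z : ℂ} (h : wd (z, 1) e ≠ 0) :
    Val z (mob e'.2 (-e'.1) e.2 (-e.1)) (wd (z, 1) e' / wd (z, 1) e) := by
  have h1 : e.2 * z + -e.1 = wd (z, 1) e := by simp only [wd]; ring
  have h2 : e'.2 * z + -e'.1 = wd (z, 1) e' := by simp only [wd]; ring
  have := (val_lin e'.2 (-e'.1) z).div (val_lin e.2 (-e.1) z) (by rw [h1]; exact h)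
  rw [h1, h2] at this
  exact this

lemma finite_wd_zero {e : C2} (he : e ≠ 0) : {z : ℂ | wd (z, 1) e = 0}.Finite := by
  apply Set.Subsingleton.finite
  intro z hz w hw
  simp only [wd, mem_ofPred_eq, one_mul] at hz hw
  by_cases h2 : e.2 = 0
  · exfalso
    rw [h2, mul_zero, zero_sub, neg_eq_zero] at hz
    exact he (Prod.ext hz h2)
  · have : (z - w) * e.2 = 0 := by linear_combination hz - hw
    exact sub_eq_zero.1 ((mul_eq_zero.1 this).resolve_right h2)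

/-- (5) A non-special function cannot have two totally ramified invariant lines, nor a cycle of
two of them. `σ = false`: fixed lines, `σ = true`: 2-cycle. -/
lemma special_of_two {P : RatFunc ℂ} (hP : 2 ≤ deg P) {e e' : C2} (hne : wd e e' ≠ 0)
    (h : (Fib (RLift P) e e ∧ Fib (RLift P) e' e') ∨ (Fib (RLift P) e e' ∧ Fib (RLift P) e' e)) :
    Special P := by
  have he : e ≠ 0 := by rintro rfl; simp at hne
  have he' : e' ≠ 0 := by rintro rfl; simp at hne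
  have hL := isLift_RLift (A := P) (by omega)
  set M := mob e'.2 (-e'.1) e.2 (-e.1) with hM
  have hdet : e'.2 * -e.1 - -e'.1 * e.2 ≠ 0 := by
    intro h0; apply hne; simp only [wd]; linear_combination -h0
  have hMd : deg M = 1 := deg_mob hdet
  have nM : NC M := nc_of_deg hMd.ge
  have nP : NC P := nc_of_deg (by omega)
  -- the identity
  obtain ⟨c, n, hc, hid⟩ : ∃ (c : ℂ) (n : ℤ), c ≠ 0 ∧
      comp M P = comp (RatFunc.C c * RatFunc.X ^ n) M := by
    have hU : ({z : ℂ | ¬ reg P z} ∪ {z | wd (z, 1) e = 0} ∪ {z | wd (z, 1) e' = 0})ᶜ.Infinite := by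
      apply Set.Finite.infinite_compl
      refine (Set.Finite.union ?_ (finite_wd_zero he)).union (finite_wd_zero he')
      have : {z : ℂ | P.denom.eval z = 0}.Finite := Polynomial.finite_setOfPred_isRoot P.denom_ne_zero
      refine this.subset ?_
      intro z hz
      simp only [reg, mem_ofPred_eq, ne_eq, not_not] at hz
      exact hz
    rcases h with ⟨h1, h2⟩ | ⟨h1, h2⟩
    · obtain ⟨κ, hκ, f1⟩ := h1.fac hL
      obtain ⟨κ', hκ', f2⟩ := h2.fac hL
      refine ⟨κ' / κ, (deg P : ℤ), div_ne_zero hκ' hκ, ?_⟩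
      apply eq_of_val hU
      intro z hz
      simp only [mem_compl_iff, mem_union, mem_ofPred_eq, not_or, not_not] at hz
      obtain ⟨⟨hz1, hz2⟩, hz3⟩ := hz
      have hx : wd (ev P z, 1) e ≠ 0 := by
        intro h0
        have := f1 (z, 1)
        rw [RLift_pt_reg hz1, wd_smul_left, h0, mul_zero] at this
        exact mul_ne_zero hκ (pow_ne_zero _ hz2) this.symm
      refine ⟨_, Val.comp nP hz1.val (val_mobius hx), ?_⟩
      have hm : wd (z, 1) e' / wd (z, 1) e ≠ 0 := div_ne_zero hz3 hz2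
      have h3 := Val.comp nM (val_mobius (e' := e') hz2) (val_mon hm (κ' / κ) (deg P))
      have h4 : wd (ev P z, 1) e' / wd (ev P z, 1) e =
          κ' / κ * (wd (z, 1) e' / wd (z, 1) e) ^ (deg P : ℤ) := by
        have g1 := f1 (z, 1)
        have g2 := f2 (z, 1)
        rw [RLift_pt_reg hz1, wd_smul_left] at g1 g2
        have hd : P.denom.eval z ≠ 0 := hz1
        rw [zpow_natCast, div_pow, div_mul_div_comm, ← g1, ← g2, mul_div_mul_left _ _ hd]
      rw [h4]; exact h3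
    · obtain ⟨κ, hκ, f1⟩ := h1.fac hL
      obtain ⟨κ', hκ', f2⟩ := h2.fac hL
      refine ⟨κ' / κ, -(deg P : ℤ), div_ne_zero hκ' hκ, ?_⟩
      apply eq_of_val hU
      intro z hz
      simp only [mem_compl_iff, mem_union, mem_ofPred_eq, not_or, not_not] at hz
      obtain ⟨⟨hz1, hz2⟩, hz3⟩ := hz
      have hx : wd (ev P z, 1) e ≠ 0 := by
        intro h0
        have := f1 (z, 1)
        rw [RLift_pt_reg hz1, wd_smul_left, h0, mul_zero] at this
        exact mul_ne_zero hκ (pow_ne_zero _ hz3) this.symm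
      refine ⟨_, Val.comp nP hz1.val (val_mobius hx), ?_⟩
      have hm : wd (z, 1) e' / wd (z, 1) e ≠ 0 := div_ne_zero hz3 hz2
      have h3 := Val.comp nM (val_mobius (e' := e') hz2) (val_mon hm (κ' / κ) (-(deg P : ℤ)))
      have h4 : wd (ev P z, 1) e' / wd (ev P z, 1) e =
          κ' / κ * (wd (z, 1) e' / wd (z, 1) e) ^ (-(deg P : ℤ)) := by
        have g1 := f1 (z, 1)
        have g2 := f2 (z, 1)
        rw [RLift_pt_reg hz1, wd_smul_left] at g1 g2
        have hd : P.denom.eval z ≠ 0 := hz1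
        rw [zpow_neg, zpow_natCast, ← inv_pow, inv_div, div_pow, div_mul_div_comm, ← g1, ← g2,
          mul_div_mul_left _ _ hd]
      rw [h4]; exact h3
  obtain ⟨N, hN1, hN2, hN3⟩ := exists_mobInv hMd
  -- comp N M = X, comp M N = X
  have nN : NC N := nc_of_deg hN1.ge
  apply special_of_semiconj hP (F := N) (Or.inl hN1) hc (n := n)
  have hNX : NC (RatFunc.C c * RatFunc.X ^ n) := by
    apply nc_of_deg
    have h5 : deg (comp M P) = deg (RatFunc.C c * RatFunc.X ^ n) * deg M := by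
      rw [hid, deg_comp nM]
    rw [deg_comp nP, hMd, mul_one, one_mul] at h5
    rw [← h5]; omega
  have h6 : comp (comp M P) N = RatFunc.C c * RatFunc.X ^ n := by
    rw [hid, comp_assoc _ nM nN, hN3, comp_X]
  rw [← h6, comp_assoc M nP nN, ← comp_assoc N nM (nc_comp nP nN), hN2, X_comp]

/-- **Module X.** -/
theorem exists_exceptional {S : Set (RatFunc ℂ)} (hcomp : ∀ A ∈ S, ∀ B ∈ S, comp A B ∈ S)
    (hdeg : ∀ A ∈ S, 2 ≤ deg A) {P : RatFunc ℂ} (hP : P ∈ S) (hPs : ¬ Special P)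
    (hN : ∀ C ∈ S, ¬ NTR (deg C) (RLift C) univ) :
    ∃ e : C2, e ≠ 0 ∧ ∀ V ∈ S, ∀ v : C2, v ≠ 0 → (wd (RLift V v) e = 0 ↔ wd v e = 0) := by
  have hL : ∀ A ∈ S, IsLift (deg A) (RLift A) := fun A hA => isLift_RLift (by have := hdeg A hA; omega)
  have h1 : ∀ A ∈ S, 1 ≤ deg A := fun A hA => by have := hdeg A hA; omega
  -- (4) for elements of S
  have hcyc : ∀ W ∈ S, (∃ y, Fib (RLift W) y y) ∨
      ∃ y y', wd y y' ≠ 0 ∧ Fib (RLift W) y y' ∧ Fib (RLift W) y' y := by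
    intro W hW
    have hWW := hcomp W hW W hW
    have hWWW := hcomp W hW _ hWW
    obtain ⟨ξ, η, hfib⟩ := fib_of_not_ntr (h1 _ hWWW) (hL _ hWWW) (hN _ hWWW)
    rw [fib_comp_iff (h1 W hW) (h1 _ hWW)] at hfib
    obtain ⟨c, hc, hcc⟩ := RLift_comp (h1 W hW) (h1 W hW)
    have h3 : Fib (fun v => RLift W (RLift W (RLift W v))) ξ η := by
      refine ⟨hfib.1, hfib.2.1, fun v hv => ?_⟩
      rw [← hfib.2.2 v hv]
      simp only
      rw [hcc v, (hL W hW).hom, wd_smul_left, mul_eq_zero]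
      simp [hc]
    exact fib_cycle (hdeg W hW) (hL W hW) h3
  -- the exceptional line of P
  obtain ⟨e, he⟩ : ∃ e, Fib (RLift P) e e := by
    rcases hcyc P hP with h | ⟨y, y', hne, ha, hb⟩
    · exact h
    · exact absurd (special_of_two (hdeg P hP) hne (Or.inr ⟨ha, hb⟩)) hPs
  have hunique : ∀ y, Fib (RLift P) y y → wd y e = 0 := by
    intro y hy
    by_contra hne
    exact hPs (special_of_two (hdeg P hP) hne (Or.inl ⟨hy, he⟩))
  have hPL := hL P hP
  -- (6)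
  have h6 : ∀ y a, Fib (fun v => RLift P (RLift P (RLift P v))) y a → wd y e = 0 := by
    intro y a hya
    have hPP : IsLift (deg P * deg P) (fun v => RLift P (RLift P v)) := isLift_comp hPL hPL
    obtain ⟨g1, g2⟩ := Fib.of_comp (f := RLift P) (g := fun v => RLift P (RLift P v))
      (Nat.mul_pos (h1 P hP) (h1 P hP)) hPL hPP hya
    obtain ⟨g3, g4⟩ := Fib.of_comp (f := RLift P) (g := RLift P) (h1 P hP) hPL hPL g2
    set a' := RLift P (RLift P a) with ha'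
    by_contra hne
    rcases fib_three (hdeg P hP) hPL he g1 g3 with h5 | h5 | h5
    · exact hne (wd_eq_zero_comm.1 h5)
    · -- a' ∥ e
      have h7 : Fib (RLift P) y e := g1.congr_right he.1 (wd_eq_zero_comm.1 h5)
      have h8 := h7.value
      have h9 := he.value
      exact hne (par_trans (hPL.nz _ he.1) (wd_eq_zero_comm.1 h8) h9)
    · -- a' ∥ y
      exact hne (hunique y (g1.congr_right g1.1 (wd_eq_zero_comm.1 h5)))
  refine ⟨e, he.1, fun V hV => ?_⟩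
  -- (7)
  have hPPS := hcomp P hP P hP
  have hQS := hcomp P hP _ hPPS
  set Q := comp P (comp P P) with hQ
  have hQL := hL Q hQS
  have hQfib : ∀ {y a}, Fib (RLift Q) y a → Fib (fun v => RLift P (RLift P (RLift P v))) y a := by
    intro y a hya
    rw [hQ, fib_comp_iff (h1 P hP) (h1 _ hPPS)] at hya
    obtain ⟨c, hc, hcc⟩ := RLift_comp (h1 P hP) (h1 P hP)
    refine ⟨hya.1, hya.2.1, fun v hv => ?_⟩
    rw [← hya.2.2 v hv]
    simp only
    rw [hcc v, hPL.hom, wd_smul_left, mul_eq_zero]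
    simp [hc]
  have hWS := hcomp Q hQS V hV
  set W := comp Q V with hW
  have hWL := hL W hWS
  have key : ∀ {y a}, Fib (RLift W) y a → wd y e = 0 := by
    intro y a hya
    rw [hW, fib_comp_iff (h1 Q hQS) (h1 V hV)] at hya
    have := (Fib.of_comp (h1 V hV) hQL (hL V hV) hya).1
    exact h6 _ _ (hQfib this)
  obtain ⟨y, hy⟩ : ∃ y, Fib (RLift W) y y := by
    rcases hcyc W hWS with h | ⟨y, y', hne, ha, hb⟩
    · exact h
    · exact absurd (par_trans he.1 (key ha) (wd_eq_zero_comm.1 (key hb))) hne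
  have hye := key hy
  have hWe : Fib (RLift W) e e := (hy.congr_left he.1 hye).congr_right he.1 hye
  rw [hW, fib_comp_iff (h1 Q hQS) (h1 V hV)] at hWe
  obtain ⟨k1, k2⟩ := Fib.of_comp (h1 V hV) hQL (hL V hV) hWe
  -- P³ e e
  have hP3 : Fib (fun v => RLift P (RLift P (RLift P v))) e e :=
    Fib.comp (f := RLift P) (g := fun v => RLift P (RLift P v)) (isLift_comp hPL hPL) he
      (Fib.comp (f := RLift P) (g := RLift P) hPL he he)
  have hk1 := hQfib k1
  have hVe : RLift V e ≠ 0 := (hL V hV).nz _ he.1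
  have hpar : wd (RLift V e) e = 0 :=
    (hP3.2.2 _ hVe).1 ((hk1.2.2 _ hVe).2 (wd_self _))
  exact (k2.congr_left he.1 hpar).2.2

end Pool.Agent.Helper17.Dyn
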