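import Pool.Agent.Helper65.Base
import Pool.Agent.Helper56.Harm.A

/-! Module S0: the group of translation symmetries. -/

open Complex Metric Set Filter Topology InnerProductSpace

namespace Pool.Agent.Helper17.Dyn

open Pool.Agent.Helper65 Pool.Agent.Helper56.Harm

lemma harm_translate {u : ℂ → ℝ} {z a : ℂ} (hu : HarmonicAt u (z + a)) :
    HarmonicAt (fun x => u (x + a)) z :=
  harmonicAt_comp (h := fun x => x + a) hu (by fun_prop)

lemma harm_scale {u : ℂ → ℝ} {z a : ℂ} (hu : HarmonicAt u (a * z)) :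
    HarmonicAt (fun x => u (a * x)) z :=
  harmonicAt_comp (h := fun x => a * x) hu (by fun_prop)

lemma harm_congr {u v : ℂ → ℝ} {z : ℂ} (hu : HarmonicAt u z) (h : u =ᶠ[𝓝 z] v) :
    HarmonicAt v z := (harmonicAt_congr_nhds h).mp hu

lemma harm_const_mul {u : ℂ → ℝ} {z : ℂ} (c : ℝ) (hu : HarmonicAt u z) :
    HarmonicAt (fun x => c * u x) z := by
  have := hu.const_smul (c := c)
  exact this

lemma harm_sub {u v : ℂ → ℝ} {z : ℂ} (hu : HarmonicAt u z) (hv : HarmonicAt v z) :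
    HarmonicAt (fun x => u x - v x) z := hu.sub hv

lemma harm_add {u v : ℂ → ℝ} {z : ℂ} (hu : HarmonicAt u z) (hv : HarmonicAt v z) :
    HarmonicAt (fun x => u x + v x) z := hu.add hv

theorem tr_zero_mem {g : ℂ → ℝ} : (0 : ℂ) ∈ Tr g := by
  intro z _
  have : (fun z => g (z + 0) - g z) = fun _ : ℂ => (0 : ℝ) := by funext z; simp
  rw [this]
  exact harmonicAt_const 0

theorem tr_add {g : ℂ → ℝ} {a b : ℂ} (ha : a ∈ Tr g) (hb : b ∈ Tr g) : a + b ∈ Tr g := by
  intro z _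
  have h1 : HarmonicAt (fun x => g (x + a + b) - g (x + a)) z :=
    harm_translate (u := fun x => g (x + b) - g x) (hb (z + a) (mem_univ _))
  have h2 := harm_add h1 (ha z (mem_univ _))
  refine harm_congr h2 (Eventually.of_forall fun x => ?_)
  simp only [add_assoc]; ring

theorem tr_neg {g : ℂ → ℝ} {a : ℂ} (ha : a ∈ Tr g) : -a ∈ Tr g := by
  intro z _
  have h1 : HarmonicAt (fun x => g (x + -a + a) - g (x + -a)) z :=
    harm_translate (u := fun x => g (x + a) - g x) (ha (z + -a) (mem_univ _))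
  refine harm_congr h1.neg (Eventually.of_forall fun x => ?_)
  simp

theorem tr_sub {g : ℂ → ℝ} {a b : ℂ} (ha : a ∈ Tr g) (hb : b ∈ Tr g) : a - b ∈ Tr g := by
  rw [sub_eq_add_neg]; exact tr_add ha (tr_neg hb)

theorem tr_nsmul {g : ℂ → ℝ} {a : ℂ} (ha : a ∈ Tr g) (n : ℕ) : (n : ℂ) * a ∈ Tr g := by
  induction n with
  | zero => simpa using tr_zero_mem
  | succ n ih =>
    have := tr_add ih ha
    convert this using 1
    push_cast; ring

theorem tr_zsmul {g : ℂ → ℝ} {a : ℂ} (ha : a ∈ Tr g) (n : ℤ) : (n : ℂ) * a ∈ Tr g := by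
  obtain ⟨m, rfl | rfl⟩ := n.eq_nat_or_neg
  · simpa using tr_nsmul ha m
  · have := tr_neg (tr_nsmul ha m)
    convert this using 1
    push_cast; ring

/-- A function which is a locally uniform limit of harmonic functions is harmonic. -/
lemma harmonicOn_univ_of_approx {u : ℂ → ℝ}
    (h : ∀ R > 0, ∀ ε > 0, ∃ v : ℂ → ℝ, HarmonicOnNhd v (ball 0 R) ∧
      ∀ z ∈ ball (0 : ℂ) R, |u z - v z| ≤ ε) : HarmonicOnNhd u univ := by
  intro z _
  have hR : 0 < ‖z‖ + 1 := by positivity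
  exact harmonic_of_unif (c := 0) (R := ‖z‖ + 1) (fun ε hε => h _ hR ε hε) z (by simp)

/-- If `g` is continuous, `S j → (· + c)` and `t j → 1` then the symmetry passes to the limit. -/
lemma tr_of_limit {g : ℂ → ℝ} (hg : Continuous g) {c : ℂ}
    (h : ∀ R > 0, ∀ ε > 0, ∃ (S : ℂ → ℂ) (t : ℝ), |t - 1| ≤ ε ∧
      (∀ z ∈ ball (0 : ℂ) R, ‖S z - (z + c)‖ ≤ ε) ∧
      HarmonicOnNhd (fun z => g (S z) - t * g z) (ball 0 R)) : c ∈ Tr g := by
  apply harmonicOn_univ_of_approx
  intro R hR ε hε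
  -- uniform continuity on a compact ball
  have hK : IsCompact (closedBall (0 : ℂ) (R + ‖c‖ + 1)) := isCompact_closedBall _ _
  have huc := hK.uniformContinuousOn_of_continuous hg.continuousOn
  rw [Metric.uniformContinuousOn_iff] at huc
  obtain ⟨δ, hδ, hδ'⟩ := huc (ε / 2) (by positivity)
  obtain ⟨M, hM⟩ := (hK.image_of_continuousOn hg.continuousOn).isBounded.exists_norm_le
  have hM0 : 0 ≤ M := by
    have := hM (g 0) ⟨0, by simp; positivity, rfl⟩
    exact (norm_nonneg _).trans this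
  obtain ⟨S, t, ht, hS, hh⟩ := h R hR (min (min (δ / 2) 1) (ε / (2 * (M + 1)))) (by positivity)
  refine ⟨_, hh, fun z hz => ?_⟩
  have hz' : ‖z‖ < R := by simpa using hz
  have h1 : ‖S z - (z + c)‖ ≤ δ / 2 := (hS z hz).trans ((min_le_left _ _).trans (min_le_left _ _))
  have h2 : ‖S z - (z + c)‖ ≤ 1 := (hS z hz).trans ((min_le_left _ _).trans (min_le_right _ _))
  have h3 : |t - 1| ≤ ε / (2 * (M + 1)) := ht.trans (min_le_right _ _)
  have hzc : z + c ∈ closedBall (0 : ℂ) (R + ‖c‖ + 1) := by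
    rw [mem_closedBall_zero_iff]
    calc ‖z + c‖ ≤ ‖z‖ + ‖c‖ := norm_add_le _ _
      _ ≤ R + ‖c‖ + 1 := by linarith
  have hSz : S z ∈ closedBall (0 : ℂ) (R + ‖c‖ + 1) := by
    rw [mem_closedBall_zero_iff]
    calc ‖S z‖ = ‖(S z - (z + c)) + (z + c)‖ := by ring_nf
      _ ≤ ‖S z - (z + c)‖ + ‖z + c‖ := norm_add_le _ _
      _ ≤ 1 + (‖z‖ + ‖c‖) := add_le_add h2 (norm_add_le _ _)
      _ ≤ R + ‖c‖ + 1 := by linarith
  have hzK : z ∈ closedBall (0 : ℂ) (R + ‖c‖ + 1) := by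
    rw [mem_closedBall_zero_iff]
    have := norm_nonneg c
    linarith
  have h4 : |g (z + c) - g (S z)| ≤ ε / 2 := by
    have := hδ' (z + c) hzc (S z) hSz (by
      rw [dist_comm, dist_eq_norm]; linarith)
    rw [Real.dist_eq] at this
    exact this.le
  have h5 : |(t - 1) * g z| ≤ ε / 2 := by
    have hgz : |g z| ≤ M := hM (g z) ⟨z, hzK, rfl⟩
    rw [abs_mul]
    calc |t - 1| * |g z| ≤ ε / (2 * (M + 1)) * M :=
          mul_le_mul h3 hgz (abs_nonneg _) (by positivity)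
      _ ≤ ε / (2 * (M + 1)) * (M + 1) := by
          apply mul_le_mul_of_nonneg_left _ (by positivity); linarith
      _ = ε / 2 := by field_simp
  calc |g (z + c) - g z - (g (S z) - t * g z)|
      = |(g (z + c) - g (S z)) + (t - 1) * g z| := by ring_nf
    _ ≤ |g (z + c) - g (S z)| + |(t - 1) * g z| := abs_add_le _ _
    _ ≤ ε := by linarith

theorem tr_closed {g : ℂ → ℝ} (hg : Continuous g) : IsClosed (Tr g) := by
  rw [← isSeqClosed_iff_isClosed]
  intro c c0 hc hlim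
  apply tr_of_limit hg
  intro R hR ε hε
  rw [Metric.tendsto_atTop] at hlim
  obtain ⟨N, hN⟩ := hlim ε hε
  refine ⟨fun z => z + c N, 1, by simp; positivity, fun z _ => ?_, ?_⟩
  · have := (hN N le_rfl).le
    rw [dist_eq_norm] at this
    have e : (z + c N) - (z + c0) = c N - c0 := by ring
    change ‖(z + c N) - (z + c0)‖ ≤ ε
    rw [e]; exact this
  · intro z _
    have := hc N z (mem_univ _)
    simpa using this

theorem tr_scale {g : ℂ → ℝ} {lam : ℂ} {w : ℝ} (h : SymG g lam w) {c : ℂ} :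
    lam * c ∈ Tr g ↔ c ∈ Tr g := by
  have hl : lam ≠ 0 := by
    intro h0; have := h.hl; rw [h0, norm_zero] at this; linarith
  have hw : w ≠ 0 := by have := h.hw; positivity
  -- the harmonic function H
  have hH := h.sc
  constructor
  · intro hc z _
    -- w (g(z+c) - g z) = [g(λ(z+c)) - g(λ z)] - H(z+c) + H(z)
    have h1 : HarmonicAt (fun x => g (lam * x + lam * c) - g (lam * x)) z :=
      harm_scale (u := fun y => g (y + lam * c) - g y) (hc (lam * z) (mem_univ _))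
    have h2 : HarmonicAt (fun x => g (lam * (x + c)) - w * g (x + c)) z :=
      harm_translate (u := fun y => g (lam * y) - w * g y) (hH (z + c) (mem_univ _))
    have h3 := hH z (mem_univ _)
    have h4 := harm_const_mul (1 / w) (harm_add (harm_sub h1 h2) h3)
    refine harm_congr h4 (Eventually.of_forall fun x => ?_)
    simp only [mul_add]
    field_simp
    ring
  · intro hc z _
    -- put z = λ y
    have hz : lam * (lam⁻¹ * z) = z := by field_simp
    have h1 : HarmonicAt (fun x => g (x + c) - g x) (lam⁻¹ * z) := hc _ (mem_univ _)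
    have h2 : HarmonicAt (fun x => g (lam * (x + c)) - w * g (x + c)) (lam⁻¹ * z) :=
      harm_translate (u := fun y => g (lam * y) - w * g y) (hH _ (mem_univ _))
    have h3 := hH (lam⁻¹ * z) (mem_univ _)
    have h4 := harm_sub (harm_add (harm_const_mul w h1) h2) h3
    have h5 := harm_scale (a := lam⁻¹) (z := z) h4
    refine harm_congr h5 (Eventually.of_forall fun x => ?_)
    have e1 : lam * (lam⁻¹ * x + c) = x + lam * c := by field_simp
    have e2 : lam * (lam⁻¹ * x) = x := by field_simp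
    simp only [e1, e2]
    ring

lemma tr_scale_pow {g : ℂ → ℝ} {lam : ℂ} {w : ℝ} (h : SymG g lam w) {c : ℂ} (n : ℕ) :
    lam ^ n * c ∈ Tr g ↔ c ∈ Tr g := by
  induction n with
  | zero => simp
  | succ n ih =>
    rw [pow_succ', mul_assoc, tr_scale h, ih]

lemma tr_div_pow {g : ℂ → ℝ} {lam : ℂ} {w : ℝ} (h : SymG g lam w) {c : ℂ} (hc : c ∈ Tr g) (n : ℕ) :
    (lam ^ n)⁻¹ * c ∈ Tr g := by
  have hl : lam ≠ 0 := by
    intro h0; have := h.hl; rw [h0, norm_zero] at this; linarith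
  rw [← tr_scale_pow h n]
  have : lam ^ n * ((lam ^ n)⁻¹ * c) = c := by
    have := pow_ne_zero n hl
    field_simp
  rwa [this]

/-- S2 -/
theorem exists_dir {g : ℂ → ℝ} {lam : ℂ} {w : ℝ} (h : SymG g lam w) {c : ℂ} (hc : c ∈ Tr g)
    (hc0 : c ≠ 0) : ∃ v : ℂ, v ≠ 0 ∧ ∀ s : ℝ, (s : ℂ) * v ∈ Tr g := by
  have hl1 := h.hl
  let a : ℕ → ℂ := fun n => (lam ^ n)⁻¹ * c
  have ha : ∀ n, a n ∈ Tr g := fun n => tr_div_pow h hc n
  have han : ∀ n, ‖a n‖ = (‖lam‖⁻¹) ^ n * ‖c‖ := by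
    intro n; simp only [a, norm_mul, norm_inv, norm_pow, inv_pow]
  have ha0 : ∀ n, a n ≠ 0 := by
    intro n h0
    have := han n
    rw [h0, norm_zero] at this
    have : 0 < (‖lam‖⁻¹) ^ n * ‖c‖ := by
      have : 0 < ‖lam‖ := by linarith
      positivity
    linarith
  have hlim : Tendsto (fun n => ‖a n‖) atTop (𝓝 0) := by
    have h1 : Tendsto (fun n : ℕ => (‖lam‖⁻¹) ^ n) atTop (𝓝 0) :=
      tendsto_pow_atTop_nhds_zero_of_lt_one (by positivity) (inv_lt_one_of_one_lt₀ hl1)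
    have h2 := h1.mul_const ‖c‖
    rw [zero_mul] at h2
    refine h2.congr fun n => (han n).symm
  let u : ℕ → ℂ := fun n => ((‖a n‖⁻¹ : ℝ) : ℂ) * a n
  have hu : ∀ n, u n ∈ sphere (0 : ℂ) 1 := by
    intro n
    simp only [u, mem_sphere_iff_norm, sub_zero, norm_mul, Complex.norm_real, norm_inv, norm_norm]
    exact inv_mul_cancel₀ (norm_ne_zero_iff.mpr (ha0 n))
  obtain ⟨v, hv, φ, hφ, hlimv⟩ := (isCompact_sphere (0 : ℂ) 1).tendsto_subseq hu
  refine ⟨v, ?_, ?_⟩
  · rintro rfl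
    simp at hv
  · intro s
    apply (tr_closed h.cont).mem_of_tendsto (f := fun k : ℕ =>
      ((⌊s / ‖a (φ k)‖⌋ : ℤ) : ℂ) * a (φ k)) (b := atTop)
    · -- limit
      have hr : Tendsto (fun k : ℕ => ((⌊s / ‖a (φ k)‖⌋ : ℤ) : ℝ) * ‖a (φ k)‖) atTop (𝓝 s) := by
        have hlim' := hlim.comp hφ.tendsto_atTop
        rw [← tendsto_sub_nhds_zero_iff]
        apply squeeze_zero_norm (a := fun k => ‖a (φ k)‖) _ hlim'
        intro k
        have hpos : 0 < ‖a (φ k)‖ := norm_pos_iff.mpr (ha0 _)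
        have e : ((⌊s / ‖a (φ k)‖⌋ : ℤ) : ℝ) * ‖a (φ k)‖ - s =
            -(Int.fract (s / ‖a (φ k)‖)) * ‖a (φ k)‖ := by
          rw [Int.fract]
          field_simp
          ring
        rw [e, norm_mul, norm_neg, norm_norm, Real.norm_eq_abs,
          abs_of_nonneg (Int.fract_nonneg _)]
        calc Int.fract (s / ‖a (φ k)‖) * ‖a (φ k)‖ ≤ 1 * ‖a (φ k)‖ :=
              mul_le_mul_of_nonneg_right (Int.fract_lt_one _).le hpos.le
          _ = ‖a (φ k)‖ := one_mul _
      have hr' : Tendsto (fun k : ℕ => (((((⌊s / ‖a (φ k)‖⌋ : ℤ) : ℝ) * ‖a (φ k)‖ : ℝ)) : ℂ))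
          atTop (𝓝 (s : ℂ)) := (Complex.continuous_ofReal.tendsto s).comp hr
      have := hr'.mul hlimv
      refine this.congr fun k => ?_
      simp only [Function.comp, u]
      have hne : (‖a (φ k)‖ : ℂ) ≠ 0 := by
        exact_mod_cast norm_ne_zero_iff.mpr (ha0 (φ k))
      push_cast
      field_simp
    · exact Eventually.of_forall fun k => tr_zsmul (ha _) _

end Pool.Agent.Helper17.Dyn
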