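import Pool.Agent.Helper17.Dyn.Sym0

/-! Module S1: nearby symmetries give translations. -/

open Complex Metric Set Filter Topology InnerProductSpace

namespace Pool.Agent.Helper17.Dyn

open Pool.Agent.Helper65 Pool.Agent.Helper56.Harm

/-- Local inverse of a holomorphic function with non-zero derivative. -/
lemma exists_local_inv {β : ℂ → ℂ} {x : ℂ} (hβ : AnalyticAt ℂ β x) (hβ' : deriv β x ≠ 0) {ε : ℝ}
    (hε : 0 < ε) :
    ∃ (r ρ : ℝ) (γ : ℂ → ℂ), 0 < r ∧ r ≤ ε ∧ 0 < ρ ∧ DifferentiableOn ℂ β (ball x r) ∧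
      (∀ z ∈ ball x r, deriv β z ≠ 0) ∧ DifferentiableOn ℂ γ (ball (β x) ρ) ∧
      MapsTo γ (ball (β x) ρ) (ball x r) ∧ (∀ y ∈ ball (β x) ρ, β (γ y) = y) ∧
      InjOn β (ball x r) := by
  have hs := hβ.hasStrictDerivAt.hasStrictFDerivAt_equiv hβ'
  let e := hs.toOpenPartialHomeomorph β
  have he : (e : ℂ → ℂ) = β := rfl
  have hx : x ∈ e.source := hs.mem_toOpenPartialHomeomorph_source
  -- a ball in the source where β is differentiable with nonzero derivative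
  have h1 : ∀ᶠ z in 𝓝 x, z ∈ e.source := e.open_source.mem_nhds hx
  have h2 : ∀ᶠ z in 𝓝 x, AnalyticAt ℂ β z := hβ.eventually_analyticAt
  have h3 : ∀ᶠ z in 𝓝 x, deriv β z ≠ 0 := hβ.deriv.continuousAt.eventually_ne hβ'
  obtain ⟨r0, hr0, hball⟩ := Metric.eventually_nhds_iff_ball.mp (h1.and (h2.and h3))
  set r := min r0 ε with hr
  have hrpos : 0 < r := lt_min hr0 hε
  have hrb : ∀ z ∈ ball x r, z ∈ e.source ∧ AnalyticAt ℂ β z ∧ deriv β z ≠ 0 := fun z hz =>
    hball z (ball_subset_ball (min_le_left _ _) hz)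
  -- the image
  have hopen : IsOpen (e.target ∩ e.symm ⁻¹' ball x r) :=
    e.symm.isOpen_inter_preimage isOpen_ball
  have hmem : β x ∈ e.target ∩ e.symm ⁻¹' ball x r := by
    refine ⟨e.map_source hx, ?_⟩
    have : e.symm (β x) = x := e.left_inv hx
    rw [mem_preimage, this]
    exact mem_ball_self hrpos
  obtain ⟨ρ, hρ, hρb⟩ := Metric.isOpen_iff.mp hopen _ hmem
  refine ⟨r, ρ, e.symm, hrpos, min_le_right _ _, hρ, fun z hz =>
    (hrb z hz).2.1.differentiableAt.differentiableWithinAt, fun z hz => (hrb z hz).2.2, ?_, ?_, ?_, ?_⟩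
  · intro y hy
    have hy' := hρb hy
    have hz := hrb _ hy'.2
    have := e.hasDerivAt_symm hy'.1 hz.2.2 hz.2.1.differentiableAt.hasDerivAt
    exact this.differentiableAt.differentiableWithinAt
  · intro y hy
    exact (hρb hy).2
  · intro y hy
    exact e.right_inv (hρb hy).1
  · intro a ha b hb hab
    exact e.injOn (hrb a ha).1 (hrb b hb).1 hab

/-- `σ` is a symmetry of `g` with factor `t`, `η`-close to the identity, on the ball. -/
structure Near (g : ℂ → ℝ) (x : ℂ) (ρ η : ℝ) (σ : ℂ → ℂ) (t : ℝ) : Prop where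
  diff : DifferentiableOn ℂ σ (ball x ρ)
  close : ∀ z ∈ ball x ρ, ‖σ z - z‖ ≤ η
  ht : |t - 1| ≤ η
  harm : HarmonicOnNhd (fun z => g (σ z) - t * g z) (ball x ρ)

/-- Transport of symmetries through a local symmetry `β`. -/
lemma transport {g : ℂ → ℝ} {β : ℂ → ℂ} (hβ : AnalyticAt ℂ β 0) (hβ' : deriv β 0 ≠ 0) {s : ℝ}
    (hs : s ≠ 0) (hβg : HarmonicAt (fun z => g (β z) - s * g z) 0) {ρ : ℝ} (hρ : 0 < ρ) :
    ∃ (γ : ℂ → ℂ) (ρ' : ℝ), 0 < ρ' ∧ ContinuousAt β 0 ∧ ∀ ε > 0, ∃ η > 0, ∀ σ t,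
      Near g (β 0) ρ η σ t → Near g 0 ρ' ε (fun z => γ (σ (β z))) t ∧
        ∀ z ∈ ball (0 : ℂ) ρ', γ (σ (β z)) = z ↔ σ (β z) = β z := by
  -- radius of harmonicity
  obtain ⟨ε1, hε1, hharm⟩ := Metric.eventually_nhds_iff_ball.mp hβg.eventually
  obtain ⟨r, ρ1, γ, hr, hrε, hρ1, hβd, hβd', hγd, hγm, hγr, hinj⟩ :=
    exists_local_inv hβ hβ' hε1
  have hβharm : ∀ z ∈ ball (0 : ℂ) r, HarmonicAt (fun z => g (β z) - s * g z) z := fun z hz =>
    hharm z (ball_subset_ball hrε hz)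
  set ρ2 := min (ρ1 / 2) ρ with hρ2
  have hρ2pos : 0 < ρ2 := lt_min (by positivity) hρ
  -- choice of ρ'
  have hcont : ContinuousAt β 0 := hβ.continuousAt
  obtain ⟨r', hr', hr'b⟩ := Metric.continuousAt_iff.mp hcont (ρ2 / 2) (by positivity)
  set ρ' := min r r' with hρ'
  have hρ'pos : 0 < ρ' := lt_min hr hr'
  have hβmap : ∀ z ∈ ball (0 : ℂ) ρ', β z ∈ ball (β 0) (ρ2 / 2) := by
    intro z hz
    exact hr'b (lt_of_lt_of_le (mem_ball.mp hz) (min_le_right _ _))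
  have hzr : ∀ z ∈ ball (0 : ℂ) ρ', z ∈ ball (0 : ℂ) r := fun z hz =>
    ball_subset_ball (min_le_left _ _) hz
  -- uniform continuity of γ
  have hK : IsCompact (closedBall (β 0) (ρ1 * (3 / 4))) := isCompact_closedBall _ _
  have hKsub : closedBall (β 0) (ρ1 * (3 / 4)) ⊆ ball (β 0) ρ1 := closedBall_subset_ball (by linarith)
  have huc := hK.uniformContinuousOn_of_continuous (hγd.continuousOn.mono hKsub)
  rw [Metric.uniformContinuousOn_iff] at huc
  refine ⟨γ, ρ', hρ'pos, hcont, fun ε hε => ?_⟩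
  obtain ⟨δ, hδ, hδ'⟩ := huc ε hε
  refine ⟨min (min (δ / 2) ε) (ρ2 / 4), by positivity, fun σ t hN => ?_⟩
  have hβρ : ∀ z ∈ ball (0 : ℂ) ρ', β z ∈ ball (β 0) ρ := by
    intro z hz
    refine ball_subset_ball ?_ (hβmap z hz)
    have : ρ2 ≤ ρ := min_le_right _ _
    linarith
  have hσin : ∀ z ∈ ball (0 : ℂ) ρ', σ (β z) ∈ ball (β 0) (ρ1 * (3 / 4)) := by
    intro z hz
    have h1 := hN.close _ (hβρ z hz)
    have h2 : ‖σ (β z) - β z‖ ≤ ρ2 / 4 := h1.trans (min_le_right _ _)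
    have h3 := hβmap z hz
    rw [mem_ball, dist_eq_norm] at h3 ⊢
    have h4 : ρ2 ≤ ρ1 / 2 := min_le_left _ _
    calc ‖σ (β z) - β 0‖ = ‖(σ (β z) - β z) + (β z - β 0)‖ := by ring_nf
      _ ≤ ‖σ (β z) - β z‖ + ‖β z - β 0‖ := norm_add_le _ _
      _ < ρ1 * (3 / 4) := by linarith
  have hσin1 : ∀ z ∈ ball (0 : ℂ) ρ', σ (β z) ∈ ball (β 0) ρ1 := fun z hz =>
    ball_subset_ball (by linarith) (hσin z hz)
  have hβin1 : ∀ z ∈ ball (0 : ℂ) ρ', β z ∈ ball (β 0) ρ1 := fun z hz =>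
    ball_subset_ball (by
      have : ρ2 ≤ ρ1 / 2 := min_le_left _ _
      linarith) (hβmap z hz)
  have hγβ : ∀ z ∈ ball (0 : ℂ) ρ', γ (β z) = z := by
    intro z hz
    apply hinj (hγm (hβin1 z hz)) (hzr z hz)
    exact hγr _ (hβin1 z hz)
  refine ⟨⟨?_, ?_, hN.ht.trans ((min_le_left _ _).trans (min_le_right _ _)), ?_⟩, ?_⟩
  · -- differentiability
    intro z hz
    have d1 : DifferentiableAt ℂ β z :=
      (hβd z (hzr z hz)).differentiableAt (isOpen_ball.mem_nhds (hzr z hz))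
    have d2 : DifferentiableAt ℂ σ (β z) :=
      (hN.diff _ (hβρ z hz)).differentiableAt (isOpen_ball.mem_nhds (hβρ z hz))
    have d3 : DifferentiableAt ℂ γ (σ (β z)) :=
      (hγd _ (hσin1 z hz)).differentiableAt (isOpen_ball.mem_nhds (hσin1 z hz))
    exact (d3.comp z (d2.comp z d1)).differentiableWithinAt
  · intro z hz
    have h1 := hN.close _ (hβρ z hz)
    have h2 : ‖σ (β z) - β z‖ ≤ δ / 2 := h1.trans ((min_le_left _ _).trans (min_le_left _ _))
    have h3 := hδ' (σ (β z)) (ball_subset_closedBall (hσin z hz)) (β z)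
      (ball_subset_closedBall (ball_subset_ball (by
        have : ρ2 ≤ ρ1 / 2 := min_le_left _ _
        linarith) (hβmap z hz))) (by rw [dist_eq_norm]; linarith)
    rw [hγβ z hz, dist_eq_norm] at h3
    exact h3.le
  · -- harmonicity
    intro z hz
    have a1 : AnalyticAt ℂ β z :=
      hβd.analyticAt (isOpen_ball.mem_nhds (hzr z hz))
    have a2 : AnalyticAt ℂ σ (β z) := hN.diff.analyticAt (isOpen_ball.mem_nhds (hβρ z hz))
    have a3 : AnalyticAt ℂ γ (σ (β z)) := hγd.analyticAt (isOpen_ball.mem_nhds (hσin1 z hz))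
    -- m z = g (β z) - s g z
    have hm := hβharm z (hzr z hz)
    -- l y = g (σ y) - t g y at y = β z
    have hl : HarmonicAt (fun x => g (σ (β x)) - t * g (β x)) z :=
      harmonicAt_comp (h := β) (hN.harm _ (hβρ z hz)) a1
    -- k Y = g (β (γ Y)) - s g (γ Y) at Y = σ (β z)
    have hk : HarmonicAt (fun x => g (β (γ (σ (β x)))) - s * g (γ (σ (β x)))) z := by
      have a12 : AnalyticAt ℂ (fun x => σ (β x)) z := a2.comp a1
      have a4 : AnalyticAt ℂ (fun x => γ (σ (β x))) z :=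
        AnalyticAt.comp (g := γ) (f := fun x => σ (β x)) a3 a12
      exact harmonicAt_comp (u := fun z => g (β z) - s * g z) (h := fun x => γ (σ (β x)))
        (hβharm _ (hγm (hσin1 z hz))) a4
    have hsum := harm_const_mul (1 / s) (harm_sub (harm_add hl (harm_const_mul t hm)) hk)
    refine harm_congr hsum ?_
    filter_upwards [isOpen_ball.mem_nhds hz] with x hx
    have e : β (γ (σ (β x))) = σ (β x) := hγr _ (hσin1 x hx)
    rw [e]
    field_simp
    ring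
  · intro z hz
    constructor
    · intro h
      have := hγr _ (hσin1 z hz)
      rw [h] at this
      exact this.symm
    · intro h
      rw [h, hγβ z hz]

lemma symG_pow {g : ℂ → ℝ} {lam : ℂ} {w : ℝ} (h : SymG g lam w) (m : ℕ) :
    HarmonicOnNhd (fun z => g (lam ^ m * z) - w ^ m * g z) univ := by
  induction m with
  | zero =>
    intro z _
    have : (fun z => g (lam ^ 0 * z) - w ^ 0 * g z) = fun _ : ℂ => (0 : ℝ) := by
      funext z; simp
    rw [this]; exact harmonicAt_const 0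
  | succ m ih =>
    intro z _
    have h1 : HarmonicAt (fun x => g (lam ^ m * (lam * x)) - w ^ m * g (lam * x)) z :=
      harm_scale (u := fun z => g (lam ^ m * z) - w ^ m * g z) (ih (lam * z) (mem_univ _))
    have h2 := harm_const_mul (w ^ m) (h.sc z (mem_univ _))
    refine harm_congr (harm_add h1 h2) (Eventually.of_forall fun x => ?_)
    simp only [pow_succ]
    rw [mul_assoc (lam ^ m) lam x]
    ring

/-- Scaling of a symmetry based at `0`. -/
lemma scale_symm {g : ℂ → ℝ} {lam : ℂ} {w : ℝ} (h : SymG g lam w) {σ : ℂ → ℂ} {t ρ : ℝ}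
    (hd : DifferentiableOn ℂ σ (ball 0 ρ))
    (hh : HarmonicOnNhd (fun z => g (σ z) - t * g z) (ball 0 ρ)) (m : ℕ) :
    DifferentiableOn ℂ (fun z => lam ^ m * σ ((lam ^ m)⁻¹ * z)) (ball 0 (ρ * ‖lam‖ ^ m)) ∧
    HarmonicOnNhd (fun z => g (lam ^ m * σ ((lam ^ m)⁻¹ * z)) - t * g z)
      (ball 0 (ρ * ‖lam‖ ^ m)) := by
  have hl1 := h.hl
  have hlne : lam ≠ 0 := by rintro rfl; rw [norm_zero] at hl1; linarith
  have hpne : lam ^ m ≠ 0 := pow_ne_zero m hlne
  have hmap : ∀ z ∈ ball (0 : ℂ) (ρ * ‖lam‖ ^ m), (lam ^ m)⁻¹ * z ∈ ball (0 : ℂ) ρ := by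
    intro z hz
    rw [mem_ball_zero_iff] at hz ⊢
    rw [norm_mul, norm_inv, norm_pow]
    have hp : 0 < ‖lam‖ ^ m := by positivity
    rw [inv_mul_lt_iff₀ hp]
    linarith
  constructor
  · intro z hz
    have d1 : DifferentiableAt ℂ σ ((lam ^ m)⁻¹ * z) :=
      (hd _ (hmap z hz)).differentiableAt (isOpen_ball.mem_nhds (hmap z hz))
    have d2 : DifferentiableAt ℂ (fun z => (lam ^ m)⁻¹ * z) z := by fun_prop
    exact ((d1.comp z d2).const_mul (lam ^ m)).differentiableWithinAt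
  · intro z hz
    have hy := hmap z hz
    have a2 : AnalyticAt ℂ σ ((lam ^ m)⁻¹ * z) := hd.analyticAt (isOpen_ball.mem_nhds hy)
    have a1 : AnalyticAt ℂ (fun z : ℂ => (lam ^ m)⁻¹ * z) z := by fun_prop
    have hH := symG_pow h m
    have h1 : HarmonicAt (fun x => g (lam ^ m * σ ((lam ^ m)⁻¹ * x)) -
        w ^ m * g (σ ((lam ^ m)⁻¹ * x))) z :=
      harmonicAt_comp (u := fun z => g (lam ^ m * z) - w ^ m * g z)
        (h := fun x => σ ((lam ^ m)⁻¹ * x)) (hH _ (mem_univ _)) (a2.comp a1)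
    have h2 : HarmonicAt (fun x => g (σ ((lam ^ m)⁻¹ * x)) - t * g ((lam ^ m)⁻¹ * x)) z :=
      harmonicAt_comp (u := fun z => g (σ z) - t * g z) (h := fun x => (lam ^ m)⁻¹ * x)
        (hh _ hy) a1
    have h3 : HarmonicAt (fun x => g (lam ^ m * ((lam ^ m)⁻¹ * x)) -
        w ^ m * g ((lam ^ m)⁻¹ * x)) z :=
      harmonicAt_comp (u := fun z => g (lam ^ m * z) - w ^ m * g z)
        (h := fun x => (lam ^ m)⁻¹ * x) (hH _ (mem_univ _)) a1
    have h4 := harm_sub (harm_add h1 (harm_const_mul (w ^ m) h2)) (harm_const_mul t h3)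
    refine harm_congr h4 (Eventually.of_forall fun x => ?_)
    have e : lam ^ m * ((lam ^ m)⁻¹ * x) = x := by field_simp
    simp only [e]
    ring

/-- Schwarz lemma for the displacement. -/
lemma displacement {σ : ℂ → ℂ} {ρ η : ℝ} (hρ : 0 < ρ) (hη : 0 < η)
    (hd : DifferentiableOn ℂ σ (ball 0 ρ)) (hc : ∀ z ∈ ball (0 : ℂ) ρ, ‖σ z - z‖ ≤ η) {z : ℂ}
    (hz : z ∈ ball (0 : ℂ) ρ) : ‖(σ z - z) - σ 0‖ ≤ 3 * η / ρ * ‖z‖ := by
  have hd' : DifferentiableOn ℂ (fun z => σ z - z) (ball 0 ρ) := hd.sub differentiableOn_id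
  have hmap : MapsTo (fun z => σ z - z) (ball 0 ρ) (closedBall ((fun z => σ z - z) 0) (3 * η)) := by
    intro y hy
    have h1 := hc y hy
    have h2 := hc 0 (mem_ball_self hρ)
    rw [mem_closedBall, dist_eq_norm]
    calc ‖(σ y - y) - (σ 0 - 0)‖ ≤ ‖σ y - y‖ + ‖σ 0 - 0‖ := norm_sub_le _ _
      _ ≤ 3 * η := by linarith
  have := Complex.dist_le_div_mul_dist_of_mapsTo_ball hd' hmap hz
  rw [dist_eq_norm, dist_zero_right] at this
  simpa using this

end Pool.Agent.Helper17.Dyn
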