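import Pool.Agent.Helper17.Dyn.Sym1

/-! Module S1: nearby symmetries give translations (conclusion). -/

open Complex Metric Set Filter Topology InnerProductSpace

namespace Pool.Agent.Helper17.Dyn

open Pool.Agent.Helper65 Pool.Agent.Helper56.Harm

lemma Near.mono {g : ℂ → ℝ} {x : ℂ} {ρ η η' : ℝ} {σ : ℂ → ℂ} {t : ℝ} (h : Near g x ρ η σ t)
    (hη : η ≤ η') : Near g x ρ η' σ t :=
  ⟨h.diff, fun z hz => (h.close z hz).trans hη, h.ht.trans hη, h.harm⟩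

/-- Symmetries moving the base point. -/
lemma exists_tr0 {g : ℂ → ℝ} {lam : ℂ} {w : ℝ} (h : SymG g lam w) {ρ : ℝ} (hρ : 0 < ρ)
    (hσ : ∀ η > 0, ∃ σ t, Near g 0 ρ η σ t ∧ σ 0 ≠ 0) : ∃ c ∈ Tr g, c ≠ 0 := by
  have hl1 := h.hl
  have hlpos : 0 < ‖lam‖ := by linarith
  have hlne : lam ≠ 0 := norm_pos_iff.mp hlpos
  have hη : ∀ n : ℕ, 0 < (1 : ℝ) / (n + 1) := fun n => by positivity
  choose! σ t hN hne using fun n : ℕ => hσ (1 / ((n : ℝ) + 1)) (hη n)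
  -- the sizes
  have hsmall : ∀ n, ‖σ n 0‖ ≤ 1 / ((n : ℝ) + 1) := by
    intro n
    have := (hN n).close 0 (mem_ball_self hρ)
    simpa using this
  have hex : ∀ n, ∃ m : ℕ, 1 ≤ ‖lam‖ ^ m * ‖σ n 0‖ ∧ ‖lam‖ ^ m * ‖σ n 0‖ ≤ ‖lam‖ := by
    intro n
    have hpos : 0 < ‖σ n 0‖ := norm_pos_iff.mpr (hne n)
    have hle1 : ‖σ n 0‖ ≤ 1 := by
      refine (hsmall n).trans ?_
      rw [div_le_one (by positivity)]
      have : (0:ℝ) ≤ n := Nat.cast_nonneg n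
      linarith
    obtain ⟨k, hk1, hk2⟩ := exists_nat_pow_near (x := 1 / ‖σ n 0‖) (y := ‖lam‖)
      (by rw [le_div_iff₀ hpos]; linarith) hl1
    refine ⟨k + 1, ?_, ?_⟩
    · rw [div_lt_iff₀ hpos] at hk2
      exact hk2.le
    · rw [le_div_iff₀ hpos] at hk1
      rw [pow_succ']
      calc ‖lam‖ * ‖lam‖ ^ k * ‖σ n 0‖ = ‖lam‖ * (‖lam‖ ^ k * ‖σ n 0‖) := by ring
        _ ≤ ‖lam‖ * 1 := mul_le_mul_of_nonneg_left hk1 hlpos.le
        _ = ‖lam‖ := mul_one _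
  choose m hm1 hm2 using hex
  let c : ℕ → ℂ := fun n => lam ^ (m n) * σ n 0
  have hcn : ∀ n, ‖c n‖ = ‖lam‖ ^ (m n) * ‖σ n 0‖ := fun n => by simp [c]
  have hcb : ∀ n, c n ∈ closedBall (0 : ℂ) ‖lam‖ := fun n => by
    rw [mem_closedBall_zero_iff, hcn]; exact hm2 n
  obtain ⟨c0, -, φ, hφ, hlim⟩ := (isCompact_closedBall (0 : ℂ) ‖lam‖).tendsto_subseq hcb
  refine ⟨c0, ?_, ?_⟩
  · apply tr_of_limit h.cont
    intro R hR ε hε
    rw [Metric.tendsto_atTop] at hlim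
    obtain ⟨N1, hN1⟩ := hlim (ε / 2) (by positivity)
    -- small η
    obtain ⟨N2, hN2⟩ := exists_nat_gt (1 / min (min ε (ρ / R)) (ε * ρ / (6 * R)))
    set k := max N1 N2 with hk
    have hmin : 0 < min (min ε (ρ / R)) (ε * ρ / (6 * R)) := by positivity
    have hηk : 1 / (((φ k : ℕ) : ℝ) + 1) ≤ min (min ε (ρ / R)) (ε * ρ / (6 * R)) := by
      rw [div_le_iff₀ (by positivity)]
      rw [div_lt_iff₀ hmin] at hN2
      have h1 : (N2 : ℝ) ≤ (φ k : ℝ) := by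
        exact_mod_cast (le_max_right N1 N2).trans (hφ.id_le k)
      nlinarith
    set n := φ k with hn
    set η := 1 / ((n : ℝ) + 1) with hηdef
    have hη0 : 0 < η := hη n
    have hη1 : η ≤ ε := hηk.trans ((min_le_left _ _).trans (min_le_left _ _))
    have hη2 : η ≤ ρ / R := hηk.trans ((min_le_left _ _).trans (min_le_right _ _))
    have hη3 : η ≤ ε * ρ / (6 * R) := hηk.trans (min_le_right _ _)
    have hck : ‖c n - c0‖ ≤ ε / 2 := by
      have := hN1 k (le_max_left _ _)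
      rw [Function.comp, dist_eq_norm] at this
      exact this.le
    have hbig : R ≤ ρ * ‖lam‖ ^ (m n) := by
      have h1 := hm1 n
      have h2 : ‖σ n 0‖ ≤ η := hsmall n
      have h3 : 1 ≤ ‖lam‖ ^ (m n) * η :=
        h1.trans (mul_le_mul_of_nonneg_left h2 (by positivity))
      rw [le_div_iff₀ hR] at hη2
      have h4 : 0 < ‖lam‖ ^ (m n) := by positivity
      nlinarith
    obtain ⟨hd, hh⟩ := scale_symm h (hN n).diff (hN n).harm (m n)
    refine ⟨fun z => lam ^ (m n) * σ n ((lam ^ (m n))⁻¹ * z), t n, (hN n).ht.trans hη1, ?_,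
      hh.mono (ball_subset_ball hbig)⟩
    intro z hz
    have hp : lam ^ (m n) ≠ 0 := pow_ne_zero _ hlne
    have hz' : ‖z‖ < R := by simpa using hz
    have hy : (lam ^ (m n))⁻¹ * z ∈ ball (0 : ℂ) ρ := by
      rw [mem_ball_zero_iff, norm_mul, norm_inv, norm_pow, inv_mul_lt_iff₀ (by positivity)]
      linarith
    have hdis := displacement hρ hη0 (hN n).diff (hN n).close hy
    have e : lam ^ (m n) * σ n ((lam ^ (m n))⁻¹ * z) - (z + c0) =
        lam ^ (m n) * ((σ n ((lam ^ (m n))⁻¹ * z) - (lam ^ (m n))⁻¹ * z) - σ n 0) +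
          (c n - c0) := by
      simp only [c]
      field_simp
      ring
    rw [e]
    calc ‖lam ^ (m n) * ((σ n ((lam ^ (m n))⁻¹ * z) - (lam ^ (m n))⁻¹ * z) - σ n 0) + (c n - c0)‖
        ≤ ‖lam ^ (m n) * ((σ n ((lam ^ (m n))⁻¹ * z) - (lam ^ (m n))⁻¹ * z) - σ n 0)‖ +
          ‖c n - c0‖ := norm_add_le _ _
      _ ≤ ‖lam‖ ^ (m n) * (3 * η / ρ * ‖(lam ^ (m n))⁻¹ * z‖) + ε / 2 := by
          rw [norm_mul, norm_pow]
          exact add_le_add (mul_le_mul_of_nonneg_left hdis (by positivity)) hck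
      _ = 3 * η / ρ * ‖z‖ + ε / 2 := by
          rw [norm_mul, norm_inv, norm_pow]
          have : ‖lam‖ ^ (m n) ≠ 0 := by positivity
          field_simp
      _ ≤ ε / 2 + ε / 2 := by
          have h1 : 3 * η / ρ * ‖z‖ ≤ ε / 2 := by
            have h2 : 3 * η / ρ * ‖z‖ ≤ 3 * η / ρ * R :=
              mul_le_mul_of_nonneg_left hz'.le (by positivity)
            have h3 : 3 * η / ρ * R ≤ ε / 2 := by
              rw [le_div_iff₀ (by positivity)] at hη3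
              rw [div_mul_eq_mul_div, div_le_iff₀ hρ]
              nlinarith
            linarith
          linarith
      _ = ε := by ring
  · intro h0
    have hge : ∀ k, 1 ≤ ‖c (φ k)‖ := fun k => by rw [hcn]; exact hm1 _
    have : 1 ≤ ‖c0‖ := ge_of_tendsto hlim.norm (Eventually.of_forall hge)
    rw [h0, norm_zero] at this
    linarith

/-- Symmetries fixing the base point. -/
lemma exists_tr_fix {g : ℂ → ℝ} {lam : ℂ} {w : ℝ} (h : SymG g lam w)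
    {δ : ℂ → ℂ} (hδ : AnalyticAt ℂ δ 0) (hδ0 : δ 0 ≠ 0) (hδ' : deriv δ 0 ≠ 0)
    (hδg : HarmonicAt (fun z => g (δ z) - g z) 0) {ρ : ℝ} (hρ : 0 < ρ)
    (hσ : ∀ η > 0, ∃ σ t, Near g 0 ρ η σ t ∧ σ 0 = 0 ∧ ¬ (∀ᶠ z in 𝓝 (0 : ℂ), σ z = z)) :
    ∃ c ∈ Tr g, c ≠ 0 := by
  have hl1 := h.hl
  have hlpos : 0 < ‖lam‖ := by linarith
  have hlne : lam ≠ 0 := norm_pos_iff.mp hlpos
  obtain ⟨γ, ρ', hρ', -, htr⟩ := transport hδ hδ' (s := 1) one_ne_zero
    (by simpa using hδg) (ρ := 1) one_pos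
  apply exists_tr0 h hρ'
  intro η hη
  obtain ⟨η1, hη1, hη1'⟩ := htr η hη
  set b := δ 0 with hb
  -- choose σ
  obtain ⟨σ, t, hN, hfix, hnid⟩ := hσ (min η1 (η1 * ρ / (3 * (‖b‖ + 1)))) (by positivity)
  set η2 := min η1 (η1 * ρ / (3 * (‖b‖ + 1))) with hη2
  have hη2pos : 0 < η2 := by positivity
  obtain ⟨m0, hm0⟩ : ∃ m0 : ℕ, (‖b‖ + 1) / ρ < ‖lam‖ ^ m0 := pow_unbounded_of_one_lt _ hl1
  obtain ⟨m, hm, hmb⟩ : ∃ m ≥ m0, lam ^ m * σ ((lam ^ m)⁻¹ * b) ≠ b := by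
    by_contra hcon
    push Not at hcon
    apply hnid
    have ha : AnalyticAt ℂ σ 0 := hN.diff.analyticAt (isOpen_ball.mem_nhds (mem_ball_self hρ))
    change ∀ᶠ z in 𝓝 (0 : ℂ), σ z = id z
    rw [← ha.frequently_eq_iff_eventually_eq analyticAt_id]
    have hlim : Tendsto (fun m : ℕ => (lam ^ m)⁻¹ * b) atTop (𝓝 0) := by
      rw [tendsto_zero_iff_norm_tendsto_zero]
      have h1 : Tendsto (fun n : ℕ => (‖lam‖⁻¹) ^ n) atTop (𝓝 0) :=
        tendsto_pow_atTop_nhds_zero_of_lt_one (by positivity) (inv_lt_one_of_one_lt₀ hl1)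
      have h2 := h1.mul_const ‖b‖
      rw [zero_mul] at h2
      refine h2.congr fun n => ?_
      rw [norm_mul, norm_inv, norm_pow, inv_pow]
    have hlim' : Tendsto (fun m : ℕ => (lam ^ m)⁻¹ * b) atTop (𝓝[≠] 0) := by
      rw [tendsto_nhdsWithin_iff]
      exact ⟨hlim, Eventually.of_forall fun n => mul_ne_zero (inv_ne_zero (pow_ne_zero n hlne)) hδ0⟩
    refine hlim'.frequently ?_
    refine Eventually.frequently ?_
    filter_upwards [eventually_ge_atTop m0] with m hm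
    have := hcon m hm
    have hp : lam ^ m ≠ 0 := pow_ne_zero _ hlne
    simp only [id]
    have h3 : σ ((lam ^ m)⁻¹ * b) = (lam ^ m)⁻¹ * (lam ^ m * σ ((lam ^ m)⁻¹ * b)) := by
      field_simp
    rw [h3, this]
  -- the scaled symmetry near `b`
  obtain ⟨hd, hh⟩ := scale_symm h hN.diff hN.harm m
  have hrad : ball b 1 ⊆ ball (0 : ℂ) (ρ * ‖lam‖ ^ m) := by
    intro z hz
    rw [mem_ball_zero_iff]
    rw [mem_ball, dist_eq_norm] at hz
    have h1 : ‖z‖ < ‖b‖ + 1 := by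
      calc ‖z‖ = ‖(z - b) + b‖ := by ring_nf
        _ ≤ ‖z - b‖ + ‖b‖ := norm_add_le _ _
        _ < ‖b‖ + 1 := by linarith
    have h2 : ‖lam‖ ^ m0 ≤ ‖lam‖ ^ m := pow_le_pow_right₀ hl1.le hm
    rw [div_lt_iff₀ hρ] at hm0
    nlinarith
  have hNear : Near g b 1 η1 (fun z => lam ^ m * σ ((lam ^ m)⁻¹ * z)) t := by
    refine ⟨hd.mono hrad, ?_, hN.ht.trans (min_le_left _ _), hh.mono hrad⟩
    intro z hz
    have hp : lam ^ m ≠ 0 := pow_ne_zero _ hlne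
    have hzr := hrad hz
    rw [mem_ball_zero_iff] at hzr
    have hy : (lam ^ m)⁻¹ * z ∈ ball (0 : ℂ) ρ := by
      rw [mem_ball_zero_iff, norm_mul, norm_inv, norm_pow, inv_mul_lt_iff₀ (by positivity)]
      linarith
    have hdis := displacement hρ hη2pos hN.diff hN.close hy
    rw [hfix, sub_zero] at hdis
    have hzb : ‖z‖ < ‖b‖ + 1 := by
      rw [mem_ball, dist_eq_norm] at hz
      calc ‖z‖ = ‖(z - b) + b‖ := by ring_nf
        _ ≤ ‖z - b‖ + ‖b‖ := norm_add_le _ _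
        _ < ‖b‖ + 1 := by linarith
    have e : lam ^ m * σ ((lam ^ m)⁻¹ * z) - z =
        lam ^ m * (σ ((lam ^ m)⁻¹ * z) - (lam ^ m)⁻¹ * z) := by
      field_simp
    rw [e, norm_mul, norm_pow]
    calc ‖lam‖ ^ m * ‖σ ((lam ^ m)⁻¹ * z) - (lam ^ m)⁻¹ * z‖
        ≤ ‖lam‖ ^ m * (3 * η2 / ρ * ‖(lam ^ m)⁻¹ * z‖) :=
          mul_le_mul_of_nonneg_left hdis (by positivity)
      _ = 3 * η2 / ρ * ‖z‖ := by
          rw [norm_mul, norm_inv, norm_pow]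
          have : ‖lam‖ ^ m ≠ 0 := by positivity
          field_simp
      _ ≤ 3 * η2 / ρ * (‖b‖ + 1) := mul_le_mul_of_nonneg_left hzb.le (by positivity)
      _ ≤ η1 := by
          have h1 : η2 ≤ η1 * ρ / (3 * (‖b‖ + 1)) := min_le_right _ _
          rw [le_div_iff₀ (by positivity)] at h1
          rw [div_mul_eq_mul_div, div_le_iff₀ hρ]
          nlinarith
  obtain ⟨h1, h2⟩ := hη1' _ t hNear
  refine ⟨_, t, h1, ?_⟩
  intro hz
  exact hmb ((h2 0 (mem_ball_self hρ')).mp hz)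

/-- S1: nearby symmetries give translations -/
theorem exists_tr {g : ℂ → ℝ} {lam : ℂ} {w : ℝ} (h : SymG g lam w)
    {δ : ℂ → ℂ} (hδ : AnalyticAt ℂ δ 0) (hδ0 : δ 0 ≠ 0) (hδ' : deriv δ 0 ≠ 0)
    (hδg : HarmonicAt (fun z => g (δ z) - g z) 0)
    {β : ℂ → ℂ} (hβ : AnalyticAt ℂ β 0) (hβ' : deriv β 0 ≠ 0) {s : ℝ} (hs : s ≠ 0)
    (hβg : HarmonicAt (fun z => g (β z) - s * g z) 0)
    {ρ : ℝ} (hρ : 0 < ρ) {σ : ℕ → ℂ → ℂ} (hσ : ∀ j, DifferentiableOn ℂ (σ j) (ball (β 0) ρ))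
    (hσ1 : TendstoUniformlyOn σ id atTop (ball (β 0) ρ))
    (hσ2 : ∀ j, ∃ z ∈ ball (β 0) ρ, σ j z ≠ z)
    {t : ℕ → ℝ} (ht : Tendsto t atTop (𝓝 1))
    (hσg : ∀ j, HarmonicOnNhd (fun z => g (σ j z) - t j * g z) (ball (β 0) ρ)) :
    ∃ c ∈ Tr g, c ≠ 0 := by
  obtain ⟨γ, ρ', hρ', hcont, htr⟩ := transport hβ hβ' hs hβg hρ
  -- symmetries based at 0
  have key : ∀ η > 0, ∃ σ' t', Near g 0 ρ' η σ' t' ∧ ¬ (∀ᶠ z in 𝓝 (0 : ℂ), σ' z = z) := by
    intro η hη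
    obtain ⟨η1, hη1, hη1'⟩ := htr η hη
    rw [Metric.tendstoUniformlyOn_iff] at hσ1
    have e1 := hσ1 η1 hη1
    have e2 : ∀ᶠ j in atTop, |t j - 1| < η1 := by
      have := Metric.tendsto_nhds.mp ht η1 hη1
      filter_upwards [this] with j hj
      rwa [Real.dist_eq] at hj
    obtain ⟨j, hj1, hj2⟩ := (e1.and e2).exists
    have hNear : Near g (β 0) ρ η1 (σ j) (t j) := by
      refine ⟨hσ j, fun z hz => ?_, hj2.le, hσg j⟩
      have := hj1 z hz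
      rw [dist_comm, dist_eq_norm] at this
      exact this.le
    obtain ⟨h1, h2⟩ := hη1' _ _ hNear
    refine ⟨_, _, h1, ?_⟩
    intro hev
    -- then σ j = id near β 0
    have h3 : ∀ᶠ z in 𝓝 (0 : ℂ), σ j (β z) = β z := by
      filter_upwards [hev, isOpen_ball.mem_nhds (mem_ball_self hρ')] with z hz hz'
      exact (h2 z hz').mp hz
    have hmap := hβ.hasStrictDerivAt.map_nhds_eq hβ'
    have h4 : ∀ᶠ y in 𝓝 (β 0), σ j y = y := by
      rw [← hmap]; exact h3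
    have hana : AnalyticOnNhd ℂ (σ j) (ball (β 0) ρ) := (hσ j).analyticOnNhd isOpen_ball
    have hid : AnalyticOnNhd ℂ (id : ℂ → ℂ) (ball (β 0) ρ) := analyticOnNhd_id
    have heq := hana.eqOn_of_preconnected_of_eventuallyEq hid
      (convex_ball (β 0) ρ).isPreconnected (mem_ball_self hρ) h4
    obtain ⟨z, hz, hne⟩ := hσ2 j
    exact hne (heq hz)
  by_cases hcase : ∀ η > 0, ∃ σ' t', Near g 0 ρ' η σ' t' ∧ σ' 0 ≠ 0
  · exact exists_tr0 h hρ' hcase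
  · push Not at hcase
    obtain ⟨η0, hη0, hfix⟩ := hcase
    apply exists_tr_fix h hδ hδ0 hδ' hδg hρ'
    intro η hη
    obtain ⟨σ', t', hN, hn⟩ := key (min η η0) (by positivity)
    exact ⟨σ', t', hN.mono (min_le_left _ _), hfix σ' t' (hN.mono (min_le_right _ _)), hn⟩

end Pool.Agent.Helper17.Dyn
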