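import Pool.Agent.Helper17.Dyn.Sym2

/-! Module S3: local symmetries are affine. -/

open Complex Metric Set Filter Topology InnerProductSpace

namespace Pool.Agent.Helper17.Dyn

open Pool.Agent.Helper65 Pool.Agent.Helper56.Harm

/-- local symmetry with factor `t` -/
structure Sy (g : ℂ → ℝ) (δ : ℂ → ℂ) (t : ℝ) (x : ℂ) : Prop where
  an : AnalyticAt ℂ δ x
  d : deriv δ x ≠ 0
  ht : t ≠ 0
  harm : HarmonicAt (fun z => g (δ z) - t * g z) x

lemma Sy.comp {g : ℂ → ℝ} {δ₁ δ₂ : ℂ → ℂ} {t₁ t₂ : ℝ} {x : ℂ} (h1 : Sy g δ₁ t₁ x)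
    (h2 : Sy g δ₂ t₂ (δ₁ x)) : Sy g (fun z => δ₂ (δ₁ z)) (t₂ * t₁) x := by
  refine ⟨h2.an.comp h1.an, ?_, mul_ne_zero h2.ht h1.ht, ?_⟩
  · have := deriv_comp (h₂ := δ₂) (h := δ₁) x h2.an.differentiableAt h1.an.differentiableAt
    have e : (fun z => δ₂ (δ₁ z)) = δ₂ ∘ δ₁ := rfl
    rw [e, this]
    exact mul_ne_zero h2.d h1.d
  · have a := harmonicAt_comp (u := fun z => g (δ₂ z) - t₂ * g z) (h := δ₁) h2.harm h1.an
    have b := harm_add a (harm_const_mul t₂ h1.harm)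
    refine harm_congr b (Eventually.of_forall fun z => ?_)
    simp only; ring

lemma Sy.translate {g : ℂ → ℝ} {c : ℂ} (hc : c ∈ Tr g) (x : ℂ) : Sy g (fun z => z + c) 1 x := by
  refine ⟨by fun_prop, ?_, one_ne_zero, ?_⟩
  · simp
  · have := hc x (mem_univ _)
    simpa using this

lemma Sy.eventually {g : ℂ → ℝ} {δ : ℂ → ℂ} {t : ℝ} {x : ℂ} (h : Sy g δ t x) :
    ∀ᶠ y in 𝓝 x, Sy g δ t y := by
  filter_upwards [h.an.eventually_analyticAt, h.an.deriv.continuousAt.eventually_ne h.d,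
    h.harm.eventually] with y h1 h2 h3
  exact ⟨h1, h2, h.ht, h3⟩

/-- local inverse of a local symmetry -/
lemma Sy.inv {g : ℂ → ℝ} {δ : ℂ → ℂ} {t : ℝ} {x : ℂ} (h : Sy g δ t x) :
    ∃ γ : ℂ → ℂ, (∀ᶠ y in 𝓝 (δ x), Sy g γ t⁻¹ y) ∧ (∀ᶠ y in 𝓝 (δ x), δ (γ y) = y) ∧
      (∀ᶠ z in 𝓝 x, γ (δ z) = z) := by
  obtain ⟨ε, hε, hball⟩ := Metric.eventually_nhds_iff_ball.mp h.eventually
  obtain ⟨r, ρ, γ, hr, hrε, hρ, hδd, hδd', hγd, hγm, hγr, hinj⟩ := exists_local_inv h.an h.d hε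
  have hsy : ∀ z ∈ ball x r, Sy g δ t z := fun z hz => hball z (ball_subset_ball hrε hz)
  have hγδ : ∀ᶠ z in 𝓝 x, γ (δ z) = z := by
    have h1 : ∀ᶠ z in 𝓝 x, δ z ∈ ball (δ x) ρ :=
      h.an.continuousAt.eventually (isOpen_ball.mem_nhds (mem_ball_self hρ))
    filter_upwards [h1, isOpen_ball.mem_nhds (mem_ball_self hr)] with z hz hz'
    exact hinj (hγm hz) hz' (hγr _ hz)
  refine ⟨γ, ?_, ?_, hγδ⟩
  · filter_upwards [isOpen_ball.mem_nhds (mem_ball_self hρ)] with y hy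
    have ha : AnalyticAt ℂ γ y := hγd.analyticAt (isOpen_ball.mem_nhds hy)
    have hs := hsy _ (hγm hy)
    refine ⟨ha, ?_, inv_ne_zero h.ht, ?_⟩
    · intro h0
      have hd : HasDerivAt (fun y => δ (γ y)) (deriv δ (γ y) * deriv γ y) y :=
        hs.an.differentiableAt.hasDerivAt.comp y ha.differentiableAt.hasDerivAt
      have hid : HasDerivAt (fun y => δ (γ y)) 1 y := by
        refine (hasDerivAt_id y).congr_of_eventuallyEq ?_
        filter_upwards [isOpen_ball.mem_nhds hy] with y' hy'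
        exact hγr _ hy'
      have := hd.unique hid
      rw [h0, mul_zero] at this
      exact zero_ne_one this
    · have a := harmonicAt_comp (u := fun z => g (δ z) - t * g z) (h := γ) hs.harm ha
      have b := harm_const_mul (-t⁻¹) a
      refine harm_congr b ?_
      filter_upwards [isOpen_ball.mem_nhds hy] with y' hy'
      rw [hγr _ hy']
      have := h.ht
      field_simp
      ring
  · filter_upwards [isOpen_ball.mem_nhds (mem_ball_self hρ)] with y hy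
    exact hγr _ hy

/-- A contracting symmetry forces harmonicity. -/
lemma harmonic_of_contracting {g : ℂ → ℝ} (hg : Continuous g) {σ : ℂ → ℂ} {x : ℂ}
    (hσ : AnalyticAt ℂ σ x) (hfix : σ x = x) (hh : HarmonicAt (fun z => g (σ z) - g z) x)
    (hlt : ‖deriv σ x‖ < 1) : HarmonicAt g x := by
  obtain ⟨k, hk1, hk2⟩ := exists_between hlt
  have hk0 : 0 ≤ k := (norm_nonneg _).trans hk1.le
  -- contraction near x
  have hd := hσ.differentiableAt.hasDerivAt
  have hev : ∀ᶠ z in 𝓝 x, ‖σ z - x‖ ≤ k * ‖z - x‖ := by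
    have h1 := (hasDerivAt_iff_isLittleO.mp hd).def (sub_pos.mpr hk1)
    filter_upwards [h1] with z hz
    rw [hfix] at hz
    calc ‖σ z - x‖ = ‖(σ z - x - (z - x) • deriv σ x) + (z - x) • deriv σ x‖ := by ring_nf
      _ ≤ ‖σ z - x - (z - x) • deriv σ x‖ + ‖(z - x) • deriv σ x‖ := norm_add_le _ _
      _ ≤ (k - ‖deriv σ x‖) * ‖z - x‖ + ‖z - x‖ * ‖deriv σ x‖ := by
          rw [norm_smul]; exact add_le_add hz le_rfl
      _ = k * ‖z - x‖ := by ring
  obtain ⟨r, hr, hball⟩ := Metric.eventually_nhds_iff_ball.mp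
    (hev.and (hσ.eventually_analyticAt.and hh.eventually))
  have hmaps : ∀ z ∈ ball x r, σ z ∈ ball x r := by
    intro z hz
    have h1 := (hball z hz).1
    rw [mem_ball, dist_eq_norm] at hz ⊢
    calc ‖σ z - x‖ ≤ k * ‖z - x‖ := h1
      _ ≤ 1 * ‖z - x‖ := mul_le_mul_of_nonneg_right hk2.le (norm_nonneg _)
      _ < r := by linarith
  have hit : ∀ n : ℕ, ∀ z ∈ ball x r, σ^[n] z ∈ ball x r ∧ ‖σ^[n] z - x‖ ≤ k ^ n * ‖z - x‖ ∧
      AnalyticAt ℂ (σ^[n]) z ∧ HarmonicAt (fun z => g (σ^[n] z) - g z) z := by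
    intro n
    induction n with
    | zero =>
      intro z hz
      refine ⟨hz, by simp, analyticAt_id, ?_⟩
      have : (fun z => g (σ^[0] z) - g z) = fun _ : ℂ => (0:ℝ) := by funext; simp
      rw [this]; exact harmonicAt_const 0
    | succ n ih =>
      intro z hz
      obtain ⟨h1, h2, h3, h4⟩ := ih z hz
      have e : ∀ z, σ^[n + 1] z = σ (σ^[n] z) := fun z => Function.iterate_succ_apply' σ n z
      refine ⟨?_, ?_, ?_, ?_⟩
      · rw [e]; exact hmaps _ h1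
      · rw [e]
        calc ‖σ (σ^[n] z) - x‖ ≤ k * ‖σ^[n] z - x‖ := (hball _ h1).1
          _ ≤ k * (k ^ n * ‖z - x‖) := mul_le_mul_of_nonneg_left h2 hk0
          _ = k ^ (n + 1) * ‖z - x‖ := by ring
      · have : (σ^[n + 1]) = fun z => σ (σ^[n] z) := funext e
        rw [this]
        exact AnalyticAt.comp (g := σ) (f := σ^[n]) (hball _ h1).2.1 h3
      · have a := harmonicAt_comp (u := fun z => g (σ z) - g z) (h := σ^[n]) (hball _ h1).2.2 h3
        refine harm_congr (harm_add a h4) (Eventually.of_forall fun z => ?_)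
        simp only [e]; ring
  have hmain : HarmonicOnNhd (fun z => g z - g x) (ball x r) := by
    apply harmonic_of_unif
    intro ε hε
    obtain ⟨δ, hδ, hδ'⟩ := Metric.continuousAt_iff.mp (hg.continuousAt (x := x)) ε hε
    have hkn : Tendsto (fun n : ℕ => k ^ n * r) atTop (𝓝 0) := by
      have := (tendsto_pow_atTop_nhds_zero_of_lt_one hk0 hk2).mul_const r
      simpa using this
    obtain ⟨n, hn⟩ := ((hkn.eventually (gt_mem_nhds hδ))).exists
    refine ⟨fun z => -(g (σ^[n] z) - g z), ?_, fun z hz => ?_⟩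
    · intro z hz
      exact (hit n z hz).2.2.2.neg
    · obtain ⟨h1, h2, -, -⟩ := hit n z hz
      have h3 : dist (σ^[n] z) x < δ := by
        rw [dist_eq_norm]
        rw [mem_ball, dist_eq_norm] at hz
        calc ‖σ^[n] z - x‖ ≤ k ^ n * ‖z - x‖ := h2
          _ ≤ k ^ n * r := mul_le_mul_of_nonneg_left hz.le (by positivity)
          _ < δ := hn
      have h4 := hδ' h3
      rw [Real.dist_eq] at h4
      have : g z - g x - -(g (σ^[n] z) - g z) = g (σ^[n] z) - g x := by ring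
      rw [this]; exact h4.le
  have := hmain x (mem_ball_self hr)
  refine harm_congr (harm_add this (harmonicAt_const (g x))) (Eventually.of_forall fun z => ?_)
  simp

/-- Lemma F -/
lemma norm_deriv_eq_one {g : ℂ → ℝ} (hg : Continuous g) {σ : ℂ → ℂ} {x : ℂ} (h : Sy g σ 1 x)
    (hfix : σ x = x) (hnh : ¬ HarmonicAt g x) : ‖deriv σ x‖ = 1 := by
  have hh : HarmonicAt (fun z => g (σ z) - g z) x := by
    have := h.harm; simpa using this
  rcases lt_trichotomy ‖deriv σ x‖ 1 with hlt | heq | hgt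
  · exact absurd (harmonic_of_contracting hg h.an hfix hh hlt) hnh
  · exact heq
  · exfalso
    obtain ⟨γ, h1, h2, h3⟩ := h.inv
    rw [hfix] at h1 h2
    have hγx : γ x = x := by
      have := h3.self_of_nhds
      rwa [hfix] at this
    have hγ := h1.self_of_nhds
    have hγh : HarmonicAt (fun z => g (γ z) - g z) x := by
      have := hγ.harm; simpa using this
    have hdγ : ‖deriv γ x‖ < 1 := by
      have hd : HasDerivAt (fun y => σ (γ y)) (deriv σ (γ x) * deriv γ x) x := by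
        have h4 : HasDerivAt σ (deriv σ (γ x)) (γ x) := by
          rw [hγx]; exact h.an.differentiableAt.hasDerivAt
        exact h4.comp x hγ.an.differentiableAt.hasDerivAt
      have hid : HasDerivAt (fun y => σ (γ y)) 1 x :=
        (hasDerivAt_id x).congr_of_eventuallyEq h2
      have h5 := hd.unique hid
      rw [hγx] at h5
      have h6 := congrArg norm h5
      rw [norm_mul, norm_one] at h6
      have h7 := norm_nonneg (deriv γ x)
      nlinarith
    exact hnh (harmonic_of_contracting hg hγ.an hγx hγh hdγ)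

/-- The modulus of the derivative is constant along symmetry translations. -/
lemma norm_deriv_eq {g : ℂ → ℝ} (hg : Continuous g) {δ : ℂ → ℂ} {t : ℝ} {x : ℂ} (h : Sy g δ t x)
    (hnh : ¬ HarmonicAt g x) :
    ∀ᶠ y in 𝓝 x, δ y - δ x ∈ Tr g → y - x ∈ Tr g → ‖deriv δ y‖ = ‖deriv δ x‖ := by
  obtain ⟨γ, h1, h2, h3⟩ := h.inv
  have h1' : ∀ᶠ y in 𝓝 x, Sy g γ t⁻¹ (δ y) := h.an.continuousAt.eventually h1
  have h2' : ∀ᶠ y in 𝓝 x, ∀ᶠ Y in 𝓝 (δ y), δ (γ Y) = Y :=
    h.an.continuousAt.eventually h2.eventually_nhds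
  filter_upwards [h.eventually, h1', h2', h3] with y hy hγ hγr hγl hc hc'
  -- σ = (· - (y - x)) ∘ γ ∘ (· + (δ y - δ x)) ∘ δ
  have s1 : Sy g (fun z => z + (δ y - δ x)) 1 (δ x) := Sy.translate hc _
  have s2 := h.comp s1
  have e1 : δ x + (δ y - δ x) = δ y := by ring
  have s3 : Sy g γ t⁻¹ (δ x + (δ y - δ x)) := by rw [e1]; exact hγ
  have s4 := s2.comp s3
  have s5 : Sy g (fun z => z + -(y - x)) 1 (γ (δ x + (δ y - δ x))) := Sy.translate (tr_neg hc') _
  have s6 := s4.comp s5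
  have ht : (1 : ℝ) * (t⁻¹ * (1 * t)) = 1 := by
    have := h.ht; field_simp
  rw [ht] at s6
  have hfix : γ (δ x + (δ y - δ x)) + -(y - x) = x := by rw [e1, hγl]; ring
  have hnorm := norm_deriv_eq_one hg s6 hfix hnh
  -- compute the derivative
  have hdγ : deriv δ y * deriv γ (δ y) = 1 := by
    have hd : HasDerivAt (fun Y => δ (γ Y)) (deriv δ (γ (δ y)) * deriv γ (δ y)) (δ y) := by
      have h4 : HasDerivAt δ (deriv δ (γ (δ y))) (γ (δ y)) := by
        rw [hγl]; exact hy.an.differentiableAt.hasDerivAt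
      exact h4.comp (δ y) hγ.an.differentiableAt.hasDerivAt
    have hid : HasDerivAt (fun Y => δ (γ Y)) 1 (δ y) :=
      (hasDerivAt_id (δ y)).congr_of_eventuallyEq hγr
    have h5 := hd.unique hid
    rw [hγl] at h5
    exact h5
  have hd : HasDerivAt (fun z => γ (δ z + (δ y - δ x)) + -(y - x))
      (deriv γ (δ y) * deriv δ x) x := by
    have a1 : HasDerivAt (fun z => δ z + (δ y - δ x)) (deriv δ x) x :=
      h.an.differentiableAt.hasDerivAt.add_const _
    have a2 : HasDerivAt γ (deriv γ (δ y)) (δ x + (δ y - δ x)) := by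
      rw [e1]; exact hγ.an.differentiableAt.hasDerivAt
    exact (a2.comp x a1).add_const _
  rw [hd.deriv, norm_mul] at hnorm
  have h6 := congrArg norm hdγ
  rw [norm_mul, norm_one] at h6
  have h7 : ‖deriv γ (δ y)‖ ≠ 0 := norm_ne_zero_iff.mpr hγ.d
  have h8 : ‖deriv γ (δ y)‖ * ‖deriv δ y‖ = ‖deriv γ (δ y)‖ * ‖deriv δ x‖ := by
    rw [hnorm, mul_comm]; exact h6
  exact mul_left_cancel₀ h7 h8

/-- The limit of the conjugated translations. -/
lemma tr_of_deriv {g : ℂ → ℝ} {lam : ℂ} {w : ℝ} (h : SymG g lam w) {v : ℂ}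
    (hvT : ∀ s : ℝ, (s : ℂ) * v ∈ Tr g) {δ : ℂ → ℂ} {t : ℝ} (hs : Sy g δ t 0) :
    v / deriv δ 0 ∈ Tr g := by
  have hl1 := h.hl
  have hlpos : 0 < ‖lam‖ := by linarith
  have hlne : lam ≠ 0 := norm_pos_iff.mp hlpos
  obtain ⟨γ, h1, h2, h3⟩ := hs.inv
  set a := deriv δ 0 with ha
  have hv1 : v ∈ Tr g := by simpa using hvT 1
  have hγ0 := h1.self_of_nhds
  have hγδ0 : γ (δ 0) = 0 := h3.self_of_nhds
  have hdγ : a * deriv γ (δ 0) = 1 := by
    have hd : HasDerivAt (fun Y => δ (γ Y)) (deriv δ (γ (δ 0)) * deriv γ (δ 0)) (δ 0) := by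
      have h4 : HasDerivAt δ (deriv δ (γ (δ 0))) (γ (δ 0)) := by
        rw [hγδ0]; exact hs.an.differentiableAt.hasDerivAt
      exact h4.comp (δ 0) hγ0.an.differentiableAt.hasDerivAt
    have hid : HasDerivAt (fun Y => δ (γ Y)) 1 (δ 0) :=
      (hasDerivAt_id (δ 0)).congr_of_eventuallyEq h2
    have h5 := hd.unique hid
    rw [hγδ0] at h5
    exact h5
  have hdγ' : deriv γ (δ 0) = a⁻¹ := by
    rw [eq_comm, inv_eq_iff_eq_inv, eq_comm]
    have hne : deriv γ (δ 0) ≠ 0 := hγ0.d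
    field_simp
    rw [mul_comm]; exact hdγ.symm
  -- the two variable function
  let Φ : ℂ × ℂ → ℂ := fun p => γ (δ p.1 + p.2)
  have hΦ0 : Φ (0, 0) = 0 := by simp [Φ, hγδ0]
  have hΦd : HasFDerivAt Φ ((ContinuousLinearMap.fst ℂ ℂ ℂ) + a⁻¹ • (ContinuousLinearMap.snd ℂ ℂ ℂ))
      (0, 0) := by
    have b1 : HasFDerivAt (fun p : ℂ × ℂ => δ p.1 + p.2)
        (a • (ContinuousLinearMap.fst ℂ ℂ ℂ) + ContinuousLinearMap.snd ℂ ℂ ℂ) ((0 : ℂ), (0 : ℂ)) := by
      have c1 : HasFDerivAt (fun p : ℂ × ℂ => δ p.1) (a • (ContinuousLinearMap.fst ℂ ℂ ℂ))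
          ((0 : ℂ), (0 : ℂ)) := by
        have := hs.an.differentiableAt.hasDerivAt
        exact HasDerivAt.comp_hasFDerivAt ((0 : ℂ), (0 : ℂ)) this hasFDerivAt_fst
      exact c1.add hasFDerivAt_snd
    have b2 : HasDerivAt γ a⁻¹ ((fun p : ℂ × ℂ => δ p.1 + p.2) ((0 : ℂ), (0 : ℂ))) := by
      have := hγ0.an.differentiableAt.hasDerivAt
      rw [hdγ'] at this
      simpa using this
    have b3 := HasDerivAt.comp_hasFDerivAt ((0 : ℂ), (0 : ℂ)) b2 b1
    refine b3.congr_fderiv ?_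
    have hane : a ≠ 0 := hs.d
    ext <;> simp [hane]
  -- symmetry property of Φ (·, c)
  have hsymΦ : ∀ᶠ p in 𝓝 ((0 : ℂ), (0 : ℂ)), p.2 ∈ Tr g → Sy g (fun z => Φ (z, p.2)) 1 p.1 := by
    have c1 : ContinuousAt (fun p : ℂ × ℂ => δ p.1 + p.2) ((0 : ℂ), (0 : ℂ)) := by
      have : ContinuousAt (fun p : ℂ × ℂ => δ p.1) ((0 : ℂ), (0 : ℂ)) :=
        ContinuousAt.comp (f := Prod.fst) (g := δ) (x := ((0 : ℂ), (0 : ℂ))) hs.an.continuousAt
          continuousAt_fst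
      exact this.add continuousAt_snd
    have c1' : ∀ᶠ p in 𝓝 ((0 : ℂ), (0 : ℂ)), Sy g γ t⁻¹ (δ p.1 + p.2) := by
      have : Tendsto (fun p : ℂ × ℂ => δ p.1 + p.2) (𝓝 ((0 : ℂ), (0 : ℂ))) (𝓝 (δ 0)) := by
        have := c1.tendsto; simpa using this
      exact this.eventually h1
    have c2 : ∀ᶠ p in 𝓝 ((0 : ℂ), (0 : ℂ)), Sy g δ t p.1 :=
      continuousAt_fst.eventually hs.eventually
    filter_upwards [c1', c2] with p hp1 hp2 hc
    have s2 := hp2.comp (Sy.translate hc (δ p.1))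
    have s4 := s2.comp hp1
    have ht : t⁻¹ * (1 * t) = 1 := by
      have := hs.ht; field_simp
    rw [ht] at s4
    exact s4
  -- now apply tr_of_limit
  apply tr_of_limit h.cont
  intro R hR ε hε
  set M := max R ‖v‖ with hM
  have hMpos : 0 < M := lt_of_lt_of_le hR (le_max_left _ _)
  have hlo := (hasFDerivAt_iff_isLittleO_nhds_zero.mp hΦd).def (c := ε / M) (by positivity)
  obtain ⟨r1, hr1, hb1⟩ := Metric.eventually_nhds_iff_ball.mp hlo
  obtain ⟨r2, hr2, hb2⟩ := Metric.eventually_nhds_iff_ball.mp hsymΦ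
  set r := min r1 r2 with hr
  have hrpos : 0 < r := lt_min hr1 hr2
  obtain ⟨m, hm⟩ : ∃ m : ℕ, M / r < ‖lam‖ ^ m := pow_unbounded_of_one_lt _ hl1
  have hpm : 0 < ‖lam‖ ^ m := by positivity
  have hpne : lam ^ m ≠ 0 := pow_ne_zero m hlne
  rw [div_lt_iff₀ hrpos] at hm
  set c := (lam ^ m)⁻¹ * v with hc
  have hcT : c ∈ Tr g := tr_div_pow h hv1 m
  have hcn : ‖c‖ < r := by
    rw [hc, norm_mul, norm_inv, norm_pow, inv_mul_lt_iff₀ hpm]
    calc ‖v‖ ≤ M := le_max_right _ _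
      _ < ‖lam‖ ^ m * r := hm
  -- σ = Φ (·, c) on the ball of radius r
  have hσ : ∀ z ∈ ball (0 : ℂ) r, Sy g (fun z => Φ (z, c)) 1 z := by
    intro z hz
    have hmem : (z, c) ∈ ball ((0 : ℂ), (0 : ℂ)) r2 := by
      rw [mem_ball, Prod.dist_eq]
      rw [mem_ball] at hz
      simp only
      rw [max_lt_iff]
      refine ⟨lt_of_lt_of_le hz (min_le_right _ _), ?_⟩
      rw [dist_zero_right]; exact lt_of_lt_of_le hcn (min_le_right _ _)
    exact hb2 (z, c) hmem hcT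
  obtain ⟨-, hh⟩ := scale_symm h (σ := fun z => Φ (z, c)) (t := 1) (ρ := r)
    (fun z hz => (hσ z hz).an.differentiableAt.differentiableWithinAt)
    (fun z hz => (hσ z hz).harm) m
  have hbig : R ≤ r * ‖lam‖ ^ m := by
    have : R ≤ M := le_max_left _ _
    linarith
  refine ⟨fun z => lam ^ m * Φ ((lam ^ m)⁻¹ * z, c), 1, by simp; positivity, ?_,
    hh.mono (ball_subset_ball hbig)⟩
  intro z hz
  have hz' : ‖z‖ < R := by simpa using hz
  have hp : ((lam ^ m)⁻¹ * z, c) ∈ ball ((0 : ℂ), (0 : ℂ)) r1 := by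
    rw [mem_ball, Prod.dist_eq]
    simp only
    rw [max_lt_iff]
    constructor
    · rw [dist_zero_right, norm_mul, norm_inv, norm_pow, inv_mul_lt_iff₀ hpm]
      calc ‖z‖ < M := lt_of_lt_of_le hz' (le_max_left _ _)
        _ < ‖lam‖ ^ m * r := hm
        _ ≤ ‖lam‖ ^ m * r1 := mul_le_mul_of_nonneg_left (min_le_left _ _) hpm.le
    · rw [dist_zero_right]; exact lt_of_lt_of_le hcn (min_le_left _ _)
  have hest := hb1 _ (show ((lam ^ m)⁻¹ * z, c) ∈ ball (0 : ℂ × ℂ) r1 from hp)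
  have e0 : ((0 : ℂ), (0 : ℂ)) + ((lam ^ m)⁻¹ * z, c) = ((lam ^ m)⁻¹ * z, c) := by simp
  rw [e0, hΦ0, sub_zero] at hest
  have hnorm : ‖((lam ^ m)⁻¹ * z, c)‖ ≤ (‖lam‖ ^ m)⁻¹ * M := by
    rw [Prod.norm_def]
    simp only
    apply max_le
    · rw [norm_mul, norm_inv, norm_pow]
      exact mul_le_mul_of_nonneg_left (hz'.le.trans (le_max_left _ _)) (by positivity)
    · rw [hc, norm_mul, norm_inv, norm_pow]
      exact mul_le_mul_of_nonneg_left (le_max_right _ _) (by positivity)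
  have e1 : lam ^ m * Φ ((lam ^ m)⁻¹ * z, c) - (z + v / a) =
      lam ^ m * (Φ ((lam ^ m)⁻¹ * z, c) -
        ((ContinuousLinearMap.fst ℂ ℂ ℂ) + a⁻¹ • (ContinuousLinearMap.snd ℂ ℂ ℂ))
          ((lam ^ m)⁻¹ * z, c)) := by
    simp only [add_apply, ContinuousLinearMap.coe_fst',
      smul_apply, ContinuousLinearMap.coe_snd', smul_eq_mul, hc]
    have hane : a ≠ 0 := hs.d
    field_simp
  rw [e1, norm_mul, norm_pow]
  calc ‖lam‖ ^ m * _ ≤ ‖lam‖ ^ m * (ε / M * ‖((lam ^ m)⁻¹ * z, c)‖) :=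
        mul_le_mul_of_nonneg_left hest hpm.le
    _ ≤ ‖lam‖ ^ m * (ε / M * ((‖lam‖ ^ m)⁻¹ * M)) := by
        apply mul_le_mul_of_nonneg_left _ hpm.le
        exact mul_le_mul_of_nonneg_left hnorm (by positivity)
    _ = ε := by field_simp

end Pool.Agent.Helper17.Dyn
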